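import Pool.Agent.LHA.St

/-!
# LHA.DT (MP_303581_co): the structure data of a dense graph exist (helper65)
-/

set_option autoImplicit false

open Finset

namespace Pool.Agent.LHA

open Pool.Agent.TwoDens

/-- number of neighbours in the other groups -/
def DT_cd {V : Type} (G : SimpleGraph V) [DecidableRel G.Adj] [DecidableEq V] (X : Finset V) (h : V → V) (v : V) : ℕ :=
  (X.filter (fun u => h u ≠ h v ∧ G.Adj v u)).card

theorem DT_markov {V : Type} (X : Finset V) (f : V → ℕ) {k C m : ℕ} (hk : 0 < k) (h : ∑ v ∈ X, f v ≤ C * k) :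
    (X.filter (fun v => k ≤ m * f v)).card ≤ m * C := by
  refine Nat.le_of_mul_le_mul_right ?_ hk
  calc (X.filter (fun v => k ≤ m * f v)).card * k ≤ ∑ v ∈ X.filter (fun v => k ≤ m * f v), m * f v := by
        rw [← smul_eq_mul, ← Finset.sum_const]
        exact Finset.sum_le_sum fun v hv => (mem_filter.1 hv).2
    _ ≤ ∑ v ∈ X, m * f v := Finset.sum_le_sum_of_subset (Finset.filter_subset _ _)
    _ = m * ∑ v ∈ X, f v := by rw [Finset.mul_sum]
    _ ≤ m * (C * k) := Nat.mul_le_mul_left _ h
    _ = m * C * k := by ring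

theorem DT_cross {V : Type} [DecidableEq V] (G : SimpleGraph V) [DecidableRel G.Adj] {k s t Λ : ℕ} {X I : Finset V} {h : V → V}
    (hS : Sk G k X) (hI : ∀ v ∈ X, h v ∈ I) (hIc : I.card = s) (hs : 1 ≤ s)
    (h3 : ∀ j ∈ I, 3 ≤ (grp X h j).card) (hle : ∀ j ∈ I, (grp X h j).card ≤ k)
    (hsum : ∑ j ∈ I, (k - (grp X h j).card) = t) (hX : X.card + t = k * s)
    (hP1 : ∑ x ∈ X, ms G X h x ≤ 2 * Λ) (hΛ : 2 * Λ ≤ k) :
    ∑ v ∈ X, DT_cd G X h v ≤ (2 * s + 2 * t + 2) * k := by
  obtain ⟨i0, hi0⟩ : I.Nonempty := Finset.card_pos.1 (by omega)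
  have h1 := cross_le G (k := k) (Y := X) (I := I) hS h (fun _ => i0) hI h3
  have h2 : crossR G X h (fun _ => i0) = ∑ v ∈ X, DT_cd G X h v := by
    unfold crossR DT_cd
    refine Finset.sum_congr rfl fun x _ => ?_
    congr 1
    refine Finset.filter_congr fun y _ => ?_
    simp
  have h4 : (I.image (fun _ : V => i0)).card = 1 := by
    rw [Finset.image_const ⟨i0, hi0⟩, Finset.card_singleton]
  rw [h2, h4] at h1
  have h5 : s * (k * k) ≤ ∑ j ∈ I, (grp X h j).card * (grp X h j).card + 2 * (k * t) := by
    have e1 : ∑ j ∈ I, k * k ≤ ∑ j ∈ I, ((grp X h j).card * (grp X h j).card + 2 * (k * (k - (grp X h j).card))) := by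
      refine Finset.sum_le_sum fun j hj => ?_
      obtain ⟨d, hd⟩ := Nat.exists_eq_add_of_le (hle j hj)
      have e2 : k - (grp X h j).card = d := by omega
      rw [e2]
      generalize (grp X h j).card = g at hd ⊢
      subst hd
      nlinarith [Nat.zero_le (d * d)]
    rw [Finset.sum_const, smul_eq_mul, hIc, Finset.sum_add_distrib, ← Finset.mul_sum, ← Finset.mul_sum, hsum] at e1
    exact e1
  have e1 : (k + 2) * X.card ≤ (k + 2) * (k * s) := Nat.mul_le_mul_left _ (by omega)
  have e2 : (k + 2) * (k * s) = s * (k * k) + 2 * (k * s) := by ring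
  have e3 : (2 * s + 2 * t + 2) * k = 2 * (k * s) + 2 * (k * t) + 2 * k := by ring
  rw [e3]
  omega

/-- missing pairs in `K ∪ Z` -/
theorem DT_m2 {V : Type} [DecidableEq V] (G : SimpleGraph V) [DecidableRel G.Adj] {K Z : Finset V} (hKZ : Disjoint K Z)
    (hK : ∀ u ∈ K, ∀ v ∈ K, u ≠ v → G.Adj u v) :
    m2 G (K ∪ Z) ≤ 2 * ∑ z ∈ Z, (non G z K).card + Z.card * Z.card := by
  unfold m2
  rw [Finset.sum_union hKZ]
  have h1 : ∀ x ∈ K, ((K ∪ Z).filter (fun y => y ≠ x ∧ ¬ G.Adj x y)).card ≤ (Z.filter (fun z => ¬ G.Adj x z)).card := by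
    intro x hx
    refine Finset.card_le_card fun y hy => ?_
    obtain ⟨h1, h2, h3⟩ := mem_filter.1 hy
    rcases mem_union.1 h1 with h4 | h4
    · exact absurd (hK x hx y h4 (Ne.symm h2)) h3
    · exact mem_filter.2 ⟨h4, h3⟩
  have h2 : ∀ z ∈ Z, ((K ∪ Z).filter (fun y => y ≠ z ∧ ¬ G.Adj z y)).card ≤ (non G z K).card + Z.card := by
    intro z hz
    refine le_trans (Finset.card_le_card (t := non G z K ∪ Z) fun y hy => ?_) (Finset.card_union_le _ _)
    obtain ⟨h1, h2, h3⟩ := mem_filter.1 hy
    rcases mem_union.1 h1 with h4 | h4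
    · exact mem_union_left _ (mem_filter.2 ⟨h4, h3⟩)
    · exact mem_union_right _ h4
  have h3 : ∑ x ∈ K, (Z.filter (fun z => ¬ G.Adj x z)).card = ∑ z ∈ Z, (non G z K).card := by
    unfold non
    simp only [Finset.card_filter]
    rw [Finset.sum_comm]
    refine Finset.sum_congr rfl fun z _ => Finset.sum_congr rfl fun x _ => ?_
    simp only [G.adj_comm]
  have h4 := Finset.sum_le_sum h1
  have h5 := Finset.sum_le_sum h2
  rw [h3] at h4
  rw [Finset.sum_add_distrib, Finset.sum_const, smul_eq_mul] at h5
  omega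

theorem thm_DT : St_DT := by
  intro s t hs
  set C := 2 * s + 2 * t + 2 with hC
  set B0 := 4 * C with hB0
  set M := 4 * (B0 + 1) with hM
  set M' := 2 * s * M with hM'
  obtain ⟨K1, hK1⟩ := T_thm (s - 1) (by omega)
  obtain ⟨K2, hK2⟩ := struct_thm2 s t (2 * M) hs
  refine ⟨B0 + M' * C + C, K1 + K2 + 4 * t + 4 + M * (B0 * B0) + 1, ?_⟩
  intro k hk V _ G _ X hS hal hX
  have hs1 : s - 1 + 1 = s := by omega
  have hdeg := deg_of_T G (t := t) (hK1 k (by omega) G) hS (by rw [hs1]; exact hal) (by rw [hs1]; exact hX)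
  obtain ⟨I, h, Λ, hIc, hI, hΛ, hP1, hP2⟩ := hK2 k (by omega) G X hS hal hX hdeg
  have hP1' : ∑ x ∈ X, ms G X h x ≤ 2 * Λ := hP1
  have hM4 : 4 ≤ M := by omega
  have hMΛ : 2 * (M * Λ) ≤ k := by
    have e1 : 2 * M * Λ = 2 * (M * Λ) := by ring
    omega
  have h4Λ : 4 * Λ ≤ M * Λ := Nat.mul_le_mul_right _ hM4
  have hle : ∀ j ∈ I, (grp X h j).card ≤ k := fun j _ => grp_le G (by omega) hS h hP1' (by omega) j
  have hsum : ∑ i ∈ I, (k - (grp X h i).card) = t := by
    have h8 : ∑ i ∈ I, ((k - (grp X h i).card) + (grp X h i).card) = ∑ i ∈ I, k :=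
      Finset.sum_congr rfl fun i hi => by have := hle i hi; omega
    rw [Finset.sum_add_distrib, sum_grp hI, Finset.sum_const, smul_eq_mul, hIc, mul_comm s k] at h8
    omega
  have hgt : ∀ i ∈ I, k ≤ (grp X h i).card + t := by
    intro i hi
    have h1 : k - (grp X h i).card ≤ ∑ i ∈ I, (k - (grp X h i).card) :=
      Finset.single_le_sum (f := fun i => k - (grp X h i).card) (fun _ _ => Nat.zero_le _) hi
    omega
  have hge : ∀ i ∈ I, 3 ≤ (grp X h i).card := by
    intro i hi
    have := hgt i hi
    omega
  have hcd := DT_cross G hS hI hIc (by omega) hge hle hsum hX hP1' (by omega)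
  rw [← hC] at hcd
  set cd := DT_cd G X h with hcd0
  have hk0 : 0 < k := by omega
  set Z := X.filter (fun v => k ≤ 4 * cd v) with hZ
  have hZc : Z.card ≤ B0 := DT_markov X cd hk0 hcd
  set K : V → Finset V := fun j => grp X h j \ Z with hK
  have hKm : ∀ j u, u ∈ K j → u ∈ X ∧ h u = j ∧ 4 * cd u < k := by
    intro j u hu
    obtain ⟨h1, h2⟩ := mem_sdiff.1 hu
    obtain ⟨h3, h4⟩ := mem_filter.1 h1
    refine ⟨h3, h4, ?_⟩
    by_contra hcon
    exact h2 (mem_filter.2 ⟨h3, not_lt.1 hcon⟩)
  -- a group is covered by two vertices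
  have hclq : ∀ j ∈ I, ∀ u ∈ K j, ∀ v ∈ K j, u ≠ v → G.Adj u v := by
    intro j hj u hu v hv huv
    by_contra hna
    obtain ⟨hu1, hu2, hu3⟩ := hKm j u hu
    obtain ⟨hv1, hv2, hv3⟩ := hKm j v hv
    obtain ⟨l, hl, hl2⟩ := hP2 {u, v} (by
        intro w hw
        rcases mem_insert.1 hw with rfl | hw
        · exact hu1
        · rw [mem_singleton.1 hw]; exact hv1) (by
        intro p hp q hq hpq
        rw [Finset.mem_coe, mem_insert, mem_singleton] at hp hq
        rcases hp with rfl | rfl <;> rcases hq with rfl | rfl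
        · exact absurd rfl hpq
        · exact hna
        · exact fun h => hna h.symm
        · exact absurd rfl hpq) (I.erase j) (Finset.erase_subset _ _) (by
        intro w hw hw2
        rcases mem_insert.1 hw with rfl | hw
        · rw [hu2] at hw2; exact (Finset.mem_erase.1 hw2).1 rfl
        · rw [mem_singleton.1 hw, hv2] at hw2; exact (Finset.mem_erase.1 hw2).1 rfl) (by
        rw [Finset.card_pair huv, Finset.card_erase_of_mem hj, hIc]; omega)
    obtain ⟨hlj, hlI⟩ := Finset.mem_erase.1 hl
    have h1 : (grp X h l).card ≤ Λ + cd u + cd v := by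
      have h2 : grp X h l ⊆ (X.filter (fun w => h w = l ∧ ∀ z ∈ ({u, v} : Finset V), ¬ G.Adj z w) ∪
          X.filter (fun w => h w ≠ h u ∧ G.Adj u w)) ∪ X.filter (fun w => h w ≠ h v ∧ G.Adj v w) := by
        intro w hw
        obtain ⟨hw1, hw2⟩ := mem_filter.1 hw
        by_cases h5 : G.Adj u w
        · refine mem_union_left _ (mem_union_right _ (mem_filter.2 ⟨hw1, ?_, h5⟩))
          rw [hw2, hu2]; exact hlj
        · by_cases h6 : G.Adj v w
          · refine mem_union_right _ (mem_filter.2 ⟨hw1, ?_, h6⟩)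
            rw [hw2, hv2]; exact hlj
          · refine mem_union_left _ (mem_union_left _ (mem_filter.2 ⟨hw1, hw2, ?_⟩))
            intro z hz
            rcases mem_insert.1 hz with rfl | hz
            · exact h5
            · rw [mem_singleton.1 hz]; exact h6
      have h3 := Finset.card_le_card h2
      have h4 := Finset.card_union_le (X.filter (fun w => h w = l ∧ ∀ z ∈ ({u, v} : Finset V), ¬ G.Adj z w) ∪
          X.filter (fun w => h w ≠ h u ∧ G.Adj u w)) (X.filter (fun w => h w ≠ h v ∧ G.Adj v w))
      have h5 := Finset.card_union_le (X.filter (fun w => h w = l ∧ ∀ z ∈ ({u, v} : Finset V), ¬ G.Adj z w))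
          (X.filter (fun w => h w ≠ h u ∧ G.Adj u w))
      have h6 : cd u = (X.filter (fun w => h w ≠ h u ∧ G.Adj u w)).card := rfl
      have h7 : cd v = (X.filter (fun w => h w ≠ h v ∧ G.Adj v w)).card := rfl
      omega
    have h2 := hgt l hlI
    omega
  set S : V → Finset V := fun z => I.filter (fun j => M * (non G z (K j)).card ≤ k) with hSd
  set L : V → Finset V := fun j => (K j).filter (fun u => M' * cd u ≤ k) with hL
  have hhz : ∀ z ∈ Z, h z ∈ S z := by
    intro z hz
    have hzX := (mem_filter.1 hz).1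
    refine mem_filter.2 ⟨hI z hzX, ?_⟩
    have h1 : (non G z (K (h z))).card ≤ ms G X h z := by
      refine Finset.card_le_card fun y hy => ?_
      obtain ⟨h1, h2⟩ := mem_filter.1 hy
      obtain ⟨h3, h4, -⟩ := hKm _ y h1
      refine mem_filter.2 ⟨h3, h4, ?_, h2⟩
      rintro rfl
      exact (mem_sdiff.1 h1).2 hz
    have h2 : ms G X h z ≤ ∑ x ∈ X, ms G X h x :=
      Finset.single_le_sum (f := fun x => ms G X h x) (fun _ _ => Nat.zero_le _) hzX
    calc M * (non G z (K (h z))).card ≤ M * (2 * Λ) := Nat.mul_le_mul_left _ (h1.trans (h2.trans hP1'))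
      _ = 2 * (M * Λ) := by ring
      _ ≤ k := hMΛ
  refine ⟨I, Z, K, L, S, ?_⟩
  have hKZ : ∀ j, Disjoint (K j) Z := fun j => Finset.sdiff_disjoint
  have hKKd : ∀ j l, j ≠ l → Disjoint (K j) (K l) := by
    intro j l hjl
    rw [Finset.disjoint_left]
    intro u hu hu'
    have h1 := (hKm j u hu).2.1
    have h2 := (hKm l u hu').2.1
    exact hjl (h1.symm.trans h2)
  have hCB : C * k ≤ (B0 + M' * C + C) * k := Nat.mul_le_mul_right _ (by omega)
  exact
    { cI := hIc
      cZ := by omega
      ZX := Finset.filter_subset _ _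
      KX := fun j _ u hu => (hKm j u hu).1
      KK := fun j _ l _ hjl => hKKd j l hjl
      KZ := fun j _ => hKZ j
      cX := by
        have h1 : ∑ j ∈ I, (K j).card = (X \ Z).card := by
          rw [Finset.card_eq_sum_card_fiberwise (s := X \ Z) (t := I) (f := h)
            (fun x hx => hI x (mem_sdiff.1 hx).1)]
          refine Finset.sum_congr rfl fun j _ => ?_
          congr 1
          ext u
          simp only [hK, grp, mem_sdiff, mem_filter]
          tauto
        have h2 := Finset.card_sdiff_add_card_eq_card (s := Z) (t := X) (Finset.filter_subset _ _)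
        omega
      clq := hclq
      LK := fun j _ => Finset.filter_subset _ _
      cL := by
        intro j _
        have h1 := Finset.card_filter_add_card_filter_not (s := K j) (fun u => M' * cd u ≤ k)
        have h2 : ((K j).filter (fun u => ¬ (M' * cd u ≤ k))).card ≤ M' * C := by
          refine le_trans (Finset.card_le_card fun u hu => ?_) (DT_markov (m := M') X cd hk0 hcd)
          obtain ⟨h3, h4⟩ := mem_filter.1 hu
          exact mem_filter.2 ⟨(hKm j u h3).1, by omega⟩
        simp only [hL]
        omega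
      SI := fun z _ => Finset.filter_subset _ _
      Sne := fun z hz => ⟨h z, hhz z hz⟩
      dg := by
        intro j hj
        by_contra hcon
        push Not at hcon
        set ZS := Z.filter (fun z => j ∈ S z) with hZS
        have hKk : (K j).card ≤ k := (Finset.card_le_card Finset.sdiff_subset).trans (hle j hj)
        obtain ⟨Z2, hZ2, hZ2c⟩ := Finset.exists_subset_card_eq (s := ZS) (n := k + 1 - (K j).card) (by omega)
        have hZ2Z : Z2 ⊆ Z := hZ2.trans (Finset.filter_subset _ _)
        have hdis : Disjoint (K j) Z2 := Finset.disjoint_of_subset_right hZ2Z (hKZ j)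
        have hFc : (K j ∪ Z2).card = k + 1 := by
          rw [Finset.card_union_of_disjoint hdis]; omega
        have h1 := hS (K j ∪ Z2) (Finset.union_subset (fun u hu => (hKm j u hu).1)
          (hZ2Z.trans (Finset.filter_subset _ _))) (by omega)
        have h2 := e2_add_m2 G (K j ∪ Z2)
        have h3 := DT_m2 G hdis (hclq j hj)
        rw [hFc] at h1 h2
        have h4 : M * ∑ z ∈ Z2, (non G z (K j)).card ≤ Z2.card * k := by
          rw [Finset.mul_sum, ← smul_eq_mul (Z2.card) k, ← Finset.sum_const]
          refine Finset.sum_le_sum fun z hz => ?_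
          exact (mem_filter.1 (mem_filter.1 (hZ2 hz)).2).2
        have h5 : Z2.card ≤ B0 := (Finset.card_le_card hZ2Z).trans hZc
        have h6 : Z2.card * k ≤ B0 * k := Nat.mul_le_mul_right _ h5
        have h7 : Z2.card * Z2.card ≤ B0 * B0 := Nat.mul_le_mul h5 h5
        have h8 : k ≤ m2 G (K j ∪ Z2) := by
          have : (k + 1) * (k + 1) = k * k + 2 * k + 1 := by ring
          omega
        have h9 : M * k ≤ 2 * (B0 * k) + M * (B0 * B0) := by
          calc M * k ≤ M * (2 * ∑ z ∈ Z2, (non G z (K j)).card + Z2.card * Z2.card) :=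
                Nat.mul_le_mul_left _ (h8.trans h3)
            _ = 2 * (M * ∑ z ∈ Z2, (non G z (K j)).card) + M * (Z2.card * Z2.card) := by ring
            _ ≤ 2 * (B0 * k) + M * (B0 * B0) := by
                have := Nat.mul_le_mul_left M h7
                omega
        have h10 : M * k = 2 * (B0 * k) + (2 * (B0 * k) + 4 * k) := by rw [hM]; ring
        have h11 : 0 ≤ B0 * k := Nat.zero_le _
        omega
      tr := by
        intro z hz
        rintro ⟨T, hT1, hT2⟩
        have hzX := (mem_filter.1 hz).1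
        have hTm : ∀ j ∈ S z, T j ∈ X ∧ h (T j) = j ∧ M' * cd (T j) ≤ k ∧ ¬ G.Adj z (T j) ∧ T j ≠ z := by
          intro j hj
          obtain ⟨h1, h2⟩ := mem_filter.1 (hT1 j hj)
          obtain ⟨h3, h4⟩ := mem_filter.1 h1
          obtain ⟨h5, h6, -⟩ := hKm j _ h3
          refine ⟨h5, h6, h4, h2, ?_⟩
          intro h7
          rw [h7] at h3
          exact (mem_sdiff.1 h3).2 hz
        have hinj : Set.InjOn T (S z : Set V) := by
          intro p hp q hq hpq
          rw [← (hTm p hp).2.1, ← (hTm q hq).2.1, hpq]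
        have hzT : z ∉ (S z).image T := by
          intro h1
          obtain ⟨j, hj, h2⟩ := mem_image.1 h1
          exact (hTm j hj).2.2.2.2 h2
        have hScI : (S z).card ≤ s := by
          rw [← hIc]; exact Finset.card_le_card (Finset.filter_subset _ _)
        obtain ⟨j, hj, hj2⟩ := hP2 (insert z ((S z).image T)) (by
            intro w hw
            rcases mem_insert.1 hw with rfl | hw
            · exact hzX
            · obtain ⟨j, hj, rfl⟩ := mem_image.1 hw
              exact (hTm j hj).1) (by
            intro p hp q hq hpq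
            rw [Finset.mem_coe] at hp hq
            rcases mem_insert.1 hp with rfl | hp <;> rcases mem_insert.1 hq with rfl | hq
            · exact absurd rfl hpq
            · obtain ⟨j, hj, rfl⟩ := mem_image.1 hq
              exact (hTm j hj).2.2.2.1
            · obtain ⟨j, hj, rfl⟩ := mem_image.1 hp
              exact fun h1 => (hTm j hj).2.2.2.1 h1.symm
            · obtain ⟨j, hj, rfl⟩ := mem_image.1 hp
              obtain ⟨l, hl, rfl⟩ := mem_image.1 hq
              refine hT2 j hj l hl ?_
              rintro rfl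
              exact hpq rfl) (I \ S z) Finset.sdiff_subset (by
            intro w hw hw2
            obtain ⟨h1, h2⟩ := mem_sdiff.1 hw2
            rcases mem_insert.1 hw with rfl | hw
            · exact h2 (hhz w hz)
            · obtain ⟨j, hj, rfl⟩ := mem_image.1 hw
              rw [(hTm j hj).2.1] at h2
              exact h2 hj) (by
            rw [Finset.card_insert_of_notMem hzT, Finset.card_image_of_injOn hinj]
            have h1 := Finset.card_sdiff_add_card_eq_card (s := S z) (t := I) (Finset.filter_subset _ _)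
            omega)
        obtain ⟨hjI, hjS⟩ := mem_sdiff.1 hj
        refine hjS (mem_filter.2 ⟨hjI, ?_⟩)
        have h1 : (non G z (K j)).card ≤ Λ + ∑ i ∈ S z, cd (T i) := by
          have h2 : non G z (K j) ⊆ X.filter (fun u => h u = j ∧ ∀ w ∈ insert z ((S z).image T), ¬ G.Adj w u) ∪
              (S z).biUnion (fun i => X.filter (fun u => h u ≠ h (T i) ∧ G.Adj (T i) u)) := by
            intro u hu
            obtain ⟨hu1, hu2⟩ := mem_filter.1 hu
            obtain ⟨hu3, hu4, -⟩ := hKm j u hu1
            by_cases h5 : ∃ i ∈ S z, G.Adj (T i) u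
            · obtain ⟨i, hi, h6⟩ := h5
              refine mem_union_right _ (mem_biUnion.2 ⟨i, hi, mem_filter.2 ⟨hu3, ?_, h6⟩⟩)
              rw [hu4, (hTm i hi).2.1]
              rintro rfl
              exact hjS hi
            · refine mem_union_left _ (mem_filter.2 ⟨hu3, hu4, ?_⟩)
              intro w hw
              rcases mem_insert.1 hw with rfl | hw
              · exact hu2
              · obtain ⟨i, hi, rfl⟩ := mem_image.1 hw
                exact fun h6 => h5 ⟨i, hi, h6⟩
          refine (Finset.card_le_card h2).trans ((Finset.card_union_le _ _).trans ?_)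
          exact Nat.add_le_add hj2 Finset.card_biUnion_le
        have h2 : M' * ∑ i ∈ S z, cd (T i) ≤ s * k := by
          rw [Finset.mul_sum]
          calc ∑ i ∈ S z, M' * cd (T i) ≤ ∑ i ∈ S z, k := Finset.sum_le_sum fun i hi => (hTm i hi).2.2.1
            _ = (S z).card * k := by rw [Finset.sum_const, smul_eq_mul]
            _ ≤ s * k := Nat.mul_le_mul_right _ hScI
        have h3 : 2 * (M * ∑ i ∈ S z, cd (T i)) ≤ k := by
          refine le_of_mul_le_mul_left ?_ (show 0 < s by omega)
          calc s * (2 * (M * ∑ i ∈ S z, cd (T i))) = M' * ∑ i ∈ S z, cd (T i) := by rw [hM']; ring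
            _ ≤ s * k := h2
        have h4 : M * (non G z (K j)).card ≤ M * Λ + M * ∑ i ∈ S z, cd (T i) := by
          rw [← mul_add]; exact Nat.mul_le_mul_left _ h1
        omega
      xek := by
        have h1 : xe G I K ≤ ∑ v ∈ X, cd v := by
          unfold xe
          calc ∑ j ∈ I, ∑ l ∈ I.erase j, ∑ u ∈ K j, ((K l).filter (G.Adj u)).card
              = ∑ j ∈ I, ∑ u ∈ K j, ∑ l ∈ I.erase j, ((K l).filter (G.Adj u)).card :=
                Finset.sum_congr rfl fun j _ => Finset.sum_comm
            _ ≤ ∑ j ∈ I, ∑ u ∈ K j, cd u := by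
                refine Finset.sum_le_sum fun j _ => Finset.sum_le_sum fun u hu => ?_
                obtain ⟨hu1, hu2, -⟩ := hKm j u hu
                rw [← Finset.card_biUnion]
                · refine Finset.card_le_card fun v hv => ?_
                  obtain ⟨l, hl, hv2⟩ := mem_biUnion.1 hv
                  obtain ⟨hv3, hv4⟩ := mem_filter.1 hv2
                  obtain ⟨hv5, hv6, -⟩ := hKm l v hv3
                  refine mem_filter.2 ⟨hv5, ?_, hv4⟩
                  rw [hv6, hu2]
                  exact (Finset.mem_erase.1 hl).1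
                · intro l _ l' _ hll
                  exact Finset.disjoint_filter_filter (hKKd l l' hll)
            _ = ∑ u ∈ I.biUnion K, cd u :=
                (Finset.sum_biUnion fun j _ l _ hjl => hKKd j l hjl).symm
            _ ≤ ∑ v ∈ X, cd v := by
                refine Finset.sum_le_sum_of_subset fun u hu => ?_
                obtain ⟨j, _, hu2⟩ := mem_biUnion.1 hu
                exact (hKm j u hu2).1
        exact h1.trans (hcd.trans hCB) }

end Pool.Agent.LHA
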