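import Pool.Agent.LHA.St

/-!
# LHA.EC: counting edges in a union of cliques and outside vertices (MP_303581_co)
-/

set_option autoImplicit false

open Finset

namespace Pool.Agent.LHA

open Pool.Agent.TwoDens

theorem thm_EC : St_EC := by
  intro V _ G _ R Z K S N hK hKZ hc hS hint hN
  classical
  set U := R.biUnion K with hU
  have hd : Disjoint U Z := by
    rw [hU, Finset.disjoint_biUnion_left]
    exact hKZ
  have hKd : (R : Set V).PairwiseDisjoint K := by
    intro j hj l hl hjl
    exact hK j hj l hl hjl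
  -- neighbours in `U`
  have hcU : ∀ x : V, (U.filter (G.Adj x)).card = ∑ j ∈ R, ((K j).filter (G.Adj x)).card := by
    intro x
    rw [hU, Finset.filter_biUnion, Finset.card_biUnion]
    intro j hj l hl hjl
    exact Finset.disjoint_filter_filter (hK j hj l hl hjl)
  have hcF : ∀ x : V, ((U ∪ Z).filter (G.Adj x)).card =
      (U.filter (G.Adj x)).card + (Z.filter (G.Adj x)).card := by
    intro x
    rw [Finset.filter_union, Finset.card_union_of_disjoint (Finset.disjoint_filter_filter hd)]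
  have he : e2 G (U ∪ Z) = ∑ x ∈ U, (U.filter (G.Adj x)).card + ∑ x ∈ U, (Z.filter (G.Adj x)).card +
      (∑ z ∈ Z, (U.filter (G.Adj z)).card + ∑ z ∈ Z, (Z.filter (G.Adj z)).card) := by
    unfold e2
    rw [Finset.sum_union hd]
    simp only [hcF, Finset.sum_add_distrib]
  -- the edges between `U` and `Z`
  have hUZ : ∑ x ∈ U, (Z.filter (G.Adj x)).card = ∑ z ∈ Z, (U.filter (G.Adj z)).card := by
    simp only [Finset.card_filter]
    rw [Finset.sum_comm]
    refine Finset.sum_congr rfl fun z _ => Finset.sum_congr rfl fun x _ => ?_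
    simp only [G.adj_comm z x]
  have hz : ∑ z ∈ Z, ∑ j ∈ S z, ((K j).filter (G.Adj z)).card ≤ ∑ z ∈ Z, (U.filter (G.Adj z)).card := by
    refine Finset.sum_le_sum fun z hz => ?_
    rw [hcU]
    exact Finset.sum_le_sum_of_subset (hS z hz)
  -- the edges in `U`
  have hUU : ∑ x ∈ U, (U.filter (G.Adj x)).card =
      ∑ j ∈ R, ∑ l ∈ R, ∑ x ∈ K j, ((K l).filter (G.Adj x)).card := by
    rw [hU, Finset.sum_biUnion hKd]
    refine Finset.sum_congr rfl fun j _ => ?_
    rw [Finset.sum_comm]
    refine Finset.sum_congr rfl fun x _ => ?_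
    rw [← hU, hcU]
  have hjj : ∀ j ∈ R, ∑ x ∈ K j, ((K j).filter (G.Adj x)).card = (K j).card * ((K j).card - 1) := by
    intro j hj
    have : ∀ x ∈ K j, ((K j).filter (G.Adj x)).card = (K j).card - 1 := by
      intro x hx
      have e : (K j).filter (G.Adj x) = (K j).erase x := by
        ext y
        simp only [Finset.mem_filter, Finset.mem_erase]
        constructor
        · rintro ⟨h1, h2⟩
          exact ⟨fun h => G.ne_of_adj h2 h.symm, h1⟩
        · rintro ⟨h1, h2⟩
          exact ⟨h2, hc j hj x hx y h2 (Ne.symm h1)⟩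
      rw [e, Finset.card_erase_of_mem hx]
    rw [Finset.sum_congr rfl this, Finset.sum_const, smul_eq_mul]
  have hsp : ∑ j ∈ R, ∑ l ∈ R, ∑ x ∈ K j, ((K l).filter (G.Adj x)).card =
      ∑ j ∈ R, (K j).card * ((K j).card - 1) +
        ∑ j ∈ R, ∑ l ∈ R.erase j, ∑ x ∈ K j, ((K l).filter (G.Adj x)).card := by
    rw [← Finset.sum_add_distrib]
    refine Finset.sum_congr rfl fun j hj => ?_
    rw [← Finset.add_sum_erase R _ hj, hjj j hj]
  have hxe : ∑ z ∈ Z, xe G (S z) (N z) ≤
      ∑ j ∈ R, ∑ l ∈ R.erase j, ∑ x ∈ K j, ((K l).filter (G.Adj x)).card := by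
    have h1 : ∑ z ∈ Z, xe G (S z) (N z) ≤ ∑ z ∈ Z, ∑ j ∈ R, ∑ l ∈ R.erase j,
        (if j ∈ S z ∧ l ∈ S z then ∑ x ∈ K j, ((K l).filter (G.Adj x)).card else 0) := by
      refine Finset.sum_le_sum fun z hz => ?_
      unfold xe
      have h2 : ∑ j ∈ S z, ∑ l ∈ (S z).erase j, ∑ u ∈ N z j, ((N z l).filter (G.Adj u)).card ≤
          ∑ j ∈ S z, ∑ l ∈ R.erase j,
          (if j ∈ S z ∧ l ∈ S z then ∑ x ∈ K j, ((K l).filter (G.Adj x)).card else 0) := by
        refine Finset.sum_le_sum fun j hj => ?_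
        have h3 : ∑ l ∈ (S z).erase j, ∑ u ∈ N z j, ((N z l).filter (G.Adj u)).card ≤
            ∑ l ∈ (S z).erase j,
            (if j ∈ S z ∧ l ∈ S z then ∑ x ∈ K j, ((K l).filter (G.Adj x)).card else 0) := by
          refine Finset.sum_le_sum fun l hl => ?_
          have hl' := Finset.mem_of_mem_erase hl
          rw [if_pos ⟨hj, hl'⟩]
          refine le_trans (Finset.sum_le_sum_of_subset (hN z hz j hj)) ?_
          exact Finset.sum_le_sum fun x _ =>
            Finset.card_le_card (Finset.filter_subset_filter _ (hN z hz l hl'))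
        exact h3.trans (Finset.sum_le_sum_of_subset (Finset.erase_subset_erase j (hS z hz)))
      exact h2.trans (Finset.sum_le_sum_of_subset (hS z hz))
    refine h1.trans ?_
    rw [Finset.sum_comm]
    refine Finset.sum_le_sum fun j hj => ?_
    rw [Finset.sum_comm]
    refine Finset.sum_le_sum fun l hl => ?_
    rw [← Finset.sum_filter, Finset.sum_const, smul_eq_mul]
    have h4 : (Z.filter fun z => j ∈ S z ∧ l ∈ S z).card ≤ 1 := by
      rw [Finset.card_le_one]
      intro z hz z' hz'
      rw [Finset.mem_filter] at hz hz'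
      by_contra hne
      exact (Finset.ne_of_mem_erase hl)
        (hint z hz.1 z' hz'.1 hne j hz.2.1 hz'.2.1 l hz.2.2 hz'.2.2).symm
    calc _ ≤ 1 * ∑ x ∈ K j, ((K l).filter (G.Adj x)).card := Nat.mul_le_mul_right _ h4
      _ = _ := one_mul _
  rw [he, hUU, hsp, hUZ]
  omega

end Pool.Agent.LHA
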