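import Pool.Agent.LHA.FA

/-!
# Campaign LHA (MP_303581_co): the lower bound for the smaller half of the residues
-/

set_option autoImplicit false

open Finset

namespace Pool.Agent.LHA

open Pool.Agent.TwoDens

theorem non_mono {V : Type} [DecidableEq V] (G : SimpleGraph V) [DecidableRel G.Adj] (z : V) {K L : Finset V}
    (h : L ⊆ K) : non G z L ⊆ non G z K :=
  Finset.filter_subset_filter _ h

theorem non_card_le {V : Type} [DecidableEq V] (G : SimpleGraph V) [DecidableRel G.Adj] (z : V) {K L : Finset V} {B : ℕ}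
    (h : L ⊆ K) (hc : K.card ≤ L.card + B) : (non G z K).card ≤ (non G z L).card + B := by
  have h1 : non G z K ⊆ non G z L ∪ (K \ L) := by
    intro u hu
    unfold non at hu ⊢
    rw [mem_filter] at hu
    rw [mem_union, mem_filter, mem_sdiff]
    by_cases hL : u ∈ L
    · exact Or.inl ⟨hL, hu.2⟩
    · exact Or.inr ⟨hu.1, hL⟩
  have h2 := (Finset.card_le_card h1).trans (Finset.card_union_le _ _)
  have h3 := Finset.card_sdiff_add_card_eq_card h
  omega

theorem xe_mono {V : Type} [DecidableEq V] (G : SimpleGraph V) [DecidableRel G.Adj] {I J : Finset V}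
    {K N : V → Finset V} (hJ : J ⊆ I) (hN : ∀ j ∈ J, N j ⊆ K j) : xe G J N ≤ xe G I K := by
  unfold xe
  refine (Finset.sum_le_sum fun j hj => ?_).trans (Finset.sum_le_sum_of_subset hJ)
  refine (Finset.sum_le_sum fun l hl => ?_).trans
    (Finset.sum_le_sum_of_subset (Finset.erase_subset_erase _ hJ))
  refine (Finset.sum_le_sum fun u hu => ?_).trans (Finset.sum_le_sum_of_subset (hN j hj))
  exact Finset.card_le_card (Finset.filter_subset_filter _ (hN l (mem_of_mem_erase hl)))

/-- the sets for one vertex `z` -/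
theorem one_z (hTV : St_TV) (hLG : St_LG) {V : Type} [DecidableEq V] (G : SimpleGraph V) [DecidableRel G.Adj]
    {k s B c m D θ τ : ℕ} {X I Z : Finset V} {K L S S1 : V → Finset V} (hLD : LD G k s B X I Z K L S)
    (hc : 1 ≤ c) (hm : 1 ≤ m) (hkc : k ≤ 2 * (c * c)) (hD : D = m * (2 * B + 1) + s + B)
    (hθ : θ = D * c) (hτ : τ = c / m)
    (hS1 : ∀ z, S1 z = (S z).filter (fun j => (non G z (K j)).card ≤ θ)) {z : V} (hz : z ∈ Z) :
    (S1 z).Nonempty ∧ ∃ N : V → Finset V, (∀ j ∈ S1 z, N j ⊆ non G z (K j) ∧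
      (non G z (K j)).card ≤ (N j).card + (B + s * τ)) ∧ ¬ TRV G (S1 z) N := by
  classical
  have hSI := hLD.SI z hz
  have hbig : ∀ j ∈ S z, j ∉ S1 z → (m * (2 * B + 1) + s) * c + 1 ≤ (non G z (L j)).card := by
    intro j hj hj1
    have h1 : θ < (non G z (K j)).card := by
      by_contra hcon
      push Not at hcon
      rw [hS1] at hj1
      exact hj1 (mem_filter.2 ⟨hj, hcon⟩)
    have h2 := non_card_le G z (hLD.LK j (hSI hj)) (hLD.cL j (hSI hj))
    have h3 : θ = (m * (2 * B + 1) + s) * c + B * c := by rw [hθ, hD]; ring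
    have h4 : B * 1 ≤ B * c := Nat.mul_le_mul_left _ hc
    omega
  have hxe : xe G (S z) (fun j => non G z (L j)) ≤ B * k := by
    refine (xe_mono G hSI fun j hj => ?_).trans hLD.xek
    exact (Finset.filter_subset _ _).trans (hLD.LK j (hSI hj))
  have hE : B * k ≤ 2 * B * (c * c) := by
    have := Nat.mul_le_mul_left B hkc
    calc B * k ≤ B * (2 * (c * c)) := this
      _ = _ := by ring
  refine ⟨?_, ?_⟩
  · -- nonempty
    by_contra hne
    rw [Finset.not_nonempty_iff_eq_empty] at hne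
    have hall : ∀ j ∈ S z, (2 * B + 1) * c + 1 ≤ (non G z (L j)).card := by
      intro j hj
      have h1 := hbig j hj (by rw [hne]; exact Finset.notMem_empty _)
      have h2 : 1 * (2 * B + 1) ≤ m * (2 * B + 1) := Nat.mul_le_mul_right _ hm
      have h3 : (2 * B + 1) * c ≤ (m * (2 * B + 1) + s) * c := Nat.mul_le_mul_right _ (by omega)
      omega
    rcases hTV V V G (S z) (fun j => non G z (L j)) (hLD.Sne z hz) (hLD.tr z hz) with
      ⟨j, hj, hj'⟩ | ⟨j, hj, l, hl, hjl, h⟩
    · have h1 := hall j (by rw [hj]; exact mem_singleton_self j)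
      rw [hj'] at h1
      simp at h1
    · have h1 := hall j hj
      have h2 := hall l hl
      have h3 : ((2 * B + 1) * c) * ((2 * B + 1) * c) ≤
          (non G z (L j)).card * (non G z (L l)).card := Nat.mul_le_mul (by omega) (by omega)
      have h4 : 2 * (((2 * B + 1) * c) * ((2 * B + 1) * c)) ≤ 2 * B * (c * c) := by
        have h5 : 2 * (((non G z (L j)).card) * ((non G z (L l)).card)) ≤ B * k := h.trans hxe
        omega
      have h5 : 0 < c * c := Nat.mul_pos hc hc
      nlinarith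
  · have hJ : S1 z ∪ (S z \ S1 z) = S z := by
      apply Finset.union_sdiff_of_subset
      rw [hS1]
      exact Finset.filter_subset _ _
    have hdisj : ∀ j ∈ S z, ∀ l ∈ S z, j ≠ l → Disjoint (non G z (L j)) (non G z (L l)) := by
      intro j hj l hl hjl
      have h1 := hLD.KK j (hSI hj) l (hSI hl) hjl
      refine Finset.disjoint_of_subset_left ((Finset.filter_subset _ _).trans (hLD.LK j (hSI hj))) ?_
      exact Finset.disjoint_of_subset_right ((Finset.filter_subset _ _).trans (hLD.LK l (hSI hl))) h1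
    have hmτ : c < m * (τ + 1) := by
      rw [hτ]
      have := Nat.lt_mul_div_succ c hm
      simpa [Nat.succ_eq_add_one] using this
    have hτc : τ ≤ c := by rw [hτ]; exact Nat.div_le_self _ _
    have hJc : (S z \ S1 z).card ≤ s := by
      refine (Finset.card_le_card Finset.sdiff_subset).trans ?_
      have := Finset.card_le_card hSI
      rw [hLD.cI] at this
      exact this
    obtain ⟨N, hN1, hN2⟩ := hLG V V G (S1 z) (S z \ S1 z) (fun j => non G z (L j)) (B * k) τ
      Finset.disjoint_sdiff (by rw [hJ]; exact hdisj) (by rw [hJ]; exact hLD.tr z hz) (by rw [hJ]; exact hxe)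
      (by
        intro q hq
        rw [mem_sdiff] at hq
        have h1 := hbig q hq.1 hq.2
        have h2 : ((m * (2 * B + 1) + s) * c + 1) * (τ + 1) ≤ (non G z (L q)).card * (τ + 1) :=
          Nat.mul_le_mul_right _ h1
        have h3 : (S z \ S1 z).card * τ * (τ + 1) ≤ s * τ * (τ + 1) :=
          Nat.mul_le_mul_right _ (Nat.mul_le_mul_right _ hJc)
        have h4 : s * τ * (τ + 1) ≤ s * c * (τ + 1) :=
          Nat.mul_le_mul_right _ (Nat.mul_le_mul_left _ hτc)
        have h5 : (2 * B + 1) * c * c ≤ (2 * B + 1) * c * (m * (τ + 1)) :=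
          Nat.mul_le_mul_left _ hmτ.le
        have h6 : ((m * (2 * B + 1) + s) * c + 1) * (τ + 1) =
          (2 * B + 1) * c * (m * (τ + 1)) + s * c * (τ + 1) + (τ + 1) := by ring
        have h7 : (2 * B + 1) * c * c = 2 * B * (c * c) + c * c := by ring
        have h8 : 0 ≤ c * c := Nat.zero_le _
        show B * k + (S z \ S1 z).card * τ * (τ + 1) < (non G z (L q)).card * (τ + 1)
        omega)
    refine ⟨N, ?_, hN2⟩
    intro j hj
    have hjS : j ∈ S z := by
      rw [hS1] at hj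
      exact (mem_filter.1 hj).1
    obtain ⟨h1, h2⟩ := hN1 j hj
    refine ⟨h1.trans (non_mono G z (hLD.LK j (hSI hjS))), ?_⟩
    have h3 := non_card_le G z (hLD.LK j (hSI hjS)) (hLD.cL j (hSI hjS))
    have h4 : (S z \ S1 z).card * τ ≤ s * τ := Nat.mul_le_mul_right _ hJc
    omega

/-- the same without loss if no set is large -/
theorem one_z' {V : Type} [DecidableEq V] (G : SimpleGraph V) [DecidableRel G.Adj]
    {k s B : ℕ} {X I Z : Finset V} {K L S : V → Finset V} (hLD : LD G k s B X I Z K L S) {z : V} (hz : z ∈ Z) :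
    ∃ N : V → Finset V, (∀ j ∈ S z, N j ⊆ non G z (K j) ∧
      (non G z (K j)).card ≤ (N j).card + B) ∧ ¬ TRV G (S z) N :=
  ⟨fun j => non G z (L j), fun j hj => ⟨non_mono G z (hLD.LK j (hLD.SI z hz hj)),
    non_card_le G z (hLD.LK j (hLD.SI z hz hj)) (hLD.cL j (hLD.SI z hz hj))⟩, hLD.tr z hz⟩

theorem low_core (hTR : St_TR) (hSU : St_SU) (hTV : St_TV) (hLG : St_LG) (hEC : St_EC) (hM2 : St_M2)
    {V : Type} [DecidableEq V] (G : SimpleGraph V) [DecidableRel G.Adj]
    {k s t p B c m D C1 : ℕ} {X I Z : Finset V} {K L S : V → Finset V} (hLD : LD G k s B X I Z K L S)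
    (hp : 1 ≤ p) (hst : (p + 2) * t < (p + 1) * s) (hX : X.card + t = k * s) (hk : 3 ≤ k)
    (hpk : p * k ≤ 2 * (c * c)) (hm : m = 4 * (B + 1) * (s + 1) * p) (hD : D = m * (2 * B + 1) + s + B)
    (hC1 : C1 = (p + 1) * (B * B + 2 * (B * D)) + 1) (hc : p * C1 < c)
    (hHa : Ha G k (c + (2 * (B * B) + C1)) X) : False := by
  classical
  have hc1 : 1 ≤ c := by omega
  have hm1 : 1 ≤ m := by
    rw [hm]
    exact Nat.mul_pos (by positivity) hp
  have hkc : k ≤ 2 * (c * c) := by
    have : 1 * k ≤ p * k := Nat.mul_le_mul_right _ hp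
    omega
  have hKle : ∀ j ∈ I, (K j).card ≤ k := fun j hj => by
    have := hLD.dg j hj
    omega
  -- first tree
  have hysum : ∑ j ∈ I, (k - (K j).card) = t + Z.card := by
    have h1 : ∑ j ∈ I, ((k - (K j).card) + (K j).card) = ∑ j ∈ I, k :=
      Finset.sum_congr rfl fun j hj => by have := hKle j hj; omega
    rw [Finset.sum_add_distrib, Finset.sum_const, smul_eq_mul, hLD.cI, mul_comm s k] at h1
    have h2 := hLD.cX
    omega
  obtain ⟨R, j0, par, hRI, hRp, hRdeg, hT, hRsum⟩ := hTR V V I Z S (fun j => k - (K j).card) t p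
    hLD.SI hLD.Sne (fun j hj => by have := hLD.dg j hj; omega) hysum (by rw [hLD.cI]; exact hst)
  set Zc := Z.filter (fun z => ∃ j ∈ R, j ∈ S z) with hZc
  have hZcZ : Zc ⊆ Z := Finset.filter_subset _ _
  have hRpos : 1 ≤ R.card := Finset.card_pos.2 ⟨j0, hT.root⟩
  set θ := D * c with hθ
  set τ := c / m with hτ
  set S1 : V → Finset V := fun z => (S z).filter (fun j => (non G z (K j)).card ≤ θ) with hS1
  have hS1S : ∀ z, S1 z ⊆ S z := fun z => Finset.filter_subset _ _
  have hone := fun z (hz : z ∈ Z) => one_z hTV hLG G (θ := θ) (τ := τ) (S1 := S1) hLD hc1 hm1 hkc hD hθ hτ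
    (fun _ => rfl) hz
  have hRy : ∀ j ∈ R, (Zc.filter (fun z => j ∈ S1 z)).card ≤ k - (K j).card := by
    intro j hj
    rw [← hRdeg j hj]
    refine Finset.card_le_card ?_
    intro z hz
    rw [mem_filter] at hz ⊢
    exact ⟨hZcZ hz.1, hS1S z hz.2⟩
  obtain ⟨R1, j1, par1, hR1R, hR1c, hR1deg, hT1, hR1sum⟩ := hTR V V R Zc S1 (fun j => k - (K j).card)
    (R.card - 1) (R.card - 1) (fun z hz => (hS1S z).trans (hT.sub z hz)) (fun z hz => (hone z (hZcZ hz)).1)
    hRy (by omega) (by
      obtain ⟨n, hn⟩ : ∃ n, R.card = n + 1 := ⟨R.card - 1, by omega⟩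
      rw [hn]
      simp only [Nat.add_sub_cancel]
      nlinarith)
  set Z1 := Zc.filter (fun z => ∃ j ∈ R1, j ∈ S1 z) with hZ1
  have hZ1c : Z1 ⊆ Zc := Finset.filter_subset _ _
  have hZ1Z : Z1 ⊆ Z := hZ1c.trans hZcZ
  have hR1I : R1 ⊆ I := hR1R.trans hRI
  have hfil : ∀ j ∈ R1, Z1.filter (fun z => j ∈ S1 z) = Zc.filter (fun z => j ∈ S1 z) := by
    intro j hj
    ext z
    simp only [hZ1, mem_filter]
    constructor
    · rintro ⟨⟨h1, _⟩, h2⟩
      exact ⟨h1, h2⟩
    · rintro ⟨h1, h2⟩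
      exact ⟨⟨h1, j, hj, h2⟩, h2⟩
  have hR1deg' : ∀ j ∈ R1, (K j).card + (Z1.filter (fun z => j ∈ S1 z)).card = k := by
    intro j hj
    rw [hfil j hj, hR1deg j hj]
    have := hKle j (hR1I hj)
    omega
  have hcnt : ∑ j ∈ R1, (Z1.filter (fun z => j ∈ S1 z)).card + 1 = R1.card + Z1.card := by
    rw [← hR1sum]
    congr 1
    exact Finset.sum_congr rfl fun j hj => by rw [hfil j hj, hR1deg j hj]
  have hR1p : R1.card ≤ p + 1 := by
    have := Finset.card_le_card hR1R
    omega
  have hR1pos : 1 ≤ R1.card := Finset.card_pos.2 ⟨j1, hT1.root⟩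
  -- the last term
  have hlast : R1.card * (B * B + 2 * (B * θ)) < C1 * c := by
    have h1 : B * B + 2 * (B * θ) ≤ (B * B + 2 * (B * D)) * c := by
      have e1 : 2 * (B * θ) = 2 * (B * D) * c := by rw [hθ]; ring
      have e2 : B * B * 1 ≤ B * B * c := Nat.mul_le_mul_left _ hc1
      rw [e1, add_mul]
      omega
    have h2 : R1.card * (B * B + 2 * (B * θ)) ≤ (p + 1) * ((B * B + 2 * (B * D)) * c) :=
      Nat.mul_le_mul hR1p h1
    have h3 : C1 * c = (p + 1) * ((B * B + 2 * (B * D)) * c) + c := by rw [hC1]; ring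
    omega
  -- the sets
  by_cases hcase : R1.card = R.card
  · -- no loss
    have hRR : R1 = R := Finset.eq_of_subset_of_card_le hR1R hcase.ge
    have hSS : ∀ z ∈ Zc, S1 z = S z := by
      intro z hz
      refine Finset.Subset.antisymm (hS1S z) ?_
      intro j hj
      have hjR : j ∈ R := hT.sub z hz hj
      have h1 : Zc.filter (fun z => j ∈ S1 z) = Z.filter (fun z => j ∈ S z) := by
        refine Finset.eq_of_subset_of_card_le ?_ ?_
        · intro x hx
          rw [mem_filter] at hx ⊢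
          exact ⟨hZcZ hx.1, hS1S x hx.2⟩
        · rw [hRdeg j hjR, hR1deg j (by rw [hRR]; exact hjR)]
      have h2 : z ∈ Z.filter (fun z => j ∈ S z) := mem_filter.2 ⟨hZcZ hz, hj⟩
      rw [← h1] at h2
      exact (mem_filter.1 h2).2
    have hex := fun z (hz : z ∈ Z1) => one_z' G hLD (hZ1Z hz)
    choose! N hN1 hN2 using hex
    have hfin := fin_ineq hSU hTV hEC hM2 G (B := B) (loss := B) (θ := θ) (A := c + C1) (N := N) hk hHa hT1
      (fun j hj => hLD.KX j (hR1I hj)) (hZ1Z.trans hLD.ZX)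
      (fun j hj l hl hjl => hLD.KK j (hR1I hj) l (hR1I hl) hjl)
      (fun j hj => Finset.disjoint_of_subset_right hZ1Z (hLD.KZ j (hR1I hj)))
      (fun j hj => hLD.clq j (hR1I hj)) hR1deg' hcnt
      (fun z hz j hj => hN1 z hz j (hS1S z hj))
      (fun z hz => by rw [hSS z (hZ1c hz)]; exact hN2 z hz)
      (fun z _ j hj => (mem_filter.1 hj).2)
      ((Finset.card_le_card hZ1Z).trans hLD.cZ) (by ring)
    have h1 : (k - 1) * (R1.card - 1) ≤ k * p := Nat.mul_le_mul (by omega) (by omega)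
    have h2 : k * p = p * k := Nat.mul_comm _ _
    have h3 : 2 * ((c + C1) * (c + C1)) = 2 * (c * c) + 4 * (C1 * c) + 2 * (C1 * C1) := by ring
    omega
  · -- loss
    have hlt : R1.card < R.card := lt_of_le_of_ne (Finset.card_le_card hR1R) hcase
    have hex := fun z (hz : z ∈ Z1) => (hone z (hZ1Z hz)).2
    choose! N hN1 hN2 using hex
    have hτm : m * τ ≤ c := Nat.mul_div_le c m
    have hBs : 4 * p * (B * (s * τ)) ≤ c := by
      have h1 : 4 * p * (B * (s * τ)) = (4 * p * B * s) * τ := by ring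
      have h2 : 4 * p * B * s ≤ m := by
        rw [hm]
        calc 4 * p * B * s = 4 * B * s * p := by ring
          _ ≤ 4 * (B + 1) * (s + 1) * p := by gcongr <;> omega
      rw [h1]
      exact (Nat.mul_le_mul_right _ h2).trans hτm
    have hBs' : B * (s * τ) ≤ c := by
      have : 1 * (B * (s * τ)) ≤ 4 * p * (B * (s * τ)) := Nat.mul_le_mul_right _ (by omega)
      omega
    have hfin := fin_ineq hSU hTV hEC hM2 G (B := B) (loss := B + s * τ) (θ := θ)
      (A := c + C1 - B * (s * τ)) (N := N) hk hHa hT1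
      (fun j hj => hLD.KX j (hR1I hj)) (hZ1Z.trans hLD.ZX)
      (fun j hj l hl hjl => hLD.KK j (hR1I hj) l (hR1I hl) hjl)
      (fun j hj => Finset.disjoint_of_subset_right hZ1Z (hLD.KZ j (hR1I hj)))
      (fun j hj => hLD.clq j (hR1I hj)) hR1deg' hcnt
      (fun z hz j hj => hN1 z hz j hj)
      hN2
      (fun z _ j hj => (mem_filter.1 hj).2)
      ((Finset.card_le_card hZ1Z).trans hLD.cZ) (by
        have : B * (B + s * τ) = B * B + B * (s * τ) := by ring
        omega)
    set A := c + C1 - B * (s * τ) with hA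
    have hA1 : c ≤ A + B * (s * τ) := by omega
    have hA2 : (4 * p - 1) * c ≤ 4 * p * A := by
      have h1 : 4 * p * c ≤ 4 * p * (A + B * (s * τ)) := Nat.mul_le_mul_left _ hA1
      have h2 : 4 * p * (A + B * (s * τ)) = 4 * p * A + 4 * p * (B * (s * τ)) := by ring
      have h3 : (4 * p - 1) * c + c = 4 * p * c := by
        have : 4 * p - 1 + 1 = 4 * p := by omega
        calc (4 * p - 1) * c + c = (4 * p - 1 + 1) * c := by ring
          _ = _ := by rw [this]
      omega
    have h1 : (k - 1) * (R1.card - 1) ≤ k * (p - 1) := Nat.mul_le_mul (by omega) (by omega)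
    obtain ⟨e, he⟩ : ∃ e, p = e + 1 := ⟨p - 1, by omega⟩
    have hAA : 2 * (A * A) ≤ k * (p - 1) + C1 * c := by omega
    have h4p : 4 * p - 1 = 4 * e + 3 := by omega
    have hp1 : p - 1 = e := by omega
    rw [h4p] at hA2
    rw [hp1] at hAA
    have hsq : ((4 * e + 3) * c) * ((4 * e + 3) * c) ≤ (4 * p * A) * (4 * p * A) :=
      Nat.mul_le_mul hA2 hA2
    have h5 : 16 * (p * p) * (2 * (A * A)) ≤ 16 * (p * p) * (k * e + C1 * c) := Nat.mul_le_mul_left _ hAA
    have h6 : 16 * p * e * (p * k) ≤ 16 * p * e * (2 * (c * c)) := Nat.mul_le_mul_left _ hpk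
    have h7 : p * C1 * c < c * c := Nat.mul_lt_mul_of_pos_right hc hc1
    subst he
    have h8 : 16 * (e + 1) * ((e + 1) * C1 * c) < 16 * (e + 1) * (c * c) :=
      Nat.mul_lt_mul_of_pos_left h7 (by omega)
    nlinarith

/-- the lower bound -/
theorem thm_LOW (hTR : St_TR) (hSU : St_SU) (hTV : St_TV) (hLG : St_LG) (hEC : St_EC) (hDT : St_DT)
    (hM2 : St_M2) : St_LOW := by
  intro s t p hp hs hst
  obtain ⟨B, K1, hB⟩ := hDT s t hs
  set m := 4 * (B + 1) * (s + 1) * p with hm
  set D := m * (2 * B + 1) + s + B with hD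
  set C1 := (p + 1) * (B * B + 2 * (B * D)) + 1 with hC1
  refine ⟨2 * (B * B) + C1, K1 + 3 + 2 * ((p * C1) * (p * C1)) + 1, ?_⟩
  intro k hk c hpk _ V _ G _ X hS hal hX hHa
  obtain ⟨I, Z, K, L, S, hLD⟩ := hB k (by omega) V G X hS hal hX
  have hc : p * C1 < c := by
    by_contra hcon
    push Not at hcon
    have h1 : c * c ≤ (p * C1) * (p * C1) := Nat.mul_le_mul hcon hcon
    have h2 : 1 * k ≤ p * k := Nat.mul_le_mul_right _ hp
    omega
  exact low_core hTR hSU hTV hLG hEC hM2 G hLD hp hst hX (by omega) hpk hm hD hC1 hc hHa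

end Pool.Agent.LHA
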