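import Pool.Agent.LHA.St

/-!
# Campaign LHA, module LG: large sets can be left out
-/

set_option autoImplicit false

open Finset

namespace Pool.Agent.LHA

open Pool.Agent.TwoDens

theorem thm_LG : St_LG := by
  intro V ι _ _ G _ J1 J2 N E τ hd hdis hT hxe hq
  rcases J2.eq_empty_or_nonempty with hJ2 | hJ2
  · subst hJ2
    rw [union_empty] at hT
    exact ⟨N, fun j _ => ⟨Subset.refl _, Nat.le_add_right _ _⟩, hT⟩
  set J := J1 ∪ J2 with hJ
  set c : ι → V → ℕ := fun q u => ∑ l ∈ J.erase q, ((N l).filter (G.Adj u)).card with hc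
  have h1 : ∀ q ∈ J2, J2.card * τ < ((N q).filter (fun u => c q u ≤ τ)).card := by
    intro q hqJ
    have hqJ' : q ∈ J := mem_union_right _ hqJ
    have e1 : ∑ u ∈ N q, c q u ≤ E := by
      have e0 : ∑ u ∈ N q, c q u =
          ∑ l ∈ J.erase q, ∑ u ∈ N q, ((N l).filter (G.Adj u)).card := by
        simp only [hc]
        exact sum_comm
      rw [e0]
      refine le_trans ?_ hxe
      exact single_le_sum (f := fun j => ∑ l ∈ J.erase j, ∑ u ∈ N j, ((N l).filter (G.Adj u)).card)
        (fun _ _ => Nat.zero_le _) hqJ'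
    have e2 : ((N q).filter (fun u => ¬ c q u ≤ τ)).card * (τ + 1) ≤ ∑ u ∈ N q, c q u := by
      calc ((N q).filter (fun u => ¬ c q u ≤ τ)).card * (τ + 1)
          = ∑ u ∈ (N q).filter (fun u => ¬ c q u ≤ τ), (τ + 1) := by
            rw [sum_const, smul_eq_mul]
        _ ≤ ∑ u ∈ (N q).filter (fun u => ¬ c q u ≤ τ), c q u := by
            refine sum_le_sum fun u hu => ?_
            have := (mem_filter.1 hu).2
            omega
        _ ≤ ∑ u ∈ N q, c q u := sum_le_sum_of_subset (filter_subset _ _)
    have e3 : ((N q).filter (fun u => c q u ≤ τ)).card +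
        ((N q).filter (fun u => ¬ c q u ≤ τ)).card = (N q).card :=
      card_filter_add_card_filter_not _
    have e4 := hq q hqJ
    by_contra hcon
    have e5 : ((N q).filter (fun u => c q u ≤ τ)).card * (τ + 1) ≤ J2.card * τ * (τ + 1) :=
      Nat.mul_le_mul_right _ (by omega)
    rw [← e3, add_mul] at e4
    omega
  -- the bound for one vertex
  have h2 : ∀ q ∈ J, ∀ j ∈ J, j ≠ q → ∀ u, c q u ≤ τ → ((N j).filter (G.Adj u)).card ≤ τ := by
    intro q _ j hj hjq u hu
    refine le_trans ?_ hu
    exact single_le_sum (f := fun l => ((N l).filter (G.Adj u)).card) (fun _ _ => Nat.zero_le _)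
      (mem_erase.2 ⟨hjq, hj⟩)
  -- greedy choice
  have h3 : ∀ S : Finset ι, S ⊆ J2 → ∃ y : ι → V, (∀ q ∈ S, y q ∈ N q ∧ c q (y q) ≤ τ) ∧
      ∀ q ∈ S, ∀ p ∈ S, q ≠ p → ¬ G.Adj (y q) (y p) := by
    intro S
    induction S using Finset.induction_on with
    | empty =>
      intro _
      obtain ⟨q, hqJ⟩ := hJ2
      have h4 : 0 < ((N q).filter (fun u => c q u ≤ τ)).card := by
        have := h1 q hqJ
        omega
      obtain ⟨v, _⟩ := card_pos.1 h4
      exact ⟨fun _ => v, by simp, by simp⟩
    | insert q S hqS ih =>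
      intro hS
      obtain ⟨y, hy1, hy2⟩ := ih ((subset_insert q S).trans hS)
      have hqJ2 : q ∈ J2 := hS (mem_insert_self q S)
      have hSJ2 : ∀ p ∈ S, p ∈ J2 := fun p hp => hS (mem_insert_of_mem hp)
      have h4 : (S.biUnion fun p => (N q).filter (G.Adj (y p))).card ≤ J2.card * τ := by
        refine le_trans card_biUnion_le ?_
        calc ∑ p ∈ S, ((N q).filter (G.Adj (y p))).card ≤ ∑ p ∈ S, τ := by
              refine sum_le_sum fun p hp => ?_
              refine h2 p (mem_union_right _ (hSJ2 p hp)) q (mem_union_right _ hqJ2) ?_ _ (hy1 p hp).2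
              rintro rfl
              exact hqS hp
          _ = S.card * τ := by rw [sum_const, smul_eq_mul]
          _ ≤ J2.card * τ := Nat.mul_le_mul_right _ (card_le_card fun p hp => hSJ2 p hp)
      obtain ⟨u, hu1, hu2⟩ : ∃ u ∈ (N q).filter (fun u => c q u ≤ τ),
          u ∉ S.biUnion fun p => (N q).filter (G.Adj (y p)) := by
        by_contra hcon
        push Not at hcon
        have h5 := card_le_card (show (N q).filter (fun u => c q u ≤ τ) ⊆ _ from hcon)
        have h6 := h1 q hqJ2
        omega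
      rw [mem_filter] at hu1
      have hadj : ∀ p ∈ S, ¬ G.Adj (y p) u := by
        intro p hp h
        exact hu2 (mem_biUnion.2 ⟨p, hp, mem_filter.2 ⟨hu1.1, h⟩⟩)
      have hne : ∀ p ∈ S, p ≠ q := fun p hp h => hqS (h ▸ hp)
      refine ⟨Function.update y q u, ?_, ?_⟩
      · intro p hp
        rcases mem_insert.1 hp with rfl | hp
        · rw [Function.update_self]
          exact hu1
        · rw [Function.update_of_ne (hne p hp)]
          exact hy1 p hp
      · intro p hp p' hp' hpp
        rcases mem_insert.1 hp with h | hp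
        · rcases mem_insert.1 hp' with h' | hp'
          · exact absurd (h.trans h'.symm) hpp
          · rw [h, Function.update_self, Function.update_of_ne (hne p' hp')]
            exact fun h => hadj p' hp' h.symm
        · rcases mem_insert.1 hp' with h' | hp'
          · rw [h', Function.update_self, Function.update_of_ne (hne p hp)]
            exact hadj p hp
          · rw [Function.update_of_ne (hne p hp), Function.update_of_ne (hne p' hp')]
            exact hy2 p hp p' hp' hpp
  obtain ⟨y, hy1, hy2⟩ := h3 J2 (Subset.refl _)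
  refine ⟨fun j => (N j).filter fun u => ∀ q ∈ J2, ¬ G.Adj (y q) u, ?_, ?_⟩
  · intro j hj
    refine ⟨filter_subset _ _, ?_⟩
    have h4 : ((N j).filter fun u => ¬ ∀ q ∈ J2, ¬ G.Adj (y q) u).card ≤ J2.card * τ := by
      have h5 : ((N j).filter fun u => ¬ ∀ q ∈ J2, ¬ G.Adj (y q) u) ⊆
          J2.biUnion fun q => (N j).filter (G.Adj (y q)) := by
        intro u hu
        rw [mem_filter] at hu
        obtain ⟨hu1, hu2⟩ := hu
        push Not at hu2
        obtain ⟨q, hq1, hq2⟩ := hu2
        exact mem_biUnion.2 ⟨q, hq1, mem_filter.2 ⟨hu1, hq2⟩⟩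
      refine le_trans (card_le_card h5) (le_trans card_biUnion_le ?_)
      calc ∑ p ∈ J2, ((N j).filter (G.Adj (y p))).card ≤ ∑ p ∈ J2, τ := by
            refine sum_le_sum fun p hp => ?_
            refine h2 p (mem_union_right _ hp) j (mem_union_left _ hj) ?_ _ (hy1 p hp).2
            rintro rfl
            exact disjoint_left.1 hd hj hp
        _ = J2.card * τ := by rw [sum_const, smul_eq_mul]
    have e3 : ((N j).filter fun u => ∀ q ∈ J2, ¬ G.Adj (y q) u).card +
        ((N j).filter fun u => ¬ ∀ q ∈ J2, ¬ G.Adj (y q) u).card = (N j).card :=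
      card_filter_add_card_filter_not _
    show (N j).card ≤ ((N j).filter fun u => ∀ q ∈ J2, ¬ G.Adj (y q) u).card + J2.card * τ
    omega
  · rintro ⟨T, hT1, hT2⟩
    apply hT
    have hT1' : ∀ j ∈ J1, T j ∈ N j ∧ ∀ q ∈ J2, ¬ G.Adj (y q) (T j) := fun j hj => mem_filter.1 (hT1 j hj)
    refine ⟨fun j => if j ∈ J2 then y j else T j, ?_, ?_⟩
    · intro j hj
      show (if j ∈ J2 then y j else T j) ∈ N j
      split_ifs with h
      · exact (hy1 j h).1
      · rcases mem_union.1 hj with h' | h'
        · exact (hT1' j h').1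
        · exact absurd h' h
    · intro j hj l hl hjl
      show ¬ G.Adj (if j ∈ J2 then y j else T j) (if l ∈ J2 then y l else T l)
      have hJ1 : ∀ j ∈ J, j ∉ J2 → j ∈ J1 := fun j hj h => (mem_union.1 hj).resolve_right h
      split_ifs with h h' h'
      · exact hy2 j h l h' hjl
      · exact (hT1' l (hJ1 l hl h')).2 j h
      · exact fun h3 => (hT1' j (hJ1 j hj h)).2 l h' h3.symm
      · exact hT2 j (hJ1 j hj h) l (hJ1 l hl h') hjl

end Pool.Agent.LHA
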