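import Pool.Agent.LHA.St

/-!
# Campaign LHA, module M2: the missing pairs at a clique and outside vertices
-/

set_option autoImplicit false

open Finset

namespace Pool.Agent.LHA

open Pool.Agent.TwoDens

theorem thm_M2 : St_M2 := by
  intro V _ G _ k a X K Z hk hHa hKX hZX hKZ hcard hclq
  have hF : (K ∪ Z).card = k := by rw [Finset.card_union_of_disjoint hKZ, hcard]
  have h1 := hHa (K ∪ Z) (Finset.union_subset hKX hZX) (by omega)
  have h2 := e2_add_m2 G (K ∪ Z)
  rw [hF] at h1 h2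
  have h3 : 2 * a ≤ m2 G (K ∪ Z) := by
    have h2' : (e2 G (K ∪ Z) : ℤ) + m2 G (K ∪ Z) + k = k * k := by exact_mod_cast h2
    have hk2 : (0 : ℤ) < (k : ℤ) - 2 := by
      have : (3 : ℤ) ≤ k := by exact_mod_cast hk
      linarith
    have h4 : ((k : ℤ) - 2) * ((e2 G (K ∪ Z) : ℤ) + 2 * (a : ℤ)) ≤
        ((k : ℤ) - 2) * (2 + ((k : ℤ) + 1) * ((k : ℤ) - 2)) := by
      linarith
    have h5 := le_of_mul_le_mul_left h4 hk2
    have h6 : 2 * (a : ℤ) ≤ m2 G (K ∪ Z) := by linarith
    exact_mod_cast h6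
  refine h3.trans ?_
  unfold m2
  rw [Finset.sum_union hKZ]
  have hA : ∑ x ∈ K, ((K ∪ Z).filter fun y => y ≠ x ∧ ¬ G.Adj x y).card ≤
      ∑ z ∈ Z, (non G z K).card := by
    have h7 : ∀ x ∈ K, ((K ∪ Z).filter fun y => y ≠ x ∧ ¬ G.Adj x y).card ≤
        (Z.filter fun z => ¬ G.Adj z x).card := by
      intro x hx
      apply Finset.card_le_card
      intro y hy
      obtain ⟨hy1, hy2, hy3⟩ := Finset.mem_filter.1 hy
      rcases Finset.mem_union.1 hy1 with hyK | hyZ
      · exact absurd (hclq x hx y hyK (Ne.symm hy2)) hy3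
      · exact Finset.mem_filter.2 ⟨hyZ, fun h => hy3 h.symm⟩
    refine (Finset.sum_le_sum h7).trans ?_
    unfold non
    simp only [Finset.card_filter]
    rw [Finset.sum_comm]
  have hB : ∑ x ∈ Z, ((K ∪ Z).filter fun y => y ≠ x ∧ ¬ G.Adj x y).card ≤
      ∑ z ∈ Z, (non G z K).card + Z.card * Z.card := by
    have h8 : ∀ x ∈ Z, ((K ∪ Z).filter fun y => y ≠ x ∧ ¬ G.Adj x y).card ≤
        (non G x K).card + Z.card := by
      intro x _
      refine (Finset.card_le_card (t := non G x K ∪ Z) ?_).trans (Finset.card_union_le _ _)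
      intro y hy
      obtain ⟨hy1, _, hy3⟩ := Finset.mem_filter.1 hy
      rcases Finset.mem_union.1 hy1 with hyK | hyZ
      · exact Finset.mem_union_left _ (Finset.mem_filter.2 ⟨hyK, hy3⟩)
      · exact Finset.mem_union_right _ hyZ
    refine (Finset.sum_le_sum h8).trans ?_
    rw [Finset.sum_add_distrib, Finset.sum_const, smul_eq_mul]
  linarith

end Pool.Agent.LHA
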