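import Pool.Agent.LHA.StU
import Pool.Agent.UHX.BlockUpper

/-!
# Campaign LHA (MP_303581_co): the upper bound for the smaller half of the residues
-/

set_option autoImplicit false

open Finset

namespace Pool.Agent.LHA

open Pool.Agent.BKU Pool.Agent.TwoDens

theorem up_main (hUE : St_UE) (hUA : St_UA) (hUI : St_UI) (hUV : St_UV) (s t p c k : ℕ) (hp : 1 ≤ p) (hc : 1 ≤ c)
    (hts : t < s) (hst : (s - t) * (p + 1) ≤ s) (h1 : 2 * (p * (c * c)) + 2 ≤ k) (h2 : 4 * (p * c) + 8 ≤ k) :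
    minTwoDensity (k * s - t) (s + 1) ≤ ((k : ℝ) + 1) / 2 - ((p * c : ℕ) : ℝ) / ((k : ℝ) - 2) := by
  classical
  have hk8 : 8 ≤ k := by omega
  have hkr : (8 : ℝ) ≤ k := by exact_mod_cast hk8
  obtain ⟨δ, hδ⟩ : ∃ δ, s = t + δ := ⟨s - t, by omega⟩
  have hd : s - t = δ := by omega
  rw [hd] at hst
  obtain ⟨e, he⟩ : ∃ e, s = δ * (p + 1) + e := ⟨s - δ * (p + 1), by omega⟩
  set ν := mu k (p * c) with hν
  have hpcr : ((4 * (p * c) + 8 : ℕ) : ℝ) ≤ k := by exact_mod_cast h2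
  have hpc0 : (0 : ℝ) ≤ ((p * c : ℕ) : ℝ) := Nat.cast_nonneg _
  have hν' : ν = 2 * (((p * c : ℕ) : ℝ) / ((k : ℝ) - 2)) := by
    rw [hν]
    unfold mu
    ring
  have hle1 : ((p * c : ℕ) : ℝ) / ((k : ℝ) - 2) ≤ 1 / 2 := by
    rw [div_le_iff₀ (by linarith)]
    push_cast at hpcr ⊢
    linarith
  have hge0 : 0 ≤ ((p * c : ℕ) : ℝ) / ((k : ℝ) - 2) := div_nonneg hpc0 (by linarith)
  have hν0 : 0 ≤ ν := by rw [hν']; linarith
  have hν1 : ν ≤ 1 := by rw [hν']; linarith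
  -- the components
  have g1 : Gd k ν (gr k p c) := by
    intro F
    obtain ⟨γ, f0, g0, f, g, h, hPr, hF, hE⟩ := hUE thm_JN thm_CP thm_ST k p c hc (by omega) F
    have := hUA k p c hp hc h1 h2 γ f0 g0 f g h hPr
    rw [hE, hF]
    exact this
  obtain ⟨hV1, hV2, hV3⟩ := hUV
  obtain ⟨u1, u2, u3⟩ := hV1 k ν (by omega) hν0 hν1
  set G := jn (cp (Fin δ) (gr k p c)) (cp (Fin e) (⊤ : SimpleGraph (Fin (k - 1)))) (fun _ _ => False) with hG
  have g2 : Gd k ν G := u1 _ _ _ _ (u2 _ _ _ g1) (u2 _ _ _ u3)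
  obtain ⟨hU1, hU2⟩ := all_UN
  have i1 := (hU2 (Fin δ) _ (gr k p c)).2 _ (hUI k p c hp hc (by omega))
  have i2 := (hU2 (Fin e) _ (⊤ : SimpleGraph (Fin (k - 1)))).2 _ (hV3 (k - 1))
  have i3 : Ind G (Fintype.card (Fin δ) * (p + 1) + Fintype.card (Fin e) * 1) := (hU1 _ _ _ _).2 _ _ i1 i2
  simp only [Fintype.card_fin] at i3
  refine minTwoDensity_le (by linarith) G ?_ ?_ ?_
  · simp only [Fintype.card_sum, Fintype.card_prod, Fintype.card_fin, Fintype.card_unit]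
    obtain ⟨m, hm⟩ : ∃ m, k = m + 1 := ⟨k - 1, by omega⟩
    subst hm
    have e1 : m + 1 - 1 = m := by omega
    rw [e1]
    refine Nat.sub_le_iff_le_add.2 (le_of_eq ?_)
    have e2 : δ * (1 + (m + p * m)) + e * m + t = (δ * (p + 1) + e) * m + (t + δ) := by ring
    rw [e2, ← he, ← hδ]
    ring
  · intro I hI
    have := i3 I (fun x hx y hy hxy hadj => hI (Finset.mem_coe.2 hx) (Finset.mem_coe.2 hy) hxy hadj)
    omega
  · intro Y hY
    have h3 := g2 Y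
    rw [← BK_e2 G Y] at h3
    unfold mm at h3
    rw [if_neg (by omega), if_neg (by omega), hν'] at h3
    linarith

end Pool.Agent.LHA
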