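import Pool.Agent.LHA.St
import Pool.Agent.LHA.UF
import Pool.Agent.TwoDens.Bridge

/-!
# Campaign LHA (MP_303581_co): the bounds for the minimum 2-density in the smaller half
-/

set_option autoImplicit false

open Finset

namespace Pool.Agent.LHA

open Pool.Agent.TwoDens

theorem sqrt_k {p k : ℕ} (hk : 1 ≤ k) : Real.sqrt ((p : ℝ) / (2 * k)) * k = Real.sqrt ((p : ℝ) * k / 2) := by
  have hk' : (0 : ℝ) < k := by exact_mod_cast hk
  have h1 : (p : ℝ) * k / 2 = ((p : ℝ) / (2 * k)) * ((k : ℝ) * k) := by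
    field_simp
  rw [h1, Real.sqrt_mul' _ (by positivity), Real.sqrt_mul_self hk'.le]

theorem low_real (hLOW : St_LOW) (s t p : ℕ) (hp : 1 ≤ p) (hs : 2 ≤ s) (hst : (p + 2) * t < (p + 1) * s)
    (hts : t < s) : ∃ C K₀ : ℕ, ∀ k : ℕ, K₀ ≤ k →
      ((k : ℝ) + 1) / 2 - Real.sqrt ((p : ℝ) / (2 * k)) - (C : ℝ) / k ≤ minTwoDensity (k * s - t) (s + 1) := by
  obtain ⟨C, K1, hK⟩ := hLOW s t p hp hs hst
  refine ⟨2 * (1 + C + 2 * p), K1 + t + 13, ?_⟩
  intro k hk
  have hk13 : 13 ≤ k := by omega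
  have hkR : (13 : ℝ) ≤ k := by exact_mod_cast hk13
  have hka : k ≤ k * s := Nat.le_mul_of_pos_right k (by omega)
  set x := Real.sqrt ((p : ℝ) * k / 2) with hx
  have hx0 : 0 ≤ x := Real.sqrt_nonneg _
  have hxx : x * x = (p : ℝ) * k / 2 := Real.mul_self_sqrt (by positivity)
  have hsk := sqrt_k (p := p) (k := k) (by omega)
  rw [← hx] at hsk
  set y := Real.sqrt ((p : ℝ) / (2 * k)) with hy
  have hpR : (1 : ℝ) ≤ p := by exact_mod_cast hp
  have hxpk : x ≤ p * k := by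
    by_contra hcon
    push Not at hcon
    have h1 : (0 : ℝ) ≤ p * k := by positivity
    have h2 : (p : ℝ) * k * (p * k) < x * x := by nlinarith
    rw [hxx] at h2
    have h3 : (1 : ℝ) ≤ p * k := by nlinarith
    nlinarith
  set c := ⌈x⌉₊ with hc
  have hc1 : x ≤ c := Nat.le_ceil x
  have hc2 : (c : ℝ) < x + 1 := Nat.ceil_lt_add_one hx0
  have hpk1 : p * k ≤ 2 * (c * c) := by
    have h1 : x * x ≤ (c : ℝ) * c := mul_le_mul hc1 hc1 hx0 (by positivity)
    have h2 : (p : ℝ) * k ≤ 2 * ((c : ℝ) * c) := by linarith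
    exact_mod_cast h2
  have hpk2 : 2 * ((c - 1) * (c - 1)) ≤ p * k := by
    have h1 : ((c - 1 : ℕ) : ℝ) ≤ x := by
      rcases Nat.eq_zero_or_pos c with h0 | h0
      · rw [h0]; simpa using hx0
      · rw [Nat.cast_sub h0, Nat.cast_one]; linarith
    have h2 : ((c - 1 : ℕ) : ℝ) * ((c - 1 : ℕ) : ℝ) ≤ x * x := mul_le_mul h1 h1 (Nat.cast_nonneg _) hx0
    have h3 : 2 * (((c - 1 : ℕ) : ℝ) * ((c - 1 : ℕ) : ℝ)) ≤ (p : ℝ) * k := by linarith
    exact_mod_cast h3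
  have hmain : ((k : ℝ) + 1) / 2 - ((c + C : ℕ) : ℝ) / ((k : ℝ) - 2) ≤ minTwoDensity (k * s - t) (s + 1) := by
    refine le_minTwoDensity (by omega) ?_
    intro G _ hα
    by_contra hcon
    push Not at hcon
    have hpos : 0 ≤ ((c + C : ℕ) : ℝ) / ((k : ℝ) - 2) := by
      apply div_nonneg (Nat.cast_nonneg _)
      linarith
    have hS : Sk G k Finset.univ := by
      intro Y _ hY
      have h1 := hcon Y hY
      have hY' : (3 : ℝ) ≤ Y.card := by exact_mod_cast hY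
      have h2 : (e2 G Y : ℝ) + 2 * k < (k + 1) * Y.card := by
        nlinarith [mul_nonneg hpos (by linarith : (0 : ℝ) ≤ (Y.card : ℝ) - 2)]
      have h3 : e2 G Y + 2 * k < (k + 1) * Y.card := by exact_mod_cast h2
      omega
    have hal : Al G s Finset.univ := by
      intro I _ hI
      have := hα I hI
      omega
    refine hK k (by omega) c hpk1 hpk2 _ G Finset.univ hS hal (by
      rw [Finset.card_univ, Fintype.card_fin]
      omega) ?_
    intro Y _ hY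
    have h1 := hcon Y hY
    have h6 : ((c + C : ℕ) : ℝ) / ((k : ℝ) - 2) * ((k : ℝ) - 2) = ((c + C : ℕ) : ℝ) :=
      div_mul_cancel₀ _ (by linarith)
    have h7 : ((k : ℝ) - 2) * (e2 G Y : ℝ) + 2 * ((c + C : ℕ) : ℝ) * ((Y.card : ℝ) - 2) <
        ((k : ℝ) - 2) * (2 + ((k : ℝ) + 1) * ((Y.card : ℝ) - 2)) := by
      have h8 := mul_lt_mul_of_pos_left h1 (by linarith : (0 : ℝ) < (k : ℝ) - 2)
      have h9 : ((k : ℝ) - 2) * (2 + 2 * (((k : ℝ) + 1) / 2 - ((c + C : ℕ) : ℝ) / ((k : ℝ) - 2)) *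
          ((Y.card : ℝ) - 2)) = ((k : ℝ) - 2) * (2 + ((k : ℝ) + 1) * ((Y.card : ℝ) - 2)) -
          2 * (((c + C : ℕ) : ℝ) / ((k : ℝ) - 2) * ((k : ℝ) - 2)) * ((Y.card : ℝ) - 2) := by ring
      rw [h9, h6] at h8
      linarith
    have h8 : ((k : ℤ) - 2) * (e2 G Y : ℤ) + 2 * ((c + C : ℕ) : ℤ) * ((Y.card : ℤ) - 2) <
        ((k : ℤ) - 2) * (2 + ((k : ℤ) + 1) * ((Y.card : ℤ) - 2)) := by exact_mod_cast h7
    exact h8.le
  refine le_trans ?_ hmain
  have h1 : ((c + C : ℕ) : ℝ) / ((k : ℝ) - 2) ≤ y + ((2 * (1 + C + 2 * p) : ℕ) : ℝ) / k := by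
    rw [div_le_iff₀ (by linarith)]
    have h2 : y = x / k := by
      rw [← hsk]
      field_simp
    rw [h2, ← add_div, div_mul_eq_mul_div, le_div_iff₀ (by linarith)]
    push_cast
    nlinarith
  linarith

theorem up_real (hUE : St_UE) (hUA : St_UA) (hUI : St_UI) (hUV : St_UV) (s t p : ℕ) (hp : 1 ≤ p) (hts : t < s)
    (hst : (s - t) * (p + 1) ≤ s) : ∃ C K₀ : ℕ, ∀ k : ℕ, K₀ ≤ k →
      minTwoDensity (k * s - t) (s + 1) ≤ ((k : ℝ) + 1) / 2 - Real.sqrt ((p : ℝ) / (2 * k)) + (C : ℝ) / k := by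
  refine ⟨2 * p, 100 * p + 13, ?_⟩
  intro k hk
  have hk13 : 13 ≤ k := by omega
  have hkR : (13 : ℝ) ≤ k := by exact_mod_cast hk13
  set x := Real.sqrt ((p : ℝ) * k / 2) with hx
  have hx0 : 0 ≤ x := Real.sqrt_nonneg _
  have hxx : x * x = (p : ℝ) * k / 2 := Real.mul_self_sqrt (by positivity)
  have hsk := sqrt_k (p := p) (k := k) (by omega)
  rw [← hx] at hsk
  set y := Real.sqrt ((p : ℝ) / (2 * k)) with hy
  set n := (k - 2) / (2 * p) with hn
  set c := Nat.sqrt n with hc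
  have h2p : 0 < 2 * p := by omega
  have hn1 : 2 * p * n ≤ k - 2 := Nat.mul_div_le _ _
  have hn2 : k - 2 < 2 * p * (n + 1) := by
    have := Nat.lt_mul_div_succ (k - 2) h2p
    simpa [Nat.succ_eq_add_one] using this
  have hc1 : c * c ≤ n := Nat.sqrt_le n
  have hc2 : n + 1 ≤ (c + 1) * (c + 1) := Nat.lt_succ_sqrt n
  have hcp : 1 ≤ c := by
    by_contra hcon
    have h0 : c = 0 := by omega
    rw [h0] at hc2
    have hn0 : n = 0 := by omega
    rw [hn0] at hn2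
    omega
  have g1 : 2 * (p * (c * c)) + 2 ≤ k := by
    have : 2 * p * (c * c) ≤ 2 * p * n := Nat.mul_le_mul_left _ hc1
    have e : 2 * (p * (c * c)) = 2 * p * (c * c) := by ring
    omega
  have g2 : 4 * (p * c) + 8 ≤ k := by
    rcases Nat.lt_or_ge c 4 with h4 | h4
    · have : p * c ≤ p * 3 := Nat.mul_le_mul_left _ (by omega)
      omega
    · have h5 : p * (4 * c) ≤ p * (c * c) := Nat.mul_le_mul_left _ (Nat.mul_le_mul_right _ h4)
      have h6 : 1 * 4 ≤ p * c := Nat.mul_le_mul hp h4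
      have h7 : p * (4 * c) = 4 * (p * c) := by ring
      omega
  have hup := up_main hUE hUA hUI hUV s t p c k hp hcp hts hst g1 g2
  refine le_trans hup ?_
  have hkey : k ≤ 2 * p * ((c + 1) * (c + 1)) + 2 := by
    have : 2 * p * (n + 1) ≤ 2 * p * ((c + 1) * (c + 1)) := Nat.mul_le_mul_left _ hc2
    omega
  have hkeyR : (k : ℝ) ≤ 2 * p * (((c : ℝ) + 1) * ((c : ℝ) + 1)) + 2 := by exact_mod_cast hkey
  have hpR : (1 : ℝ) ≤ p := by exact_mod_cast hp
  have hcR : (1 : ℝ) ≤ c := by exact_mod_cast hcp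
  have hxc : x ≤ p * c + 2 * p := by
    by_contra hcon
    push Not at hcon
    have h0 : (0 : ℝ) ≤ p * c + 2 * p := by positivity
    have h1 : ((p : ℝ) * c + 2 * p) * (p * c + 2 * p) < x * x := by nlinarith
    rw [hxx] at h1
    have h2 : (p : ℝ) * k ≤ p * (2 * p * (((c : ℝ) + 1) * ((c : ℝ) + 1)) + 2) :=
      mul_le_mul_of_nonneg_left hkeyR (by linarith)
    have h3 : (p : ℝ) ≤ p * p := by nlinarith
    have h4 : (0 : ℝ) ≤ p * p * c := by positivity
    nlinarith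
  have h1 : y - ((2 * p : ℕ) : ℝ) / k ≤ ((p * c : ℕ) : ℝ) / ((k : ℝ) - 2) := by
    have h2 : y = x / k := by
      rw [← hsk]
      field_simp
    have h3 : ((p * c : ℕ) : ℝ) / k ≤ ((p * c : ℕ) : ℝ) / ((k : ℝ) - 2) :=
      div_le_div_of_nonneg_left (Nat.cast_nonneg _) (by linarith) (by linarith)
    refine le_trans ?_ h3
    rw [h2, ← sub_div]
    refine div_le_div_of_nonneg_right ?_ (by linarith)
    push_cast
    linarith
  linarith

end Pool.Agent.LHA
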