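import Pool.Agent.LHA.St

/-!
# Campaign LHA, module SU: the sum over a tree
-/

set_option autoImplicit false

open Finset

namespace Pool.Agent.LHA

theorem SU_min {ζ : Type} (s : Finset ζ) (f : ζ → ℝ) (A : ℝ) (hA : 0 ≤ A)
    (hf : ∀ z ∈ s, 0 ≤ f z) : min (∑ z ∈ s, f z) A ≤ ∑ z ∈ s, min (f z) A := by
  by_cases h : ∀ z ∈ s, f z ≤ A
  · have h1 : ∑ z ∈ s, min (f z) A = ∑ z ∈ s, f z :=
      Finset.sum_congr rfl fun z hz => min_eq_left (h z hz)
    rw [h1]
    exact min_le_left _ _
  · push Not at h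
    obtain ⟨z, hz, h1⟩ := h
    have h2 : min (f z) A ≤ ∑ z ∈ s, min (f z) A :=
      Finset.single_le_sum (f := fun z => min (f z) A) (fun y hy => le_min (hf y hy) hA) hz
    rw [min_eq_right h1.le] at h2
    exact (min_le_right _ _).trans h2

theorem SU_one (A b c m : ℝ) (hA : 0 ≤ A) (hb : 0 ≤ b) (hc : 0 ≤ c) (hm : m = min b A) :
    A * m ≤ b * c + A * max (A - c) 0 := by
  have h1 : m ≤ b := hm ▸ min_le_left _ _
  have h2 : m ≤ A := hm ▸ min_le_right _ _
  rcases le_total A c with h | h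
  · have h3 : A * m ≤ c * b := mul_le_mul h h1 (hm ▸ le_min hb hA) hc
    have h4 : 0 ≤ A * max (A - c) 0 := mul_nonneg hA (le_max_right _ _)
    nlinarith
  · rw [max_eq_left (by linarith)]
    nlinarith [mul_le_mul_of_nonneg_right h1 hc, mul_le_mul_of_nonneg_right h2 (sub_nonneg.2 h)]

theorem SU_two (A b c : ℝ) (hA : 0 ≤ A) (hb : 0 ≤ b) (hc : 0 ≤ c) :
    A * A ≤ b * c + A * (max (A - b) 0 + max (A - c) 0) := by
  rcases le_total A b with h | h
  · have h1 : A * c ≤ b * c := mul_le_mul_of_nonneg_right h hc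
    have h2 : A - c ≤ max (A - c) 0 := le_max_left _ _
    have h3 : 0 ≤ max (A - b) 0 := le_max_right _ _
    nlinarith [mul_le_mul_of_nonneg_left h2 hA, mul_nonneg hA h3]
  · rcases le_total A c with h' | h'
    · have h1 : A * b ≤ c * b := mul_le_mul_of_nonneg_right h' hb
      have h2 : A - b ≤ max (A - b) 0 := le_max_left _ _
      have h3 : 0 ≤ max (A - c) 0 := le_max_right _ _
      nlinarith [mul_le_mul_of_nonneg_left h2 hA, mul_nonneg hA h3]
    · rw [max_eq_left (by linarith), max_eq_left (by linarith)]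
      nlinarith [mul_nonneg (sub_nonneg.2 h) (sub_nonneg.2 h')]

theorem SU_local {ι : Type} [DecidableEq ι] (s : Finset ι) (P : ι) (hP : P ∈ s) (b : ι → ℝ)
    (A E : ℝ) (hA : 0 ≤ A) (hb : ∀ j ∈ s, 0 ≤ b j) (hE : 0 ≤ E)
    (h : (∀ j ∈ s, b j = 0) ∨ ∃ j ∈ s, ∃ l ∈ s, j ≠ l ∧ b j * b l ≤ E) :
    A * min (b P) A ≤ E + A * ∑ l ∈ s.erase P, max (A - b l) 0 := by
  have h0 : 0 ≤ ∑ l ∈ s.erase P, max (A - b l) 0 :=
    Finset.sum_nonneg fun l _ => le_max_right _ _
  have hone : ∀ l ∈ s, l ≠ P → b P * b l ≤ E →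
      A * min (b P) A ≤ E + A * ∑ l ∈ s.erase P, max (A - b l) 0 := by
    intro l hl hlP h1
    have h2 := SU_one A (b P) (b l) _ hA (hb P hP) (hb l hl) rfl
    have h3 : max (A - b l) 0 ≤ ∑ l ∈ s.erase P, max (A - b l) 0 :=
      Finset.single_le_sum (f := fun l => max (A - b l) 0) (fun y _ => le_max_right _ _)
        (Finset.mem_erase.2 ⟨hlP, hl⟩)
    have h4 := mul_le_mul_of_nonneg_left h3 hA
    linarith
  rcases h with h | ⟨j, hj, l, hl, hjl, h1⟩
  · rw [h P hP, min_eq_left hA, mul_zero]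
    exact add_nonneg hE (mul_nonneg hA h0)
  · by_cases hjP : j = P
    · subst hjP
      exact hone l hl hjl.symm h1
    · by_cases hlP : l = P
      · subst hlP
        exact hone j hj hjP (by rw [mul_comm]; exact h1)
      · have h2 := SU_two A (b j) (b l) hA (hb j hj) (hb l hl)
        have h3 : max (A - b j) 0 + max (A - b l) 0 ≤ ∑ l ∈ s.erase P, max (A - b l) 0 := by
          rw [← Finset.sum_pair (f := fun l => max (A - b l) 0) hjl]
          refine Finset.sum_le_sum_of_subset_of_nonneg ?_ fun y _ _ => le_max_right _ _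
          intro y hy
          rw [Finset.mem_insert, Finset.mem_singleton] at hy
          rcases hy with rfl | rfl
          · exact Finset.mem_erase.2 ⟨hjP, hj⟩
          · exact Finset.mem_erase.2 ⟨hlP, hl⟩
        have h4 := mul_le_mul_of_nonneg_left h3 hA
        have h5 : A * min (b P) A ≤ A * A := mul_le_mul_of_nonneg_left (min_le_right _ _) hA
        linarith

theorem thm_SU : St_SU := by
  intro ι ζ _ _ R Z S j0 par β E A hT hA hβ hE hR
  have hloc : ∀ z ∈ Z, A * min (β z (par z)) A ≤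
      E z + A * ∑ l ∈ (S z).erase (par z), max (A - β z l) 0 := fun z hz =>
    SU_local (S z) (par z) (hT.par_mem z hz) (β z) A (E z) hA (hβ z hz) (hE z hz).1 (hE z hz).2
  have hsum := Finset.sum_le_sum hloc
  rw [Finset.sum_add_distrib, ← Finset.mul_sum, ← Finset.mul_sum] at hsum
  -- regrouping
  have hD : ∑ z ∈ Z, min (β z (par z)) A =
      ∑ j ∈ R, ∑ z ∈ Z.filter (fun z => par z = j), min (β z j) A := by
    rw [← Finset.sum_fiberwise_of_maps_to (g := par) (t := R)
      (fun z hz => hT.sub z hz (hT.par_mem z hz))]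
    refine Finset.sum_congr rfl fun j _ => Finset.sum_congr rfl fun z hz => ?_
    rw [(Finset.mem_filter.1 hz).2]
  have hU : ∑ z ∈ Z, ∑ l ∈ (S z).erase (par z), max (A - β z l) 0 =
      ∑ j ∈ R, ∑ z ∈ Z.filter (fun z => j ∈ S z ∧ j ≠ par z), max (A - β z j) 0 := by
    have e1 : ∀ z ∈ Z, ∑ l ∈ (S z).erase (par z), max (A - β z l) 0 =
        ∑ l ∈ R, if l ∈ S z ∧ l ≠ par z then max (A - β z l) 0 else 0 := by
      intro z hz
      rw [← Finset.sum_filter]
      refine Finset.sum_congr ?_ fun _ _ => rfl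
      ext l
      rw [Finset.mem_erase, Finset.mem_filter]
      exact ⟨fun h => ⟨hT.sub z hz h.2, h.2, h.1⟩, fun h => ⟨h.2.2, h.2.1⟩⟩
    rw [Finset.sum_congr rfl e1, Finset.sum_comm]
    refine Finset.sum_congr rfl fun j _ => ?_
    rw [← Finset.sum_filter]
  rw [hD, hU] at hsum
  -- the nodes
  have hnode : ∀ j ∈ R, (∑ z ∈ Z.filter (fun z => j ∈ S z ∧ j ≠ par z), max (A - β z j) 0) +
      (if j = j0 then A else 0) ≤ ∑ z ∈ Z.filter (fun z => par z = j), min (β z j) A := by
    intro j hj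
    have hmin := SU_min (Z.filter (fun z => par z = j)) (fun z => β z j) A hA (fun z hz => by
      rw [Finset.mem_filter] at hz
      exact hβ z hz.1 j (hz.2 ▸ hT.par_mem z hz.1))
    by_cases hj0 : j = j0
    · rw [if_pos hj0]
      have h1 : Z.filter (fun z => j ∈ S z ∧ j ≠ par z) = ∅ := by
        rw [Finset.filter_eq_empty_iff]
        rintro z hz ⟨h2, h3⟩
        exact h3 (hj0.trans (hT.par_root z hz (hj0 ▸ h2)).symm)
      have h2 : Z.filter (fun z => j ∈ S z) = Z.filter (fun z => par z = j) := by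
        refine Finset.filter_congr fun z hz => ⟨fun h => ?_, fun h => h ▸ hT.par_mem z hz⟩
        exact (hT.par_root z hz (hj0 ▸ h)).trans hj0.symm
      have h3 := hR j hj
      rw [h2] at h3
      rw [h1, Finset.sum_empty, zero_add]
      exact (le_min h3 le_rfl).trans hmin
    · rw [if_neg hj0, add_zero]
      obtain ⟨z0, hz0, h1, h2⟩ := hT.cov j hj hj0
      have h3 : Z.filter (fun z => j ∈ S z ∧ j ≠ par z) = {z0} := by
        ext z
        rw [Finset.mem_filter, Finset.mem_singleton]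
        constructor
        · rintro ⟨hz, h4, h5⟩
          by_contra hne
          exact h5 (hT.uniq z0 hz0 z hz (Ne.symm hne) j h1 h2 h4)
        · rintro rfl
          exact ⟨hz0, h1, h2⟩
      have h4 : Z.filter (fun z => j ∈ S z) = insert z0 (Z.filter (fun z => par z = j)) := by
        ext z
        rw [Finset.mem_insert, Finset.mem_filter, Finset.mem_filter]
        constructor
        · rintro ⟨hz, h4⟩
          by_cases hne : z = z0
          · exact Or.inl hne
          · exact Or.inr ⟨hz, (hT.uniq z0 hz0 z hz (Ne.symm hne) j h1 h2 h4).symm⟩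
        · rintro (rfl | ⟨hz, h4⟩)
          · exact ⟨hz0, h1⟩
          · exact ⟨hz, h4 ▸ hT.par_mem z hz⟩
      have h5 : z0 ∉ Z.filter (fun z => par z = j) := by
        rw [Finset.mem_filter]
        exact fun h => h2 h.2.symm
      have h6 := hR j hj
      rw [h4, Finset.sum_insert h5] at h6
      rw [h3, Finset.sum_singleton]
      have h7 : 0 ≤ β z0 j := hβ z0 hz0 j h1
      refine max_le ?_ ?_
      · refine le_trans (le_min ?_ ?_) hmin
        · linarith
        · linarith
      · exact Finset.sum_nonneg fun z hz => by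
          rw [Finset.mem_filter] at hz
          exact le_min (hβ z hz.1 j (hz.2 ▸ hT.par_mem z hz.1)) hA
  have hfin := Finset.sum_le_sum hnode
  rw [Finset.sum_add_distrib, Finset.sum_ite_eq' R j0, if_pos hT.root] at hfin
  have := mul_le_mul_of_nonneg_left hfin hA
  rw [mul_add] at this
  linarith

end Pool.Agent.LHA
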