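import Pool.Agent.LHA.Defs

/-!
# Campaign LHA (MP_303581_co): statements of the modules

Every `St_X` is a statement with its proof in the docstring. A module proves `thm_X : St_X` (the final assembly `thm_FN` has the others as
hypotheses). All counts in `ℕ`.
-/

set_option autoImplicit false

open Finset

namespace Pool.Agent.LHA

open Pool.Agent.TwoDens

/-- (TR) Existence of a tree. PROOF. Call `R ⊆ I` closed if for all `z ∈ Z` with `S z ∩ R ≠ ∅` we have `S z ⊆ R`; `Z_R = {z ∈ Z | S z ∩ R ≠ ∅}`, `Y(R) = ∑ j ∈ R, y j`.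
Call `R` good if it is closed and `(p + 2) Y(R) < (p + 1) |R| + (p + 2) |Z_R|`. `I` is good (`Z_I = Z`, `Y(I) = t + |Z|`). Take `R` good with `|R|` minimal
(`R ≠ ∅`). If `R' ⊆ R` is closed, `R' ≠ ∅`, `R' ≠ R`, then `R \ R'` is closed, `Z_R` is the disjoint union of `Z_R'` and `Z_{R \ R'}`, so one of
the two is good, a contradiction. So the only nonempty closed subset of `R` is `R`. Take `j0 ∈ R`. For `j0 ∈ Q ⊆ R` let `P(Q)` be: there are `Z' ⊆ Z_R` and `par`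
with `S z ⊆ Q` for `z ∈ Z'` and either (a) `|Q| ≤ ∑ z ∈ Z', (|S z| - 1)` or (b) `∑ z ∈ Z', (|S z| - 1) = |Q| - 1` and `Tree Q Z' S j0 par`. `P({j0})` holds with
`Z' = ∅`. If `P(Q)` and `Q ≠ R` then `Q` is not closed, so there is `z ∈ Z`, `S z ∩ Q ≠ ∅`, `S z ⊄ Q` (so `z ∉ Z'`, `z ∈ Z_R`, `S z ⊆ R`); put
`Q' = Q ∪ S z`, `Z'' = Z' ∪ {z}`, `par z` an element of `S z ∩ Q`: `|Q'| - |Q| = |S z \ Q| ≤ |S z| - 1`, with equality iff `|S z ∩ Q| = 1`, then (b) is preserved (all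
`S z'` with `z' ∈ Z'` are in `Q` and meet `S z` only in `par z`). So `P(R)`. `∑ z ∈ Z_R, (|S z| - 1) = ∑ j ∈ R, deg j - |Z_R| ≤ Y(R) - |Z_R| =: τ` (`deg j` the number of
`z ∈ Z` with `j ∈ S z`, double counting) and `(p + 2) τ < (p + 1) |R|` gives `τ < |R|`. So we are in case (b) and everything is an equality: `τ = |R| - 1`, `deg j = y j` for
`j ∈ R`, `|S z| = 1` for the `z ∈ Z_R \ Z'` (extend `par` by the only element). `(p + 2) (|R| - 1) < (p + 1) |R|` gives `|R| ≤ p + 1`. -/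
def St_TR : Prop := ∀ (ι ζ : Type) [DecidableEq ι] [DecidableEq ζ] (I : Finset ι) (Z : Finset ζ) (S : ζ → Finset ι)
    (y : ι → ℕ) (t p : ℕ),
  (∀ z ∈ Z, S z ⊆ I) → (∀ z ∈ Z, (S z).Nonempty) → (∀ j ∈ I, (Z.filter (fun z => j ∈ S z)).card ≤ y j) →
  ∑ j ∈ I, y j = t + Z.card → (p + 2) * t < (p + 1) * I.card →
  ∃ (R : Finset ι) (j0 : ι) (par : ζ → ι), R ⊆ I ∧ R.card ≤ p + 1 ∧
    (∀ j ∈ R, (Z.filter (fun z => j ∈ S z)).card = y j) ∧
    Tree R (Z.filter (fun z => ∃ j ∈ R, j ∈ S z)) S j0 par ∧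
    ∑ j ∈ R, y j + 1 = R.card + (Z.filter (fun z => ∃ j ∈ R, j ∈ S z)).card

/-- (SU) The sum over a tree. PROOF. For every `z ∈ Z` we have `A * min (β z (par z)) A ≤ E z + A * ∑ l ∈ (S z).erase (par z), max (A - β z l) 0`: this is clear if
`β z (par z) = 0`; otherwise take `j ≠ l` in `S z` with `β j * β l ≤ E z`. If neither is `par z`: `β j β l + A (A - β j)⁺ + A (A - β l)⁺ ≥ A²` (both `≤ A`: the difference is
`(A - β j) (A - β l)`; one of them `≥ A`: clear). If `j = par z`: if `β l ≥ A` then `β j β l ≥ A β j`; otherwise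
`β j β l + A (A - β l) ≥ min (β j) A * (β l + (A - β l))`. Sum over `z ∈ Z`: `A * ∑ z, min (β z (par z)) A ≤ ∑ z, E z + A * ∑ l ∈ R.erase j0, max (A - β (z l) l) 0`, `z l` the
unique `z` with `l ∈ S z`, `l ≠ par z` (`Tree.cov`, `Tree.uniq`, `Tree.par_root`). For `j ∈ R`, `j ≠ j0`: the `z ≠ z j` with `j ∈ S z` have `par z = j`, so
`∑_{z, par z = j} min (β z j) A ≥ max (A - β (z j) j) 0` (one of the summands is `≥ A` or the sum is `≥ A - β (z j) j`), and `∑_{z, par z = j0} min (β z j0) A ≥ A`. -/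
def St_SU : Prop := ∀ (ι ζ : Type) [DecidableEq ι] [DecidableEq ζ] (R : Finset ι) (Z : Finset ζ) (S : ζ → Finset ι)
    (j0 : ι) (par : ζ → ι) (β : ζ → ι → ℝ) (E : ζ → ℝ) (A : ℝ),
  Tree R Z S j0 par → 0 ≤ A → (∀ z ∈ Z, ∀ j ∈ S z, 0 ≤ β z j) →
  (∀ z ∈ Z, 0 ≤ E z ∧ ((∀ j ∈ S z, β z j = 0) ∨ ∃ j ∈ S z, ∃ l ∈ S z, j ≠ l ∧ β z j * β z l ≤ E z)) →
  (∀ j ∈ R, A ≤ ∑ z ∈ Z.filter (fun z => j ∈ S z), β z j) →
  A * A ≤ ∑ z ∈ Z, E z

/-- (TV) Families without independent transversal have many cross edges. PROOF. If `N j = ∅` for some `j ∈ J`: if `J = {j}` the first alternative holds, otherwise take any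
`l ∈ J`, `l ≠ j`, the product is `0`. Otherwise all `N j` are nonempty and `J` has at least two elements (for `J = {j}` any element of `N j` is a transversal). Let `m` be the
minimum of `|N j| |N l|` over `j ≠ l ∈ J`. Every choice `T ∈ ∏ N j` (`Finset.pi` or `Fintype.piFinset` over the subtype) contains an adjacent pair, so
`∏ |N j| ≤ ∑ over unordered pairs {j, l} of e(N j, N l) ∏_{i ≠ j, l} |N i|`, i.e. `2 ∏ |N j| ≤ ∑ over ordered pairs (j, l) of e(N j, N l) ∏ |N i| / (|N j| |N l|) ≤ xe / m * ∏ |N i|`.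
(Another way: induction as in `transversal_aux` of `Pool/Agent/TwoDens/LinC.lean`.) -/
def St_TV : Prop := ∀ (V ι : Type) [DecidableEq V] [DecidableEq ι] (G : SimpleGraph V) [DecidableRel G.Adj]
    (J : Finset ι) (N : ι → Finset V), J.Nonempty → ¬ TRV G J N →
  (∃ j, J = {j} ∧ N j = ∅) ∨ ∃ j ∈ J, ∃ l ∈ J, j ≠ l ∧ 2 * ((N j).card * (N l).card) ≤ xe G J N

/-- (LG) Large sets can be left out. PROOF. Let `J = J1 ∪ J2`. For `q ∈ J2` let `N' q` be the set of the `u ∈ N q` with at most `τ` neighbours in `⋃_{l ∈ J, l ≠ q} N l`.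
The others have `≥ τ + 1`, so `(|N q| - |N' q|) (τ + 1) ≤ xe G J N ≤ E`, so `|N' q| > |J2| τ`. Choose `y q ∈ N' q` for the `q ∈ J2` one after another (induction over the subsets of `J2`)
not adjacent to the previous ones (each of them has at most `τ` neighbours in `N q`). Let `N'' j` be the set of the elements of `N j` that are not adjacent to any `y q`; `N j \ N'' j` has
at most `|J2| τ` elements. A transversal of `N'' j`, `j ∈ J1`, and the `y q` form one of `N`. -/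
def St_LG : Prop := ∀ (V ι : Type) [DecidableEq V] [DecidableEq ι] (G : SimpleGraph V) [DecidableRel G.Adj]
    (J1 J2 : Finset ι) (N : ι → Finset V) (E τ : ℕ), Disjoint J1 J2 →
  (∀ j ∈ J1 ∪ J2, ∀ l ∈ J1 ∪ J2, j ≠ l → Disjoint (N j) (N l)) →
  ¬ TRV G (J1 ∪ J2) N → xe G (J1 ∪ J2) N ≤ E →
  (∀ q ∈ J2, E + J2.card * τ * (τ + 1) < (N q).card * (τ + 1)) →
  ∃ N'' : ι → Finset V, (∀ j ∈ J1, N'' j ⊆ N j ∧ (N j).card ≤ (N'' j).card + J2.card * τ) ∧ ¬ TRV G J1 N''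

/-- (EC) Counting edges. PROOF. `F = ⋃ K j ∪ Z` (disjoint). The ordered adjacent pairs in `F`: inside `K j` there are `|K j| (|K j| - 1)`; for `z ∈ Z`, `j ∈ S z` and
`u ∈ K j` adjacent to `z` the two pairs `(z, u)`, `(u, z)`; and the pairs in `xe G (S z) (N z)` for `z ∈ Z`, they are pairs of elements of different `K j`, `K l` with `j, l ∈ S z`, by `hint` the same pair
does not occur for two different `z`. See `e2_union_full`, `e2_mono` in `Pool/Agent/UHX/DataA.lean`. -/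
def St_EC : Prop := ∀ (V : Type) [DecidableEq V] (G : SimpleGraph V) [DecidableRel G.Adj] (R Z : Finset V)
    (K S : V → Finset V) (N : V → V → Finset V),
  (∀ j ∈ R, ∀ l ∈ R, j ≠ l → Disjoint (K j) (K l)) → (∀ j ∈ R, Disjoint (K j) Z) →
  (∀ j ∈ R, ∀ u ∈ K j, ∀ v ∈ K j, u ≠ v → G.Adj u v) → (∀ z ∈ Z, S z ⊆ R) →
  (∀ z ∈ Z, ∀ z' ∈ Z, z ≠ z' → ∀ j ∈ S z, j ∈ S z' → ∀ l ∈ S z, l ∈ S z' → j = l) →
  (∀ z ∈ Z, ∀ j ∈ S z, N z j ⊆ K j) →
  ∑ j ∈ R, (K j).card * ((K j).card - 1) + 2 * ∑ z ∈ Z, ∑ j ∈ S z, ((K j).filter (G.Adj z)).card +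
    ∑ z ∈ Z, xe G (S z) (N z) ≤ e2 G (R.biUnion K ∪ Z)

/-- (DT) The data exist. PROOF. As the beginning of `half_data` in `Pool/Agent/UHX/Data.lean`: `T_thm (s - 1)` and `deg_of_T` give the condition on the degrees, then `struct_thm2 s t N`
(`Pool/Agent/UHX/StructG.lean`) with a large constant `N`, `P j = grp X h j`, `k ≤ |P j| + t`, `|P j| ≤ k` (`grp_le`), `∑ |P j| = |X|` (`sum_grp`). For `v ∈ X` let `cd v` be the number of `u ∈ X` adjacent to `v` with `h u ≠ h v`. `cross_le`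
(`Pool/Agent/TwoDens/Cross.lean`, `r` constant) gives `∑ v ∈ X, cd v ≤ C k` with `C = 2 s + 2 t + 2` (`∑ |P j|² ≥ s k² - 2 k t`).
`Z = {v ∈ X | k ≤ 4 cd v}`, so `|Z| ≤ 4 C =: B0`. `K j = P j \ Z`. `clq`: `u ≠ v ∈ K j` not adjacent, then the covering clause with `W = {u, v}`, `J = I.erase j` gives `l ≠ j` with
`|P l| ≤ Λ + cd u + cd v < Λ + k / 2`, a contradiction. `M = 4 (B0 + 1)`, `S z = {j ∈ I | M * |non G z (K j)| ≤ k}`; `h z ∈ S z` since `z` has at most `2 Λ` non-neighbours in `P (h z)`. `dg`: otherwise take `Z'' ⊆ {z ∈ Z | j ∈ S z}` with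
`|K j| + |Z''| = k + 1`; `F = K j ∪ Z''` has `m2 F ≤ 2 ∑ z ∈ Z'', |non G z (K j)| + |Z''|² ≤ 2 B0 k / M + B0² < k`, but `Sk` with `|F| = k + 1` and `e2_add_m2` give `k ≤ m2 F`. `M' = 2 s M`, `L j = {u ∈ K j | M' * cd u ≤ k}`; the number of the `v ∈ X` with
`k < M' * cd v` is at most `C M'`. `tr`: let `T` be a transversal for `z`; `W = {z} ∪ {T j | j ∈ S z}` is independent with `1 + |S z|` elements, `J = I \ S z`, `h w ∉ J` for `w ∈ W`
(`h z ∈ S z`, `h (T j) = j`); the covering clause gives `j ∈ J` with at most `Λ` elements of `P j` not adjacent to any element of `W`, so `|non G z (K j)| ≤ Λ + ∑ cd (T i) ≤ Λ + s k / M'` and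
`M |non G z (K j)| ≤ M Λ + k / 2 ≤ k`, so `j ∈ S z`, a contradiction. `xek`: `xe G I K ≤ ∑ v, cd v`. `B` is the maximum (or the sum) of `B0`, `C M'`, `C`. -/
def St_DT : Prop := ∀ s t : ℕ, 2 ≤ s → ∃ B K₀ : ℕ, ∀ k, K₀ ≤ k →
    ∀ (V : Type) [DecidableEq V] (G : SimpleGraph V) [DecidableRel G.Adj] (X : Finset V),
    Sk G k X → Al G s X → X.card + t = k * s →
    ∃ (I Z : Finset V) (K L S : V → Finset V), LD G k s B X I Z K L S

/-- (M2) The missing pairs at a clique `K` and outside vertices `Z`. PROOF. `Ha` for `F = K ∪ Z`, `|F| = k`, and `e2_add_m2` give `2 a ≤ m2 G F`; the ordered pairs of non-adjacent vertices are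
the `(z, u)`, `(u, z)` with `u ∈ non G z K` and pairs in `Z`. -/
def St_M2 : Prop := ∀ (V : Type) [DecidableEq V] (G : SimpleGraph V) [DecidableRel G.Adj] (k a : ℕ) (X K Z : Finset V),
  3 ≤ k → Ha G k a X → K ⊆ X → Z ⊆ X → Disjoint K Z → K.card + Z.card = k →
  (∀ u ∈ K, ∀ v ∈ K, u ≠ v → G.Adj u v) →
  2 * a ≤ 2 * ∑ z ∈ Z, (non G z K).card + Z.card * Z.card

/-- (FN) The lower bound. PROOF: see the file `Pool/Agent/LHA/FN.lean` (helper71). -/
def St_LOW : Prop := ∀ s t p : ℕ, 1 ≤ p → 2 ≤ s → (p + 2) * t < (p + 1) * s → ∃ C K₀ : ℕ, ∀ k, K₀ ≤ k → ∀ c : ℕ, p * k ≤ 2 * (c * c) →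
    2 * ((c - 1) * (c - 1)) ≤ p * k →
    ∀ (V : Type) [DecidableEq V] (G : SimpleGraph V) [DecidableRel G.Adj] (X : Finset V),
    Sk G k X → Al G s X → X.card + t = k * s → Ha G k (c + C) X → False

end Pool.Agent.LHA
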