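import Mathlib
import Pool.Agent.LHA.St

/-!
# Campaign LHA, module TV: families without an independent transversal have many cross edges
-/

set_option autoImplicit false

open Finset

namespace Pool.Agent.LHA

private lemma TV_avg {V : Type} (s : Finset V) (hs : s.Nonempty) (f : V → ℝ) :
    ∃ u ∈ s, f u ≤ (∑ v ∈ s, f v) / s.card := by
  apply Finset.exists_le_of_sum_le hs
  rw [sum_const, nsmul_eq_mul]
  have : (0 : ℝ) < s.card := by exact_mod_cast hs.card_pos
  rw [mul_div_cancel₀ _ this.ne']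

private lemma TV_ins {ι : Type} [DecidableEq ι] (F : ι → ι → ℝ) (a : ι) (J : Finset ι) (ha : a ∉ J) :
    ∑ j ∈ insert a J, ∑ l ∈ (insert a J).erase j, F j l =
      ∑ l ∈ J, (F a l + F l a) + ∑ j ∈ J, ∑ l ∈ J.erase j, F j l := by
  have e : ∑ j ∈ J, ∑ l ∈ (insert a J).erase j, F j l = ∑ j ∈ J, F j a + ∑ j ∈ J, ∑ l ∈ J.erase j, F j l := by
    rw [← sum_add_distrib]
    apply sum_congr rfl
    intro j hj
    have hja : a ≠ j := fun h => ha (h ▸ hj)
    rw [erase_insert_of_ne hja, sum_insert (by simp [ha])]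
  rw [sum_insert ha, erase_insert ha, e, sum_add_distrib, add_assoc]

private lemma TV_ch {V ι : Type} [DecidableEq ι] (w : V → V → ℝ) (N : ι → Finset V) (d : V) (J : Finset ι) :
    (∀ j ∈ J, (N j).Nonempty) → ∀ c : ι → V → ℝ, ∃ T : ι → V, (∀ j ∈ J, T j ∈ N j) ∧
      ∑ j ∈ J, c j (T j) + ∑ j ∈ J, ∑ l ∈ J.erase j, w (T j) (T l) ≤
        ∑ j ∈ J, (∑ u ∈ N j, c j u) / (N j).card +
          ∑ j ∈ J, ∑ l ∈ J.erase j, (∑ u ∈ N j, ∑ v ∈ N l, w u v) / ((N j).card * (N l).card) := by
  induction J using Finset.induction_on with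
  | empty => intro _ c; exact ⟨fun _ => d, by simp, by simp⟩
  | insert a J ha ih =>
    intro hN c
    have hNa : (N a).Nonempty := hN a (mem_insert_self a J)
    have hNJ : ∀ j ∈ J, (N j).Nonempty := fun j hj => hN j (mem_insert_of_mem hj)
    obtain ⟨u, hu, hu2⟩ := TV_avg (N a) hNa (fun u => c a u + ∑ l ∈ J, (∑ v ∈ N l, (w u v + w v u)) / (N l).card)
    obtain ⟨T, hT1, hT2⟩ := ih hNJ (fun j v => c j v + (w u v + w v u))
    refine ⟨Function.update T a u, ?_, ?_⟩
    · intro j hj
      rcases mem_insert.1 hj with rfl | hj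
      · simpa using hu
      · have hja : j ≠ a := fun h => ha (h ▸ hj)
        rw [Function.update_of_ne hja]
        exact hT1 j hj
    · rw [sum_insert ha, TV_ins (fun j l => w (Function.update T a u j) (Function.update T a u l)) a J ha, sum_insert ha,
        TV_ins (fun j l => (∑ u ∈ N j, ∑ v ∈ N l, w u v) / ((N j).card * (N l).card)) a J ha]
      have e1 : ∑ j ∈ J, c j (Function.update T a u j) = ∑ j ∈ J, c j (T j) := by
        apply sum_congr rfl
        intro j hj
        have hja : j ≠ a := fun h => ha (h ▸ hj)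
        rw [Function.update_of_ne hja]
      have e2 : ∑ l ∈ J, (w (Function.update T a u a) (Function.update T a u l) + w (Function.update T a u l) (Function.update T a u a)) =
          ∑ l ∈ J, (w u (T l) + w (T l) u) := by
        apply sum_congr rfl
        intro j hj
        have hja : j ≠ a := fun h => ha (h ▸ hj)
        rw [Function.update_of_ne hja, Function.update_self]
      have e3 : ∑ j ∈ J, ∑ l ∈ J.erase j, w (Function.update T a u j) (Function.update T a u l) =
          ∑ j ∈ J, ∑ l ∈ J.erase j, w (T j) (T l) := by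
        apply sum_congr rfl
        intro j hj
        apply sum_congr rfl
        intro l hl
        have hja : j ≠ a := fun h => ha (h ▸ hj)
        have hla : l ≠ a := fun h => ha (h ▸ mem_of_mem_erase hl)
        rw [Function.update_of_ne hja, Function.update_of_ne hla]
      rw [e1, e2, e3, Function.update_self]
      have e4 : ∑ j ∈ J, (c j (T j) + (w u (T j) + w (T j) u)) = ∑ j ∈ J, c j (T j) + ∑ l ∈ J, (w u (T l) + w (T l) u) :=
        sum_add_distrib
      have e5 : ∑ j ∈ J, (∑ v ∈ N j, (c j v + (w u v + w v u))) / ((N j).card : ℝ) =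
          ∑ j ∈ J, (∑ v ∈ N j, c j v) / ((N j).card : ℝ) + ∑ l ∈ J, (∑ v ∈ N l, (w u v + w v u)) / ((N l).card : ℝ) := by
        rw [← sum_add_distrib]
        apply sum_congr rfl
        intro j _
        rw [sum_add_distrib, add_div]
      have e6 : (∑ v ∈ N a, (c a v + ∑ l ∈ J, (∑ v' ∈ N l, (w v v' + w v' v)) / ((N l).card : ℝ))) / ((N a).card : ℝ) =
          (∑ v ∈ N a, c a v) / ((N a).card : ℝ) +
            ∑ l ∈ J, ((∑ u ∈ N a, ∑ v ∈ N l, w u v) / ((N a).card * (N l).card) +
              (∑ u ∈ N l, ∑ v ∈ N a, w u v) / ((N l).card * (N a).card)) := by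
        rw [sum_add_distrib, add_div]
        congr 1
        rw [sum_comm, sum_div]
        apply sum_congr rfl
        intro l _
        rw [← sum_div, div_div]
        have e7 : ∑ x ∈ N a, ∑ v' ∈ N l, (w x v' + w v' x) = ∑ u ∈ N a, ∑ v ∈ N l, w u v + ∑ u ∈ N l, ∑ v ∈ N a, w u v := by
          rw [sum_comm (s := N l) (t := N a), ← sum_add_distrib]
          apply sum_congr rfl
          intro x _
          rw [sum_add_distrib]
        rw [e7, add_div, mul_comm ((N l).card : ℝ) ((N a).card : ℝ)]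
      rw [e4, e5] at hT2
      rw [e6] at hu2
      linarith

/-- **TV** -/
theorem thm_TV : St_TV := by
  intro V ι _ _ G _ J N hJ hTR
  by_cases hemp : ∃ j ∈ J, N j = ∅
  · obtain ⟨j, hj, hj2⟩ := hemp
    by_cases h1 : J = {j}
    · exact Or.inl ⟨j, h1, hj2⟩
    · right
      obtain ⟨l, hl, hlj⟩ : ∃ l ∈ J, l ≠ j := by
        by_contra hc
        push Not at hc
        exact h1 (Finset.eq_singleton_iff_unique_mem.2 ⟨hj, hc⟩)
      refine ⟨j, hj, l, hl, hlj.symm, ?_⟩
      simp [hj2]
  · right
    have hN : ∀ j ∈ J, (N j).Nonempty := fun j hj => Finset.nonempty_iff_ne_empty.2 (fun h => hemp ⟨j, hj, h⟩)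
    obtain ⟨j0, hj0⟩ := hJ
    obtain ⟨d, hd⟩ := hN j0 hj0
    by_contra hc
    push Not at hc
    obtain ⟨T, hT1, hT2⟩ := TV_ch (fun u v => if G.Adj u v then (1 : ℝ) else 0) N d J hN (fun _ _ => 0)
    simp only [sum_const_zero, zero_div, zero_add] at hT2
    apply hTR
    refine ⟨T, hT1, ?_⟩
    intro p hp q hq hpq hadj
    -- the left side of `hT2` is at least 2
    have hL : (2 : ℝ) ≤ ∑ j ∈ J, ∑ l ∈ J.erase j, (if G.Adj (T j) (T l) then (1 : ℝ) else 0) := by
      have hnn : ∀ j ∈ J, 0 ≤ ∑ l ∈ J.erase j, (if G.Adj (T j) (T l) then (1 : ℝ) else 0) :=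
        fun j _ => sum_nonneg (fun l _ => by split_ifs <;> norm_num)
      have hge : ∀ a ∈ J, ∀ b ∈ J, a ≠ b → G.Adj (T a) (T b) → 1 ≤ ∑ l ∈ J.erase a, (if G.Adj (T a) (T l) then (1 : ℝ) else 0) := by
        intro a ha b hb hab hadj
        have h1 : (if G.Adj (T a) (T b) then (1 : ℝ) else 0) ≤ ∑ l ∈ J.erase a, (if G.Adj (T a) (T l) then (1 : ℝ) else 0) :=
          single_le_sum (f := fun l => if G.Adj (T a) (T l) then (1 : ℝ) else 0) (fun l _ => by
            show (0 : ℝ) ≤ if G.Adj (T a) (T l) then (1 : ℝ) else 0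
            split_ifs <;> norm_num) (mem_erase.2 ⟨hab.symm, hb⟩)
        rw [if_pos hadj] at h1
        exact h1
      have h1 : ∑ j ∈ ({p, q} : Finset ι), ∑ l ∈ J.erase j, (if G.Adj (T j) (T l) then (1 : ℝ) else 0) ≤
          ∑ j ∈ J, ∑ l ∈ J.erase j, (if G.Adj (T j) (T l) then (1 : ℝ) else 0) := by
        apply sum_le_sum_of_subset_of_nonneg
        · intro x hx
          rcases mem_insert.1 hx with rfl | hx
          · exact hp
          · rw [mem_singleton.1 hx]; exact hq
        · intro j hj _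
          exact hnn j hj
      rw [sum_pair hpq] at h1
      have h2 := hge p hp q hq hpq hadj
      have h3 := hge q hq p hp hpq.symm hadj.symm
      linarith
    -- the right side is less than 2
    have hxe : ∀ j l, (∑ u ∈ N j, ∑ v ∈ N l, if G.Adj u v then (1 : ℝ) else 0) = ((∑ u ∈ N j, ((N l).filter (G.Adj u)).card : ℕ) : ℝ) := by
      intro j l
      push_cast
      apply sum_congr rfl
      intro u _
      rw [Finset.sum_boole]
    have hX : ((xe G J N : ℕ) : ℝ) = ∑ j ∈ J, ∑ l ∈ J.erase j, ((∑ u ∈ N j, ((N l).filter (G.Adj u)).card : ℕ) : ℝ) := by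
      unfold xe
      push_cast
      rfl
    have hR : ∑ j ∈ J, ∑ l ∈ J.erase j, (∑ u ∈ N j, ∑ v ∈ N l, if G.Adj u v then (1 : ℝ) else 0) / ((N j).card * (N l).card) < 2 := by
      rcases Nat.eq_zero_or_pos (xe G J N) with h0 | hpos
      · have : ∑ j ∈ J, ∑ l ∈ J.erase j, (∑ u ∈ N j, ∑ v ∈ N l, if G.Adj u v then (1 : ℝ) else 0) / ((N j).card * (N l).card) = 0 := by
          apply sum_eq_zero
          intro j hj
          apply sum_eq_zero
          intro l hl
          have h1 : ∑ u ∈ N j, ((N l).filter (G.Adj u)).card = 0 := by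
            unfold xe at h0
            exact (sum_eq_zero_iff.1 ((sum_eq_zero_iff.1 h0) j hj)) l hl
          rw [hxe, h1]
          simp
        rw [this]
        norm_num
      · have hposR : (0 : ℝ) < (xe G J N : ℕ) := by exact_mod_cast hpos
        have hlt : ∀ j ∈ J, ∀ l ∈ J.erase j,
            (∑ u ∈ N j, ∑ v ∈ N l, if G.Adj u v then (1 : ℝ) else 0) / ((N j).card * (N l).card) ≤
              ((∑ u ∈ N j, ((N l).filter (G.Adj u)).card : ℕ) : ℝ) * (2 / (xe G J N + 1 : ℝ)) := by
          intro j hj l hl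
          rw [hxe]
          rw [div_eq_mul_inv]
          apply mul_le_mul_of_nonneg_left _ (Nat.cast_nonneg _)
          have h1 := hc j hj l (mem_of_mem_erase hl) (ne_of_mem_erase hl).symm
          have h2 : ((xe G J N : ℕ) : ℝ) + 1 ≤ 2 * ((N j).card * (N l).card) := by exact_mod_cast h1
          rw [inv_eq_one_div, div_le_div_iff₀ (by nlinarith) (by linarith)]
          linarith
        calc ∑ j ∈ J, ∑ l ∈ J.erase j, (∑ u ∈ N j, ∑ v ∈ N l, if G.Adj u v then (1 : ℝ) else 0) / ((N j).card * (N l).card)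
            ≤ ∑ j ∈ J, ∑ l ∈ J.erase j, ((∑ u ∈ N j, ((N l).filter (G.Adj u)).card : ℕ) : ℝ) * (2 / (xe G J N + 1 : ℝ)) :=
              sum_le_sum (fun j hj => sum_le_sum (fun l hl => hlt j hj l hl))
          _ = (xe G J N : ℕ) * (2 / (xe G J N + 1 : ℝ)) := by
              rw [hX, sum_mul]
              apply sum_congr rfl
              intro j _
              rw [sum_mul]
          _ < 2 := by
              rw [mul_div_assoc', div_lt_iff₀ (by linarith)]
              linarith
    linarith

end Pool.Agent.LHA
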