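import Pool.Agent.LHA.StU

/-!
# Campaign LHA, module UA: the arithmetic of the upper bound
-/

set_option autoImplicit false

open Finset

namespace Pool.Agent.LHA

open Pool.Agent.BKU

private theorem UA_mm (k : ℕ) (ν X : ℝ) (n : ℕ) (h0 : n = 0 → 0 ≤ X)
    (h1 : n = 1 → (k : ℝ) + 1 - ν ≤ X) (h2 : 2 ≤ n → 2 * (k : ℝ) - 2 * ν ≤ X) : mm k ν n ≤ X := by
  unfold mm
  split_ifs with q0 q1
  · exact h0 q0
  · exact h1 q1
  · exact h2 (by omega)

private theorem UA_1 (K ν : ℝ) (x : ℕ) (hν : ν ≤ 1) (hx : 1 ≤ x) (hx2 : (x : ℝ) ≤ K - 1) :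
    K + 1 - ν ≤ (x : ℝ) * (K + 2 - x - ν) := by
  have h1 : (1 : ℝ) ≤ x := by exact_mod_cast hx
  have h2 : 0 ≤ ((x : ℝ) - 1) * (K + 1 - ν - x) := mul_nonneg (by linarith) (by linarith)
  have h3 : ((x : ℝ) - 1) * (K + 1 - ν - x) = (x : ℝ) * (K + 2 - x - ν) - (K + 1 - ν) := by ring
  linarith

private theorem UA_2 (K ν : ℝ) (x : ℕ) (hν : ν ≤ 1) (hx : 2 ≤ x) (hx2 : (x : ℝ) ≤ K - 1) :
    2 * K - 2 * ν ≤ (x : ℝ) * (K + 2 - x - ν) := by
  have h1 : (2 : ℝ) ≤ x := by exact_mod_cast hx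
  have h2 : 0 ≤ ((x : ℝ) - 2) * (K - ν - x) := mul_nonneg (by linarith) (by linarith)
  have h3 : ((x : ℝ) - 2) * (K - ν - x) = (x : ℝ) * (K + 2 - x - ν) - (2 * K - 2 * ν) := by ring
  linarith

private theorem UA_3 (k : ℕ) (ν a : ℝ) (x y : ℕ) (hk : 2 ≤ k) (hν : ν ≤ 1)
    (hν2 : ν * ((k : ℝ) - 2) = 2 * a) (hx : 1 ≤ x) (hx2 : x ≤ k - 1)
    (hxy : (x : ℝ) + a ≤ k - 1 + y) :
    (k : ℝ) - 1 - ν ≤ (x : ℝ) * (k + 2 - x - ν) - 2 * ((x : ℝ) - y) := by
  have h1 : (1 : ℝ) ≤ x := by exact_mod_cast hx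
  have hy : (0 : ℝ) ≤ y := Nat.cast_nonneg _
  have h3 : ((x : ℝ) - 1) * (k - 1 - ν - x) + 2 * y =
      (x : ℝ) * (k + 2 - x - ν) - 2 * ((x : ℝ) - y) - ((k : ℝ) - 1 - ν) := by ring
  have h4 : 0 ≤ ((x : ℝ) - 1) * (k - 1 - ν - x) + 2 * y := by
    rcases Nat.lt_or_ge x (k - 1) with h | h
    · have h5 : (x : ℝ) + 2 ≤ k := by
        have : x + 2 ≤ k := by omega
        exact_mod_cast this
      have h6 : 0 ≤ ((x : ℝ) - 1) * (k - 1 - ν - x) := mul_nonneg (by linarith) (by linarith)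
      linarith
    · have h5 : x + 1 = k := by omega
      have h6 : (k : ℝ) = x + 1 := by exact_mod_cast h5.symm
      have h7 : ((x : ℝ) - 1) * (k - 1 - ν - x) = -(ν * ((k : ℝ) - 2)) := by
        rw [h6]
        ring
      rw [h7, hν2]
      rw [h6] at hxy
      linarith
  linarith

theorem thm_UA : St_UA := by
  intro k p c hp hc hk1 hk2 γ f0 g0 f g h hP
  obtain ⟨hγ1, hf0k, hg0f, hg0c, hfg0, hfk, hgf, hgc, hfg, hhc, hhs⟩ := hP
  have hpc : 1 ≤ p * c := Nat.mul_pos hp hc
  have hkR : 4 * ((p * c : ℕ) : ℝ) + 8 ≤ (k : ℝ) := by exact_mod_cast hk2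
  have haR : (1 : ℝ) ≤ ((p * c : ℕ) : ℝ) := by exact_mod_cast hpc
  have hK2 : (0 : ℝ) < (k : ℝ) - 2 := by linarith
  set ν := mu k (p * c) with hνdef
  have hν2 : ν * ((k : ℝ) - 2) = 2 * ((p * c : ℕ) : ℝ) := by
    rw [hνdef]
    unfold mu
    exact div_mul_cancel₀ _ (ne_of_gt hK2)
  have hν0 : 0 < ν := by
    rw [hνdef]
    unfold mu
    exact div_pos (by linarith) hK2
  have hν1 : ν ≤ 1 / 2 := by
    by_contra hcon
    push Not at hcon
    have : 1 / 2 * ((k : ℝ) - 2) < ν * ((k : ℝ) - 2) := mul_lt_mul_of_pos_right hcon hK2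
    linarith
  have hν1' : ν ≤ 1 := by linarith
  have hcast : ∀ x : ℕ, x ≤ k - 1 → (x : ℝ) ≤ (k : ℝ) - 1 := by
    intro x hx
    have h1 : x + 1 ≤ k := by omega
    have h2 : ((x + 1 : ℕ) : ℝ) ≤ (k : ℝ) := by exact_mod_cast h1
    push_cast at h2
    linarith
  have hg1 : ∀ x : ℕ, 1 ≤ x → x ≤ k - 1 → (k : ℝ) + 1 - ν ≤ (x : ℝ) * (k + 2 - x - ν) :=
    fun x h1 h2 => UA_1 k ν x hν1' h1 (hcast x h2)
  have hg2 : ∀ x : ℕ, 2 ≤ x → x ≤ k - 1 → 2 * (k : ℝ) - 2 * ν ≤ (x : ℝ) * (k + 2 - x - ν) :=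
    fun x h1 h2 => UA_2 k ν x hν1' h1 (hcast x h2)
  have hg3 : ∀ x y : ℕ, 1 ≤ x → x ≤ k - 1 → x + p * c ≤ k - 1 + y →
      (k : ℝ) - 1 - ν ≤ (x : ℝ) * (k + 2 - x - ν) - 2 * ((x : ℝ) - y) := by
    intro x y h1 h2 h3
    refine UA_3 k ν ((p * c : ℕ) : ℝ) x y (by omega) hν1' hν2 h1 h2 ?_
    have h4 : x + p * c + 1 ≤ k + y := by omega
    have h5 : ((x + p * c + 1 : ℕ) : ℝ) ≤ ((k + y : ℕ) : ℝ) := by exact_mod_cast h4
    push_cast at h5 ⊢
    linarith
  have hhg : ∀ i, 2 * ((h i : ℝ) * g i) ≤ (k : ℝ) - 1 - ν := by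
    intro i
    have h1 : h i * g i ≤ c * (p * c) := Nat.mul_le_mul (hhc i) (hgc i)
    have h2 : c * (p * c) = p * (c * c) := by ring
    have h3 : 2 * (h i * g i) + 2 ≤ k := by
      rw [h2] at h1
      omega
    have h4 : ((2 * (h i * g i) + 2 : ℕ) : ℝ) ≤ (k : ℝ) := by exact_mod_cast h3
    push_cast at h4
    linarith
  have hhg0 : ∀ i, 0 ≤ (h i : ℝ) * g i := fun i => mul_nonneg (Nat.cast_nonneg _) (Nat.cast_nonneg _)
  -- the sum
  have hsum : ∑ i, ((f i : ℝ) * (k + 2 - f i - ν) - 2 * γ * ((f i : ℝ) - g i) -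
        2 * ((h i : ℝ) * g i)) =
      (k + 1 - ν) * ∑ i, (f i : ℝ) - ∑ i, ((f i : ℝ) * f i - f i) -
        2 * γ * ∑ i, ((f i : ℝ) - g i) - 2 * ∑ i, (h i : ℝ) * g i := by
    rw [Finset.mul_sum, Finset.mul_sum, Finset.mul_sum, ← Finset.sum_sub_distrib,
      ← Finset.sum_sub_distrib, ← Finset.sum_sub_distrib]
    exact Finset.sum_congr rfl fun i _ => by ring
  have key : mm k ν (γ + f0 + ∑ i, f i) ≤ (k + 1 - ν) * γ +
      ((f0 : ℝ) * (k + 2 - f0 - ν) - 2 * γ * ((f0 : ℝ) - g0)) +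
      ∑ i, ((f i : ℝ) * (k + 2 - f i - ν) - 2 * γ * ((f i : ℝ) - g i) -
        2 * ((h i : ℝ) * g i)) := by
    rcases (show γ = 0 ∨ γ = 1 by omega) with hγ | hγ
    · -- z is not in the set
      subst hγ
      have ht : ∀ i, (f i : ℝ) * (k + 2 - f i - ν) - 2 * ((0 : ℕ) : ℝ) * ((f i : ℝ) - g i) -
          2 * ((h i : ℝ) * g i) = (f i : ℝ) * (k + 2 - f i - ν) - 2 * ((h i : ℝ) * g i) := by
        intro i
        push_cast
        ring
      have ht0 : ∀ i, 0 ≤ (f i : ℝ) * (k + 2 - f i - ν) - 2 * ((0 : ℕ) : ℝ) * ((f i : ℝ) - g i) -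
          2 * ((h i : ℝ) * g i) := by
        intro i
        rw [ht i]
        rcases Nat.eq_zero_or_pos (f i) with h0 | h0
        · have h1 : g i = 0 := by
            have := hgf i
            omega
          rw [h0, h1]
          push_cast
          linarith
        · have h1 := hg1 (f i) h0 (hfk i)
          have h2 := hhg i
          linarith
      have hz0 : (k + 1 - ν) * ((0 : ℕ) : ℝ) +
          ((f0 : ℝ) * (k + 2 - f0 - ν) - 2 * ((0 : ℕ) : ℝ) * ((f0 : ℝ) - g0)) =
          (f0 : ℝ) * (k + 2 - f0 - ν) := by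
        push_cast
        ring
      rw [hz0]
      have hS0 : 0 ≤ ∑ i, ((f i : ℝ) * (k + 2 - f i - ν) - 2 * ((0 : ℕ) : ℝ) * ((f i : ℝ) - g i) -
          2 * ((h i : ℝ) * g i)) := Finset.sum_nonneg fun i _ => ht0 i
      have hSi : ∀ j, (f j : ℝ) * (k + 2 - f j - ν) - 2 * ((h j : ℝ) * g j) ≤
          ∑ i, ((f i : ℝ) * (k + 2 - f i - ν) - 2 * ((0 : ℕ) : ℝ) * ((f i : ℝ) - g i) -
          2 * ((h i : ℝ) * g i)) := by
        intro j
        rw [← ht j]
        exact Finset.single_le_sum (f := fun i => (f i : ℝ) * (k + 2 - f i - ν) -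
          2 * ((0 : ℕ) : ℝ) * ((f i : ℝ) - g i) - 2 * ((h i : ℝ) * g i))
          (fun i _ => ht0 i) (Finset.mem_univ j)
      rcases (show f0 = 0 ∨ f0 = 1 ∨ 2 ≤ f0 by omega) with h0 | h0 | h0
      · -- `f0 = 0`
        have hg00 : g0 = 0 := by omega
        have hh0 : ∀ i, h i = 0 := by
          intro i
          have h1 : h i ≤ ∑ j, h j := Finset.single_le_sum (f := h) (fun _ _ => Nat.zero_le _)
            (Finset.mem_univ i)
          omega
        have hf00 : (f0 : ℝ) * (k + 2 - f0 - ν) = 0 := by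
          rw [h0]
          push_cast
          ring
        rw [hf00]
        have hSi' : ∀ j, (f j : ℝ) * (k + 2 - f j - ν) ≤
            ∑ i, ((f i : ℝ) * (k + 2 - f i - ν) - 2 * ((0 : ℕ) : ℝ) * ((f i : ℝ) - g i) -
            2 * ((h i : ℝ) * g i)) := by
          intro j
          have h1 := hSi j
          rw [hh0 j] at h1
          push_cast at h1 ⊢
          linarith
        refine UA_mm k ν _ _ (fun _ => hS0.trans_eq (zero_add _).symm) ?_ ?_
        · intro hN
          have h1 : ∃ i, f i ≠ 0 := by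
            by_contra hcon
            push Not at hcon
            have h2 : ∑ i, f i = 0 := Finset.sum_eq_zero fun i _ => hcon i
            omega
          obtain ⟨i, hi⟩ := h1
          exact ((hg1 (f i) (by omega) (hfk i)).trans (hSi' i)).trans_eq (zero_add _).symm
        · intro hN
          have h1 : ∃ i, f i ≠ 0 := by
            by_contra hcon
            push Not at hcon
            have h2 : ∑ i, f i = 0 := Finset.sum_eq_zero fun i _ => hcon i
            omega
          obtain ⟨i, hi⟩ := h1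
          rcases (show f i = 1 ∨ 2 ≤ f i by omega) with hi1 | hi2
          · have h2 : f i + ∑ j ∈ univ.erase i, f j = ∑ j, f j :=
              Finset.add_sum_erase univ f (Finset.mem_univ i)
            have h3 : ∃ j ∈ univ.erase i, f j ≠ 0 := by
              by_contra hcon
              push Not at hcon
              have h4 : ∑ j ∈ univ.erase i, f j = 0 := Finset.sum_eq_zero hcon
              omega
            obtain ⟨j, hj, hj0⟩ := h3
            have h5 := Finset.add_sum_erase univ (fun i => (f i : ℝ) * (k + 2 - f i - ν) -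
              2 * ((0 : ℕ) : ℝ) * ((f i : ℝ) - g i) - 2 * ((h i : ℝ) * g i)) (Finset.mem_univ i)
            have h6 := Finset.single_le_sum (s := univ.erase i)
              (f := fun i => (f i : ℝ) * (k + 2 - f i - ν) -
              2 * ((0 : ℕ) : ℝ) * ((f i : ℝ) - g i) - 2 * ((h i : ℝ) * g i))
              (fun i _ => ht0 i) hj
            beta_reduce at h5 h6
            rw [← h5, ht i]
            rw [ht j] at h6
            rw [hh0 j] at h6
            rw [hh0 i]
            have h7 := hg1 (f i) (by omega) (hfk i)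
            have h8 := hg1 (f j) (by omega) (hfk j)
            push_cast at h6 ⊢
            linarith
          · exact ((hg2 (f i) hi2 (hfk i)).trans (hSi' i)).trans_eq (zero_add _).symm
      · -- `f0 = 1`
        have hf01 : (f0 : ℝ) * (k + 2 - f0 - ν) = k + 1 - ν := by
          rw [h0]
          push_cast
          ring
        rw [hf01]
        refine UA_mm k ν _ _ (fun hN => by omega) (fun _ => by linarith) ?_
        intro hN
        have h1 : ∃ i, f i ≠ 0 := by
          by_contra hcon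
          push Not at hcon
          have h2 : ∑ i, f i = 0 := Finset.sum_eq_zero fun i _ => hcon i
          omega
        obtain ⟨i, hi⟩ := h1
        have hh1 : h i ≤ 1 := by
          have h1 : h i ≤ ∑ j, h j := Finset.single_le_sum (f := h) (fun _ _ => Nat.zero_le _)
            (Finset.mem_univ i)
          omega
        have h3 : (h i : ℝ) * g i ≤ g i := by
          have h4 : h i * g i ≤ 1 * g i := Nat.mul_le_mul_right _ hh1
          rw [one_mul] at h4
          exact_mod_cast h4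
        have h5 := hSi i
        rcases (show f i = 1 ∨ 2 ≤ f i by omega) with hi1 | hi2
        · have h6 := hg1 (f i) (by omega) (hfk i)
          have h7 : (g i : ℝ) ≤ 1 := by
            have := hgf i
            have h8 : g i ≤ 1 := by omega
            exact_mod_cast h8
          linarith
        · have h6 := hg2 (f i) hi2 (hfk i)
          have h7 : (g i : ℝ) ≤ ((p * c : ℕ) : ℝ) := by exact_mod_cast hgc i
          linarith
      · -- `2 ≤ f0`
        refine UA_mm k ν _ _ (fun hN => by omega) (fun hN => by omega) ?_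
        intro _
        have h1 := hg2 f0 h0 hf0k
        linarith
    · -- z is in the set
      subst hγ
      have ht : ∀ i, (f i : ℝ) * (k + 2 - f i - ν) - 2 * ((1 : ℕ) : ℝ) * ((f i : ℝ) - g i) -
          2 * ((h i : ℝ) * g i) =
          (f i : ℝ) * (k + 2 - f i - ν) - 2 * ((f i : ℝ) - g i) - 2 * ((h i : ℝ) * g i) := by
        intro i
        push_cast
        ring
      have ht0 : ∀ i, 0 ≤ (f i : ℝ) * (k + 2 - f i - ν) - 2 * ((1 : ℕ) : ℝ) * ((f i : ℝ) - g i) -
          2 * ((h i : ℝ) * g i) := by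
        intro i
        rw [ht i]
        rcases Nat.eq_zero_or_pos (f i) with h0 | h0
        · have h1 : g i = 0 := by
            have := hgf i
            omega
          rw [h0, h1]
          push_cast
          linarith
        · have h1 := hg3 (f i) (g i) h0 (hfk i) (hfg i)
          have h2 := hhg i
          linarith
      have hz0 : (k + 1 - ν) * ((1 : ℕ) : ℝ) +
          ((f0 : ℝ) * (k + 2 - f0 - ν) - 2 * ((1 : ℕ) : ℝ) * ((f0 : ℝ) - g0)) =
          (k + 1 - ν) + ((f0 : ℝ) * (k + 2 - f0 - ν) - 2 * ((f0 : ℝ) - g0)) := by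
        push_cast
        ring
      rw [hz0]
      have hS0 : 0 ≤ ∑ i, ((f i : ℝ) * (k + 2 - f i - ν) - 2 * ((1 : ℕ) : ℝ) * ((f i : ℝ) - g i) -
          2 * ((h i : ℝ) * g i)) := Finset.sum_nonneg fun i _ => ht0 i
      rcases Nat.eq_zero_or_pos f0 with h0 | h0
      · have hg00 : g0 = 0 := by omega
        have hh0 : ∀ i, h i = 0 := by
          intro i
          have h1 : h i ≤ ∑ j, h j := Finset.single_le_sum (f := h) (fun _ _ => Nat.zero_le _)
            (Finset.mem_univ i)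
          omega
        have hf00 : (f0 : ℝ) * (k + 2 - f0 - ν) - 2 * ((f0 : ℝ) - g0) = 0 := by
          rw [h0, hg00]
          push_cast
          ring
        rw [hf00, add_zero]
        refine UA_mm k ν _ _ (fun hN => by omega) (fun _ => by linarith) ?_
        intro hN
        have h1 : ∃ i, f i ≠ 0 := by
          by_contra hcon
          push Not at hcon
          have h2 : ∑ i, f i = 0 := Finset.sum_eq_zero fun i _ => hcon i
          omega
        obtain ⟨i, hi⟩ := h1
        have h5 := Finset.single_le_sum (s := (univ : Finset (Fin p)))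
          (f := fun i => (f i : ℝ) * (k + 2 - f i - ν) -
          2 * ((1 : ℕ) : ℝ) * ((f i : ℝ) - g i) - 2 * ((h i : ℝ) * g i))
          (fun i _ => ht0 i) (Finset.mem_univ i)
        beta_reduce at h5
        rw [ht i] at h5
        rw [hh0 i] at h5
        have h6 := hg3 (f i) (g i) (by omega) (hfk i) (hfg i)
        push_cast at h5 ⊢
        linarith
      · refine UA_mm k ν _ _ (fun hN => by omega) (fun hN => ?_) ?_
        · have h6 := hg3 f0 g0 h0 hf0k hfg0
          linarith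
        · intro _
          have h6 := hg3 f0 g0 h0 hf0k hfg0
          linarith
  rw [hsum] at key
  have hcastN : ((γ + f0 + ∑ i, f i : ℕ) : ℝ) = γ + f0 + ∑ i, (f i : ℝ) := by
    push_cast
    ring
  rw [hcastN]
  have e1 : (k + 1 - ν) * ((γ : ℝ) + f0 + ∑ i, (f i : ℝ)) =
      (k + 1 - ν) * γ + (k + 1 - ν) * f0 + (k + 1 - ν) * ∑ i, (f i : ℝ) := by ring
  have e2 : (f0 : ℝ) * (k + 2 - f0 - ν) = (k + 1 - ν) * f0 - ((f0 : ℝ) * f0 - f0) := by ring
  have e3 : 2 * (γ : ℝ) * (((f0 : ℝ) - g0) + ∑ i, ((f i : ℝ) - g i)) =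
      2 * γ * ((f0 : ℝ) - g0) + 2 * γ * ∑ i, ((f i : ℝ) - g i) := by ring
  rw [e1, e3]
  rw [e2] at key
  linarith

end Pool.Agent.LHA
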