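import Pool.Agent.LHA.StU

/-!
# Campaign LHA (MP_303581_co): the edges of the graph `gr`
-/

set_option autoImplicit false

open Finset

namespace Pool.Agent.LHA

open Pool.Agent.BKU

open Classical in
private theorem UE_cnt {m : ℕ} (F : Finset (Fin m)) (p : Fin m → Prop) (a b : ℕ)
    (hp : ∀ x ∈ F, p x → a ≤ x.val ∧ x.val < b) : ct F p ≤ b - a := by
  unfold ct
  have h1 : (F.filter p).image Fin.val ⊆ Finset.Ico a b := by
    intro y hy
    obtain ⟨x, hx, rfl⟩ := Finset.mem_image.1 hy
    obtain ⟨hx1, hx2⟩ := Finset.mem_filter.1 hx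
    exact Finset.mem_Ico.2 (hp x hx1 hx2)
  have h2 := Finset.card_le_card h1
  rw [Finset.card_image_of_injective _ Fin.val_injective, Nat.card_Ico] at h2
  exact h2

open Classical in
private theorem UE_add {V : Type} (F : Finset V) (p q : V → Prop) (h : ∀ x, q x ↔ ¬ p x) :
    ct F p + ct F q = F.card := by
  unfold ct
  have e : F.filter q = F.filter fun x => ¬ p x := Finset.filter_congr fun x _ => h x
  rw [e]
  exact Finset.card_filter_add_card_filter_not p

open Classical in
private theorem UE_le {V : Type} (F : Finset V) (p : V → Prop) : ct F p ≤ F.card :=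
  Finset.card_filter_le _ _

open Classical in
/-- counting in a disjoint sum -/
private theorem UE_sum {X Y : Type} [Fintype X] [Fintype Y] (F : Finset (X ⊕ Y)) (q : X ⊕ Y → Prop) :
    ct F q = ct (pL F) (fun x => q (Sum.inl x)) + ct (pR F) (fun y => q (Sum.inr y)) := by
  have hF : (pL F).disjSum (pR F) = F := by
    ext x
    rcases x with a | b
    · simp [pL]
    · simp [pR]
  have h1 : F.filter q = ((pL F).filter fun x => q (Sum.inl x)).disjSum ((pR F).filter fun y => q (Sum.inr y)) := by
    ext x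
    rcases x with a | b
    · simp [pL]
    · simp [pR]
  unfold ct
  rw [h1, card_disjSum]

open Classical in
/-- the intervals of length `c` -/
private theorem UE_int {m p c : ℕ} (hc : 1 ≤ c) (D : Finset (Fin m)) :
    ∑ i : Fin p, ct D (fun b => i.val * c ≤ b.val ∧ b.val < (i.val + 1) * c) = ct D (fun b => b.val < p * c) := by
  unfold ct
  rw [← card_biUnion]
  · congr 1
    ext b
    simp only [mem_biUnion, mem_univ, true_and, mem_filter]
    constructor
    · rintro ⟨i, hb, _, h2⟩
      refine ⟨hb, lt_of_lt_of_le h2 (Nat.mul_le_mul_right _ i.isLt)⟩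
    · rintro ⟨hb, h⟩
      have h1 : b.val / c < p := Nat.div_lt_of_lt_mul (by rw [Nat.mul_comm]; exact h)
      refine ⟨⟨b.val / c, h1⟩, hb, Nat.div_mul_le_self _ _, ?_⟩
      show b.val < (b.val / c + 1) * c
      exact Nat.lt_mul_of_div_lt (Nat.lt_succ_self _) (by omega)
  · intro i _ j _ hij
    rw [Function.onFun, disjoint_left]
    intro b hb hb'
    simp only [mem_filter] at hb hb'
    apply hij
    apply Fin.ext
    obtain ⟨_, h1, h2⟩ := hb
    obtain ⟨_, h3, h4⟩ := hb'
    rcases Nat.lt_trichotomy i.val j.val with h | h | h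
    · exfalso
      have h5 : (i.val + 1) * c ≤ j.val * c := Nat.mul_le_mul_right _ h
      omega
    · exact h
    · exfalso
      have h5 : (j.val + 1) * c ≤ i.val * c := Nat.mul_le_mul_right _ h
      omega

open Classical in
private theorem UE_swap {m p c : ℕ} (D : Finset (Fin m)) (S : Fin p → Finset (Fin m)) :
    ∑ b ∈ D, ∑ i : Fin p, (ct (S i) (fun w => i.val * c ≤ b.val ∧ b.val < (i.val + 1) * c ∧ w.val < p * c) : ℝ) =
      ∑ i : Fin p, (ct D (fun b => i.val * c ≤ b.val ∧ b.val < (i.val + 1) * c) : ℝ) *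
        (ct (S i) (fun w => w.val < p * c) : ℝ) := by
  rw [sum_comm]
  apply sum_congr rfl
  intro i _
  have h1 : ∀ b : Fin m, (ct (S i) (fun w => i.val * c ≤ b.val ∧ b.val < (i.val + 1) * c ∧ w.val < p * c) : ℝ) =
      (if i.val * c ≤ b.val ∧ b.val < (i.val + 1) * c then (1 : ℝ) else 0) * (ct (S i) (fun w => w.val < p * c) : ℝ) := by
    intro b
    split_ifs with h
    · rw [one_mul]
      have e : (fun w : Fin m => i.val * c ≤ b.val ∧ b.val < (i.val + 1) * c ∧ w.val < p * c) =
          fun w : Fin m => w.val < p * c := by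
        funext w
        apply propext
        constructor
        · rintro ⟨_, _, h3⟩
          exact h3
        · intro h3
          exact ⟨h.1, h.2, h3⟩
      rw [e]
    · rw [zero_mul]
      have e : (fun w : Fin m => i.val * c ≤ b.val ∧ b.val < (i.val + 1) * c ∧ w.val < p * c) =
          fun _ : Fin m => False := by
        funext w
        apply propext
        constructor
        · rintro ⟨h1, h2, _⟩
          exact h ⟨h1, h2⟩
        · exact False.elim
      rw [e]
      unfold ct
      simp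
  rw [sum_congr rfl fun b _ => h1 b, ← sum_mul]
  congr 1
  rw [sum_boole]
  unfold ct
  congr 2
  ext x
  simp only [mem_filter]

theorem thm_UE : St_UE := by
  intro hJN hCP hST k p c hc hpk F
  obtain ⟨a1, a2⟩ := hJN Unit _ (⊤ : SimpleGraph Unit) (gH k p c) (fun _ y => gz k p c y) F
  obtain ⟨b1, b2⟩ := hJN (Fin (k - 1)) (Fin p × Fin (k - 1)) (⊤ : SimpleGraph (Fin (k - 1)))
    (cp (Fin p) (⊤ : SimpleGraph (Fin (k - 1))))
    (fun b y => y.1.val * c ≤ b.val ∧ b.val < (y.1.val + 1) * c ∧ y.2.val < p * c) (pR F)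
  obtain ⟨c1, c2, c3⟩ := hCP (Fin p) (Fin (k - 1)) (⊤ : SimpleGraph (Fin (k - 1))) (pR (pR F))
  have hT := hST.1
  have hγ : (pL F).card ≤ 1 := by
    have := card_le_univ (pL F)
    rw [Fintype.card_unit] at this
    exact this
  have hfin : ∀ S : Finset (Fin (k - 1)), S.card ≤ k - 1 := by
    intro S
    have := card_le_univ S
    rw [Fintype.card_fin] at this
    exact this
  have hlow : ∀ S : Finset (Fin (k - 1)), ct S (fun x => x.val < p * c) ≤ p * c := by
    intro S
    have := UE_cnt S (fun x => x.val < p * c) 0 (p * c) (fun x _ hx => ⟨Nat.zero_le _, hx⟩)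
    omega
  have hadd : ∀ S : Finset (Fin (k - 1)), ct S (fun x => x.val < p * c) + ct S (fun x => p * c ≤ x.val) = S.card := by
    intro S
    exact UE_add S (fun x => x.val < p * c) (fun x => p * c ≤ x.val) (fun x => by omega)
  have hupp : ∀ S : Finset (Fin (k - 1)), S.card + p * c ≤ k - 1 + ct S (fun x => x.val < p * c) := by
    intro S
    have h1 := UE_cnt S (fun x => p * c ≤ x.val) (p * c) (k - 1) (fun x _ hx => ⟨hx, x.isLt⟩)
    have h2 := hadd S
    omega
  have haddR : ∀ S : Finset (Fin (k - 1)), (ct S (fun x => p * c ≤ x.val) : ℝ) =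
      (S.card : ℝ) - ct S (fun x => x.val < p * c) := by
    intro S
    have h2 := hadd S
    have h3 : (ct S (fun x => x.val < p * c) : ℝ) + (ct S (fun x => p * c ≤ x.val) : ℝ) = S.card := by
      exact_mod_cast h2
    linarith
  refine ⟨(pL F).card, (pL (pR F)).card, ct (pL (pR F)) (fun b => b.val < p * c),
    fun i => (sec (pR (pR F)) i).card, fun i => ct (sec (pR (pR F)) i) (fun x => x.val < p * c),
    fun i => ct (pL (pR F)) (fun b => i.val * c ≤ b.val ∧ b.val < (i.val + 1) * c),
    ⟨hγ, hfin _, UE_le _ _, hlow _, hupp _, fun i => hfin _, fun i => UE_le _ _, fun i => hlow _, fun i => hupp _,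
      ?_, UE_int hc _⟩, ?_, ?_⟩
  · intro i
    have h1 := UE_cnt (pL (pR F)) (fun b => i.val * c ≤ b.val ∧ b.val < (i.val + 1) * c) (i.val * c) ((i.val + 1) * c)
      (fun x _ hx => hx)
    have h2 : (i.val + 1) * c = i.val * c + c := by ring
    show ct (pL (pR F)) (fun b => i.val * c ≤ b.val ∧ b.val < (i.val + 1) * c) ≤ c
    omega
  · rw [a2, b2, c3]
    ring
  · have e1 : E2 (gr k p c) F = E2 (⊤ : SimpleGraph Unit) (pL F) + E2 (gH k p c) (pR F) +
        2 * ∑ x ∈ pL F, (ct (pR F) (fun y => gz k p c y) : ℝ) := a1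
    have e2 : E2 (gH k p c) (pR F) = E2 (⊤ : SimpleGraph (Fin (k - 1))) (pL (pR F)) +
        E2 (cp (Fin p) (⊤ : SimpleGraph (Fin (k - 1)))) (pR (pR F)) +
        2 * ∑ x ∈ pL (pR F), (ct (pR (pR F)) (fun y => y.1.val * c ≤ x.val ∧ x.val < (y.1.val + 1) * c ∧ y.2.val < p * c) : ℝ) := b1
    have e3 : ((pL F).card : ℝ) * (pL F).card - (pL F).card = 0 := by
      rcases Nat.le_one_iff_eq_zero_or_eq_one.1 hγ with h | h <;> rw [h] <;> norm_num
    have e4 : (ct (pR F) (fun y => gz k p c y) : ℝ) = (((pL (pR F)).card : ℝ) - ct (pL (pR F)) (fun b => b.val < p * c)) +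
        ∑ i : Fin p, (((sec (pR (pR F)) i).card : ℝ) - ct (sec (pR (pR F)) i) (fun x => x.val < p * c)) := by
      rw [UE_sum, c2]
      push_cast
      congr 1
      · exact haddR (pL (pR F))
      · exact sum_congr rfl fun i _ => haddR (sec (pR (pR F)) i)
    have e5 : ∑ x ∈ pL (pR F), (ct (pR (pR F)) (fun y => y.1.val * c ≤ x.val ∧ x.val < (y.1.val + 1) * c ∧ y.2.val < p * c) : ℝ) =
        ∑ i : Fin p, (ct (pL (pR F)) (fun b => i.val * c ≤ b.val ∧ b.val < (i.val + 1) * c) : ℝ) *
          (ct (sec (pR (pR F)) i) (fun w => w.val < p * c) : ℝ) := by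
      rw [← UE_swap]
      apply sum_congr rfl
      intro b _
      rw [c2]
      push_cast
      rfl
    rw [e1, e2, hT, hT, c1, e3, e4, e5, sum_const, nsmul_eq_mul]
    rw [sum_congr rfl fun i (_ : i ∈ univ) => hT (Fin (k - 1)) (sec (pR (pR F)) i)]
    ring

end Pool.Agent.LHA
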