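import Pool.Agent.LHA.StU

/-!
# LHA: module UI (MP_303581_co)

Independent sets of the explicit graph.
-/

set_option autoImplicit false

open Finset

namespace Pool.Agent.LHA

open Pool.Agent.BKU

private lemma UI_zn {k p c : ℕ} (y : Fin (k - 1) ⊕ (Fin p × Fin (k - 1)))
    (h : ¬ (gr k p c).Adj (Sum.inl ()) (Sum.inr y)) : ¬ gz k p c y := h

private lemma UI_bb {k p c : ℕ} (a b : Fin (k - 1))
    (h : ¬ (gr k p c).Adj (Sum.inr (Sum.inl a)) (Sum.inr (Sum.inl b))) : a = b := by
  by_contra hab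
  exact h (show (⊤ : SimpleGraph (Fin (k - 1))).Adj a b from hab)

private lemma UI_xx {k p c : ℕ} (i : Fin p) (a b : Fin (k - 1))
    (h : ¬ (gr k p c).Adj (Sum.inr (Sum.inr (i, a))) (Sum.inr (Sum.inr (i, b)))) : a = b := by
  by_contra hab
  exact h (show i = i ∧ (⊤ : SimpleGraph (Fin (k - 1))).Adj a b from ⟨rfl, hab⟩)

private lemma UI_bx {k p c : ℕ} (b : Fin (k - 1)) (i : Fin p) (w : Fin (k - 1))
    (h : ¬ (gr k p c).Adj (Sum.inr (Sum.inl b)) (Sum.inr (Sum.inr (i, w)))) :
    ¬ (i.val * c ≤ b.val ∧ b.val < (i.val + 1) * c ∧ w.val < p * c) := h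

/-- the clique of a vertex (`o` for the vertex `z`) -/
private def UI_f {k p : ℕ} (o : Option (Fin p)) :
    Unit ⊕ (Fin (k - 1) ⊕ (Fin p × Fin (k - 1))) → Option (Fin p)
  | Sum.inl _ => o
  | Sum.inr (Sum.inl _) => none
  | Sum.inr (Sum.inr x) => some x.1

theorem thm_UI : St_UI := by
  classical
  intro k p c hp hc hk I hI
  have ho : ∃ o : Option (Fin p), Sum.inl () ∈ I → ∀ y, Sum.inr y ∈ I →
      UI_f (k := k) o (Sum.inr y) ≠ o := by
    by_contra hno
    push Not at hno
    have hz : Sum.inl () ∈ I := (hno none).1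
    obtain ⟨y, hy, hy'⟩ := (hno none).2
    rcases y with b | ⟨i, w⟩
    swap
    · exact absurd hy' (by simp [UI_f])
    have hb : ¬ (p * c ≤ b.val) := UI_zn (Sum.inl b) (hI _ hz _ hy (by simp))
    have hb' : b.val < p * c := not_le.1 hb
    have hi : b.val / c < p := Nat.div_lt_of_lt_mul (by rw [mul_comm]; exact hb')
    obtain ⟨y', hy2, hy2'⟩ := (hno (some ⟨b.val / c, hi⟩)).2
    rcases y' with b' | ⟨i, w⟩
    · exact absurd hy2' (by simp [UI_f])
    have hii : i = ⟨b.val / c, hi⟩ := by simpa [UI_f] using hy2'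
    have hw : ¬ (p * c ≤ w.val) := UI_zn (Sum.inr (i, w)) (hI _ hz _ hy2 (by simp))
    refine UI_bx b i w (hI _ hy _ hy2 (by simp)) ⟨?_, ?_, not_le.1 hw⟩
    · rw [hii]
      exact Nat.div_mul_le_self _ _
    · rw [hii]
      show b.val < (b.val / c + 1) * c
      have := Nat.lt_mul_div_succ b.val (show 0 < c by omega)
      rw [mul_comm]
      exact this
  obtain ⟨o, ho⟩ := ho
  have hinj : Set.InjOn (UI_f (k := k) o) (I : Set _) := by
    intro x hx y hy hxy
    have hx' : x ∈ I := hx
    have hy' : y ∈ I := hy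
    by_contra hne
    have hadj := hI x hx' y hy' hne
    rcases x with x | x <;> rcases y with y | y
    · exact hne rfl
    · exact ho hx' y hy' hxy.symm
    · exact ho hy' x hx' hxy
    · rcases x with a | ⟨i, a⟩ <;> rcases y with b | ⟨j, b⟩
      · exact hne (by rw [UI_bb a b hadj])
      · exact absurd hxy (by simp [UI_f])
      · exact absurd hxy (by simp [UI_f])
      · have hij : i = j := by simpa [UI_f] using hxy
        subst hij
        exact hne (by rw [UI_xx i a b hadj])
  have hcard := Finset.card_le_card_of_injOn (s := I) (t := (univ : Finset (Option (Fin p))))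
    (UI_f (k := k) o) (fun _ _ => by simp) hinj
  simpa using hcard

end Pool.Agent.LHA
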