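import Pool.Agent.LHA.StU
import Pool.Agent.BKU.JN
import Pool.Agent.BKU.CP
import Pool.Agent.BKU.ST

/-!
# Campaign LHA, module UV: disjoint unions with a general real number, and complete graphs (helper85)
-/

set_option autoImplicit false

open Finset

namespace Pool.Agent.LHA

open Pool.Agent.BKU

private theorem UV_ct' {V : Type} (F : Finset V) (p : V → Prop) (hp : ∀ x, ¬ p x) :
    ct F p = 0 := by
  classical
  unfold ct
  exact Finset.card_eq_zero.2
    (Finset.eq_empty_of_forall_notMem fun x hx => hp x (Finset.mem_filter.1 hx).2)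

private theorem UV_ct {V : Type} (F : Finset V) : ct F (fun _ => False) = 0 :=
  UV_ct' F _ fun _ h => h

private theorem UV_nonneg (k : ℕ) (ν : ℝ) (hk : 4 ≤ k) (h1 : ν ≤ 1) (n : ℕ) : 0 ≤ mm k ν n := by
  have hk' : (4 : ℝ) ≤ k := by exact_mod_cast hk
  unfold mm
  split_ifs <;> linarith

private theorem UV_mm (k : ℕ) (ν : ℝ) (hk : 4 ≤ k) (h1 : ν ≤ 1) (m n : ℕ) : mm k ν (m + n) ≤ mm k ν m + mm k ν n := by
  have hk' : (4 : ℝ) ≤ k := by exact_mod_cast hk
  rcases Nat.eq_zero_or_pos m with hm | hm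
  · subst hm
    rw [zero_add]
    have : mm k ν 0 = 0 := by simp [mm]
    linarith
  rcases Nat.eq_zero_or_pos n with hn | hn
  · subst hn
    rw [add_zero]
    have : mm k ν 0 = 0 := by simp [mm]
    linarith
  have h2 : mm k ν (m + n) = 2 * k - 2 * ν := by
    unfold mm
    rw [if_neg (by omega), if_neg (by omega)]
  have h3 : ∀ j : ℕ, 0 < j → (k : ℝ) - ν ≤ mm k ν j := by
    intro j hj
    unfold mm
    rw [if_neg (by omega)]
    split_ifs <;> linarith
  have h4 := h3 m hm
  have h5 := h3 n hn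
  linarith

private theorem UV_mms (k : ℕ) (ν : ℝ) (hk : 4 ≤ k) (h1 : ν ≤ 1) {ι : Type} (A : Finset ι) (f : ι → ℕ) :
    mm k ν (∑ i ∈ A, f i) ≤ ∑ i ∈ A, mm k ν (f i) := by
  classical
  induction A using Finset.induction_on with
  | empty => simp [mm]
  | insert a A ha ih =>
    rw [Finset.sum_insert ha, Finset.sum_insert ha]
    have := UV_mm k ν hk h1 (f a) (∑ i ∈ A, f i)
    linarith

private theorem UV_top {V : Type} : Ind (⊤ : SimpleGraph V) 1 := by
  intro I hI
  refine Finset.card_le_one.mpr ?_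
  intro x hx y hy
  by_contra hne
  exact hI x hx y hy hne ((SimpleGraph.top_adj x y).mpr hne)

/-- (UV) -/
theorem thm_UV : St_UV := by
  refine ⟨?_, UV_top, fun _ => UV_top⟩
  intro k ν hk h0 h1
  have hk' : (4 : ℝ) ≤ k := by exact_mod_cast hk
  refine ⟨?_, ?_, ?_⟩
  · intro X Y _ _ G H hG hH F
    obtain ⟨e1, e2⟩ := thm_JN X Y G H (fun _ _ => False) F
    have h3 : ∑ x ∈ pL F, (ct (pR F) ((fun _ _ => False : X → Y → Prop) x) : ℝ) = 0 := by
      refine Finset.sum_eq_zero fun x _ => ?_
      have := UV_ct (pR F)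
      rw [this]
      simp
    rw [h3, mul_zero, add_zero] at e1
    have h4 := UV_mm k ν hk h1 (pL F).card (pR F).card
    have h5 := hG (pL F)
    have h6 := hH (pR F)
    rw [e1, e2]
    push_cast
    nlinarith
  · intro ι W _ _ G hG F
    obtain ⟨e1, -, e2⟩ := thm_CP ι W G F
    have h4 := UV_mms k ν hk h1 univ (fun i => (sec F i).card)
    have h5 : ∑ i, (E2 G (sec F i) + mm k ν (sec F i).card) ≤
        ∑ i, ((k : ℝ) + 1 - ν) * ((sec F i).card : ℝ) :=
      Finset.sum_le_sum fun i _ => hG (sec F i)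
    rw [Finset.sum_add_distrib, ← Finset.mul_sum] at h5
    rw [e1, e2]
    push_cast
    linarith
  · intro F
    rw [thm_ST.1 (Fin (k - 1)) F]
    have hF : F.card ≤ k - 1 := by
      have := Finset.card_le_univ F
      rwa [Fintype.card_fin] at this
    have hF1 : F.card + 1 ≤ k := by omega
    have hF' : (F.card : ℝ) + 1 ≤ k := by exact_mod_cast hF1
    unfold mm
    split_ifs with c0 c1
    · rw [c0]
      simp
    · rw [c1]
      push_cast
      linarith
    · have h2 : 2 ≤ F.card := by omega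
      have h2' : (2 : ℝ) ≤ F.card := by exact_mod_cast h2
      nlinarith [mul_nonneg (sub_nonneg.mpr h2') (by linarith : (0 : ℝ) ≤ k - ν - F.card)]

end Pool.Agent.LHA
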