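import Pool.Agent.LHA.TR
import Pool.Agent.LHA.SU
import Pool.Agent.LHA.TV
import Pool.Agent.LHA.LG
import Pool.Agent.LHA.EC
import Pool.Agent.LHA.DT
import Pool.Agent.LHA.M2
import Pool.Agent.LHA.UE
import Pool.Agent.LHA.UA
import Pool.Agent.LHA.UI
import Pool.Agent.LHA.UV
import Pool.Agent.LHA.FN
import Pool.Agent.LHA.RL

/-!
# Campaign LHA (MP_303581_co): the smaller half of the residues
-/

set_option autoImplicit false

open Finset

namespace Pool.Agent.LHA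

open Pool.Agent.TwoDens

/-- `|M(k s - t, s + 1) - ((k + 1) / 2 - sqrt (p / (2 k)))| ≤ C / k` with `p = t / (s - t)` -/
theorem lower_half (s t : ℕ) (ht : 1 ≤ t) (hts : t < s) (hst : s ≤ 2 * t) : ∃ C K₀ : ℕ, ∀ k : ℕ, K₀ ≤ k →
    |minTwoDensity (k * s - t) (s + 1) -
      (((k : ℝ) + 1) / 2 - Real.sqrt (((t / (s - t) : ℕ) : ℝ) / (2 * k)))| ≤ (C : ℝ) / k := by
  set p := t / (s - t) with hp
  have hd : 0 < s - t := by omega
  have hp1 : 1 ≤ p := by
    rw [hp, Nat.le_div_iff_mul_le hd]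
    omega
  have h1 : (s - t) * p ≤ t := Nat.mul_div_le _ _
  have h2 : t < (s - t) * (p + 1) := by
    have := Nat.lt_mul_div_succ t hd
    simpa [Nat.succ_eq_add_one] using this
  obtain ⟨δ, hδ⟩ : ∃ δ, s = t + δ := ⟨s - t, by omega⟩
  have hd' : s - t = δ := by omega
  rw [hd'] at h1 h2
  have h3 : (p + 2) * t < (p + 1) * s := by
    rw [hδ]
    nlinarith
  have h4 : (s - t) * (p + 1) ≤ s := by
    rw [hd', hδ]
    nlinarith
  obtain ⟨C1, K1, hL⟩ := low_real (thm_LOW thm_TR thm_SU thm_TV thm_LG thm_EC thm_DT thm_M2) s t p hp1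
    (by omega) h3 hts
  obtain ⟨C2, K2, hU⟩ := up_real thm_UE thm_UA thm_UI thm_UV s t p hp1 hts h4
  refine ⟨C1 + C2, K1 + K2, fun k hk => ?_⟩
  have g1 := hL k (by omega)
  have g2 := hU k (by omega)
  have g3 : (0 : ℝ) ≤ (C1 : ℝ) / k := by positivity
  have g4 : (0 : ℝ) ≤ (C2 : ℝ) / k := by positivity
  rw [abs_le]
  push_cast
  rw [add_div]
  constructor <;> linarith

end Pool.Agent.LHA
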