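import Pool.Agent.LHA.FA

/-!
# Campaign LHA (MP_303581_co): number of vertices and edges of the part of the graph belonging to a tree
-/

set_option autoImplicit false

open Finset

namespace Pool.Agent.LHA

open Pool.Agent.TwoDens

/-- the vertices of a tree -/
def FT {V : Type} [DecidableEq V] (K : V → Finset V) (R Z : Finset V) : Finset V := R.biUnion K ∪ Z

theorem FT_card {V : Type} [DecidableEq V] {k : ℕ} {R Z : Finset V} {K S : V → Finset V}
    (hR : 1 ≤ R.card)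
    (hKK : ∀ j ∈ R, ∀ l ∈ R, j ≠ l → Disjoint (K j) (K l)) (hKZ : ∀ j ∈ R, Disjoint (K j) Z)
    (hdeg : ∀ j ∈ R, (K j).card + (Z.filter (fun z => j ∈ S z)).card = k)
    (hcnt : ∑ j ∈ R, (Z.filter (fun z => j ∈ S z)).card + 1 = R.card + Z.card) :
    (FT K R Z).card + R.card = k * R.card + 1 := by
  classical
  have hdisj : Disjoint (R.biUnion K) Z := by
    rw [Finset.disjoint_biUnion_left]
    exact hKZ
  have hFc : (FT K R Z).card = ∑ j ∈ R, (K j).card + Z.card := by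
    unfold FT
    rw [Finset.card_union_of_disjoint hdisj, Finset.card_biUnion]
    exact fun j hj l hl hjl => hKK j hj l hl hjl
  have h1 : ∑ j ∈ R, ((K j).card + (Z.filter (fun z => j ∈ S z)).card) = k * R.card := by
    rw [Finset.sum_congr rfl hdeg, Finset.sum_const, smul_eq_mul, mul_comm]
  rw [Finset.sum_add_distrib] at h1
  omega

/-- the edges of a tree -/
theorem tree_e2 (hSU : St_SU) (hTV : St_TV) (hEC : St_EC) (hM2 : St_M2)
    {V : Type} [DecidableEq V] (G : SimpleGraph V) [DecidableRel G.Adj] {k a B loss θ A : ℕ}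
    {X R Z : Finset V} {K S : V → Finset V} {N : V → V → Finset V} {j0 : V} {par : V → V}
    (hk : 3 ≤ k) (hHa : Ha G k a X) (hT : Tree R Z S j0 par)
    (hKX : ∀ j ∈ R, K j ⊆ X) (hZX : Z ⊆ X)
    (hKK : ∀ j ∈ R, ∀ l ∈ R, j ≠ l → Disjoint (K j) (K l)) (hKZ : ∀ j ∈ R, Disjoint (K j) Z)
    (hclq : ∀ j ∈ R, ∀ u ∈ K j, ∀ v ∈ K j, u ≠ v → G.Adj u v)
    (hdeg : ∀ j ∈ R, (K j).card + (Z.filter (fun z => j ∈ S z)).card = k)
    (hN : ∀ z ∈ Z, ∀ j ∈ S z, N z j ⊆ non G z (K j) ∧ (non G z (K j)).card ≤ (N z j).card + loss)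
    (htr : ∀ z ∈ Z, ¬ TRV G (S z) (N z))
    (hθ : ∀ z ∈ Z, ∀ j ∈ S z, (non G z (K j)).card ≤ θ) (hB : Z.card ≤ B)
    (hA : A + B * B + B * loss = a) :
    2 * (A * A) + (k * k - k) * R.card ≤ e2 G (FT K R Z) + R.card * (B * B + 2 * (B * θ)) := by
  classical
  set n : V → ℕ := fun j => (Z.filter (fun z => j ∈ S z)).card with hn
  set w : V → ℕ := fun j => ∑ z ∈ Z.filter (fun z => j ∈ S z), (non G z (K j)).card with hw
  have hnB : ∀ j, n j ≤ B := fun j => (Finset.card_le_card (Finset.filter_subset _ _)).trans hB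
  have hmis : ∀ j ∈ R, 2 * a ≤ 2 * w j + n j * n j := fun j hj =>
    hM2 V G k a X (K j) (Z.filter (fun z => j ∈ S z)) hk hHa (hKX j hj)
      ((Finset.filter_subset _ _).trans hZX)
      (Finset.disjoint_of_subset_right (Finset.filter_subset _ _) (hKZ j hj)) (hdeg j hj) (hclq j hj)
  have hwθ : ∀ j, w j ≤ B * θ := by
    intro j
    calc w j ≤ ∑ z ∈ Z.filter (fun z => j ∈ S z), θ :=
          Finset.sum_le_sum fun z hz => hθ z (mem_filter.1 hz).1 j (mem_filter.1 hz).2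
      _ = n j * θ := by rw [Finset.sum_const, smul_eq_mul]
      _ ≤ B * θ := Nat.mul_le_mul_right _ (hnB j)
  have hsum : (A : ℝ) * A ≤ ∑ z ∈ Z, (xe G (S z) (N z) : ℝ) / 2 := by
    refine hSU V V R Z S j0 par (fun z j => ((N z j).card : ℝ)) (fun z => (xe G (S z) (N z) : ℝ) / 2) A hT
      (Nat.cast_nonneg _) (fun _ _ _ _ => Nat.cast_nonneg _) ?_ ?_
    · intro z hz
      refine ⟨by positivity, ?_⟩
      rcases hTV V V G (S z) (N z) ⟨par z, hT.par_mem z hz⟩ (htr z hz) with ⟨j, hj, hj'⟩ | ⟨j, hj, l, hl, hjl, h⟩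
      · left
        intro i hi
        rw [hj, mem_singleton] at hi
        subst hi
        simp [hj']
      · right
        refine ⟨j, hj, l, hl, hjl, ?_⟩
        have h' : (2 : ℝ) * (((N z j).card : ℝ) * ((N z l).card : ℝ)) ≤ (xe G (S z) (N z) : ℝ) := by
          exact_mod_cast h
        linarith
    · intro j hj
      have h1 : w j ≤ ∑ z ∈ Z.filter (fun z => j ∈ S z), (N z j).card + n j * loss := by
        calc w j ≤ ∑ z ∈ Z.filter (fun z => j ∈ S z), ((N z j).card + loss) :=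
              Finset.sum_le_sum fun z hz => (hN z (mem_filter.1 hz).1 j (mem_filter.1 hz).2).2
          _ = _ := by rw [Finset.sum_add_distrib, Finset.sum_const, smul_eq_mul]
      have h2 := hmis j hj
      have h3 : n j * loss ≤ B * loss := Nat.mul_le_mul_right _ (hnB j)
      have h4 : n j * n j ≤ B * B := Nat.mul_le_mul (hnB j) (hnB j)
      have h5 : A ≤ ∑ z ∈ Z.filter (fun z => j ∈ S z), (N z j).card := by omega
      exact_mod_cast h5
  have hsum2 : 2 * (A * A) ≤ ∑ z ∈ Z, xe G (S z) (N z) := by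
    have h1 : (2 : ℝ) * ((A : ℝ) * A) ≤ ∑ z ∈ Z, (xe G (S z) (N z) : ℝ) := by
      rw [← Finset.sum_div] at hsum
      linarith
    exact_mod_cast h1
  have hec := hEC V G R Z K S N hKK hKZ hclq hT.sub hT.inter
    (fun z hz j hj => (hN z hz j hj).1.trans (Finset.filter_subset _ _))
  have hKn : ∀ j ∈ R, ((K j).card : ℤ) = k - n j := by
    intro j hj
    have h1 := hdeg j hj
    have h2 : (K j).card + n j = k := h1
    have h3 : ((K j).card : ℤ) + n j = k := by exact_mod_cast h2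
    linarith
  have hA1 : ∀ j ∈ R, (((K j).card * ((K j).card - 1) : ℕ) : ℤ) = ((k : ℤ) - n j) * ((k : ℤ) - n j - 1) := by
    intro j hj
    have h1 := hKn j hj
    rw [← h1]
    rcases Nat.eq_zero_or_pos (K j).card with h0 | h0
    · rw [h0]; simp
    · rw [Nat.cast_mul, Nat.cast_sub h0]
      simp
  have hA2 : (∑ z ∈ Z, ∑ j ∈ S z, (((K j).filter (G.Adj z)).card : ℤ)) =
      ∑ j ∈ R, ((n j : ℤ) * ((k : ℤ) - n j) - w j) := by
    rw [swap_sum R Z S hT.sub (fun z j => (((K j).filter (G.Adj z)).card : ℤ))]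
    refine Finset.sum_congr rfl fun j hj => ?_
    have h1 : ∀ z ∈ Z.filter (fun z => j ∈ S z), (((K j).filter (G.Adj z)).card : ℤ) =
        ((k : ℤ) - n j) - ((non G z (K j)).card : ℤ) := by
      intro z _
      have h2 := non_add G z (K j)
      have h3 : (((K j).filter (G.Adj z)).card : ℤ) + ((non G z (K j)).card : ℤ) = (K j).card := by
        exact_mod_cast h2
      rw [hKn j hj] at h3
      linarith
    rw [Finset.sum_congr rfl h1, Finset.sum_sub_distrib, Finset.sum_const, nsmul_eq_mul]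
    simp only [hw, hn]
    push_cast
    ring
  have hecZ : (∑ j ∈ R, ((k : ℤ) - n j) * ((k : ℤ) - n j - 1)) +
      2 * (∑ j ∈ R, ((n j : ℤ) * ((k : ℤ) - n j) - w j)) + (∑ z ∈ Z, (xe G (S z) (N z) : ℤ)) ≤
      e2 G (R.biUnion K ∪ Z) := by
    rw [← hA2, ← Finset.sum_congr rfl hA1]
    exact_mod_cast hec
  have hsq : (∑ j ∈ R, ((k : ℤ) - n j) * ((k : ℤ) - n j - 1)) +
      2 * (∑ j ∈ R, ((n j : ℤ) * ((k : ℤ) - n j) - w j)) =
      ((k : ℤ) * k - k) * R.card - ∑ j ∈ R, ((n j : ℤ) * n j - n j + 2 * w j) := by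
    rw [Finset.mul_sum, ← Finset.sum_add_distrib]
    have h1 : ((k : ℤ) * k - k) * R.card = ∑ j ∈ R, ((k : ℤ) * k - k) := by
      rw [Finset.sum_const, nsmul_eq_mul]; ring
    rw [h1, ← Finset.sum_sub_distrib]
    refine Finset.sum_congr rfl fun j _ => ?_
    ring
  have hbd : ∑ j ∈ R, ((n j : ℤ) * n j - n j + 2 * w j) ≤ R.card * ((B : ℤ) * B + 2 * (B * θ)) := by
    have h1 : ∀ j ∈ R, ((n j : ℤ) * n j - n j + 2 * w j) ≤ (B : ℤ) * B + 2 * (B * θ) := by
      intro j _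
      have h2 : (n j : ℤ) ≤ B := by exact_mod_cast hnB j
      have h3 : (w j : ℤ) ≤ B * θ := by exact_mod_cast hwθ j
      have h4 : (0 : ℤ) ≤ n j := Nat.cast_nonneg _
      nlinarith
    refine (Finset.sum_le_sum h1).trans (le_of_eq ?_)
    rw [Finset.sum_const, nsmul_eq_mul]
  have h1 : (2 * (A * A) : ℤ) ≤ ∑ z ∈ Z, (xe G (S z) (N z) : ℤ) := by exact_mod_cast hsum2
  rw [hsq] at hecZ
  have hfin : (2 * (A * A) : ℤ) + ((k : ℤ) * k - k) * R.card ≤
      (e2 G (R.biUnion K ∪ Z) : ℤ) + R.card * ((B : ℤ) * B + 2 * (B * θ)) := by linarith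
  have hkk : ((k * k - k : ℕ) : ℤ) = (k : ℤ) * k - k := by
    rw [Nat.cast_sub (Nat.le_mul_self k)]
    push_cast
    ring
  have hfin' : ((2 * (A * A) + (k * k - k) * R.card : ℕ) : ℤ) ≤
      ((e2 G (R.biUnion K ∪ Z) + R.card * (B * B + 2 * (B * θ)) : ℕ) : ℤ) := by
    push_cast
    rw [hkk]
    exact hfin
  exact_mod_cast hfin'

end Pool.Agent.LHA
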