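import Pool.Agent.LHA.FN
import Pool.Agent.LHA.TE

/-!
# Campaign LHA (MP_303581_co): a component with exactly `p + 1` cliques
-/

set_option autoImplicit false

open Finset

namespace Pool.Agent.LHA

open Pool.Agent.TwoDens

theorem ct_arith (p e c C1 C2 A' k : ℤ) (hpZ : p = e + 1) (he0 : 0 ≤ e) (hC20 : 0 ≤ C2) (hC10 : 0 ≤ C1)
    (hc0 : 0 < c) (hA0 : 0 ≤ A') (hcZ : p * (4 * C2 + C1) + 4 * C2 < c)
    (hA2Z : (4 * e + 3) * c - 4 * p * C2 ≤ 4 * p * A') (hAAZ : 2 * (A' * A') ≤ k * e + C1 * c)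
    (hpkZ : p * k ≤ 2 * (c * c)) : False := by
  have hp0 : 0 < p := by linarith
  have hm : 0 ≤ p * (4 * C2 + C1) := mul_nonneg hp0.le (by linarith)
  have hec : 0 ≤ e * c := mul_nonneg he0 hc0.le
  have hpc : 0 < p * c := mul_pos hp0 hc0
  have e2 : p * (4 * C2) ≤ p * c := mul_le_mul_of_nonneg_left (by linarith) hp0.le
  have hLnn : 0 ≤ (4 * e + 3) * c - 4 * p * C2 := by
    have e1 : (4 * e + 3) * c = 3 * (p * c) + e * c := by rw [hpZ]; ring
    linarith
  have hsq : ((4 * e + 3) * c - 4 * p * C2) * ((4 * e + 3) * c - 4 * p * C2) ≤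
      (4 * p * A') * (4 * p * A') := mul_le_mul hA2Z hA2Z hLnn (by positivity)
  have h5 : 16 * (p * p) * (2 * (A' * A')) ≤ 16 * (p * p) * (k * e + C1 * c) :=
    mul_le_mul_of_nonneg_left hAAZ (by positivity)
  have h6 : 16 * p * e * (p * k) ≤ 16 * p * e * (2 * (c * c)) :=
    mul_le_mul_of_nonneg_left hpkZ (by positivity)
  have h7 : 2 * (((4 * e + 3) * c - 4 * p * C2) * ((4 * e + 3) * c - 4 * p * C2)) ≤
      32 * p * e * (c * c) + 16 * (p * p) * (C1 * c) := by
    have e1 : 16 * (p * p) * (k * e + C1 * c) = 16 * p * e * (p * k) + 16 * (p * p) * (C1 * c) := by ring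
    have e3 : 16 * (p * p) * (2 * (A' * A')) = 2 * ((4 * p * A') * (4 * p * A')) := by ring
    have e4 : 16 * p * e * (2 * (c * c)) = 32 * p * e * (c * c) := by ring
    linarith
  have h8 : 2 * (((4 * e + 3) * c) * ((4 * e + 3) * c)) - 16 * ((4 * e + 3) * p * (C2 * c)) ≤
      2 * (((4 * e + 3) * c - 4 * p * C2) * ((4 * e + 3) * c - 4 * p * C2)) := by
    have h : 0 ≤ (4 * p * C2) * (4 * p * C2) := by positivity
    have e5 : 2 * (((4 * e + 3) * c - 4 * p * C2) * ((4 * e + 3) * c - 4 * p * C2)) =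
        2 * (((4 * e + 3) * c) * ((4 * e + 3) * c)) - 16 * ((4 * e + 3) * p * (C2 * c)) +
        2 * ((4 * p * C2) * (4 * p * C2)) := by ring
    linarith
  have h9 : 2 * (((4 * e + 3) * c) * ((4 * e + 3) * c)) = 32 * p * e * (c * c) + (16 * p + 2) * (c * c) := by
    rw [hpZ]; ring
  have h10 : (16 * p + 2) * (c * c) ≤ 16 * (p * p) * (C1 * c) + 16 * ((4 * e + 3) * p * (C2 * c)) := by linarith
  have h0 : 0 ≤ p * (C2 * c) := by positivity
  have h11 : 16 * ((4 * e + 3) * p * (C2 * c)) ≤ 64 * (p * p * (C2 * c)) := by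
    have e6 : 64 * (p * p * (C2 * c)) = 16 * ((4 * e + 3) * p * (C2 * c)) + 16 * (p * (C2 * c)) := by
      rw [hpZ]; ring
    linarith
  have h12 : p * (4 * C2 + C1) * (p * c) ≤ c * (p * c) :=
    mul_le_mul_of_nonneg_right (by linarith) hpc.le
  have h13 : 0 < c * c := mul_pos hc0 hc0
  have e7 : p * (4 * C2 + C1) * (p * c) = 4 * (p * p * (C2 * c)) + p * p * (C1 * c) := by ring
  have e8 : c * (p * c) = p * (c * c) := by ring
  have e9 : (16 * p + 2) * (c * c) = 16 * (p * (c * c)) + 2 * (c * c) := by ring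
  linarith

/-- in a closed set `I'` of names with few vertices outside there is a component with `p + 1` cliques -/
theorem core_tree (hTR : St_TR) (hSU : St_SU) (hTV : St_TV) (hLG : St_LG) (hEC : St_EC) (hM2 : St_M2)
    {V : Type} [DecidableEq V] (G : SimpleGraph V) [DecidableRel G.Adj]
    {k s t' p B a c m D C1 C' A : ℕ} {X I Z I' Z' : Finset V} {K L S : V → Finset V} (hLD : LD G k s B X I Z K L S)
    (hp : 1 ≤ p) (hk : 3 ≤ k) (hI' : I' ⊆ I) (hZ' : Z' ⊆ Z) (hSI' : ∀ z ∈ Z', S z ⊆ I')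
    (hZZ : ∀ z ∈ Z, ∀ j ∈ I', j ∈ S z → z ∈ Z')
    (hy : ∑ j ∈ I', (k - (K j).card) = t' + Z'.card) (hst : (p + 2) * t' < (p + 1) * I'.card)
    (hpk : p * k ≤ 2 * (c * c)) (hm : m = 4 * (B + 1) * (s + 1) * p) (hD : D = m * (2 * B + 1) + s + B)
    (hC1 : C1 = (p + 1) * (B * B + 2 * (B * D)) + 1) (hac : c ≤ a + C')
    (hc : p * (4 * (C' + 2 * (B * B)) + C1) + 4 * (C' + 2 * (B * B)) < c) (hHa : Ha G k a X)
    (hA : A + 2 * (B * B) = a) :
    ∃ R ⊆ I', R.card = p + 1 ∧ (∀ z ∈ Z', (∃ j ∈ R, j ∈ S z) → S z ⊆ R) ∧ (∀ j ∈ R, k ≤ (K j).card + B) ∧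
      ∑ j ∈ R, (k - (K j).card) + 1 = R.card + (Z'.filter (fun z => ∃ j ∈ R, j ∈ S z)).card ∧
      (FT K R (Z'.filter (fun z => ∃ j ∈ R, j ∈ S z))).card + R.card = k * R.card + 1 ∧
      2 * (A * A) + (k * k - k) * R.card ≤
        e2 G (FT K R (Z'.filter (fun z => ∃ j ∈ R, j ∈ S z))) + C1 * c := by
  classical
  have hc1 : 1 ≤ c := by omega
  have hm1 : 1 ≤ m := by
    rw [hm]
    exact Nat.mul_pos (by positivity) hp
  have hkc : k ≤ 2 * (c * c) := by
    have : 1 * k ≤ p * k := Nat.mul_le_mul_right _ hp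
    omega
  have hKle : ∀ j ∈ I, (K j).card ≤ k := fun j hj => by
    have := hLD.dg j hj
    omega
  obtain ⟨R, j0, par, hRI', hRp, hRdeg, hT, hRsum⟩ := hTR V V I' Z' S (fun j => k - (K j).card) t' p
    hSI' (fun z hz => hLD.Sne z (hZ' hz)) (fun j hj => by
      have h1 := hLD.dg j (hI' hj)
      have h2 : (Z'.filter (fun z => j ∈ S z)).card ≤ (Z.filter (fun z => j ∈ S z)).card :=
        Finset.card_le_card (Finset.filter_subset_filter _ hZ')
      omega) hy hst
  have hRI : R ⊆ I := hRI'.trans hI'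
  set Zc := Z'.filter (fun z => ∃ j ∈ R, j ∈ S z) with hZc
  have hZcZ' : Zc ⊆ Z' := Finset.filter_subset _ _
  have hZcZ : Zc ⊆ Z := hZcZ'.trans hZ'
  have hRpos : 1 ≤ R.card := Finset.card_pos.2 ⟨j0, hT.root⟩
  set θ := D * c with hθ
  set τ := c / m with hτ
  set S1 : V → Finset V := fun z => (S z).filter (fun j => (non G z (K j)).card ≤ θ) with hS1
  have hS1S : ∀ z, S1 z ⊆ S z := fun z => Finset.filter_subset _ _
  have hone := fun z (hz : z ∈ Z) => one_z hTV hLG G (θ := θ) (τ := τ) (S1 := S1) hLD hc1 hm1 hkc hD hθ hτ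
    (fun _ => rfl) hz
  have hRy : ∀ j ∈ R, (Zc.filter (fun z => j ∈ S1 z)).card ≤ k - (K j).card := by
    intro j hj
    rw [← hRdeg j hj]
    refine Finset.card_le_card ?_
    intro z hz
    rw [mem_filter] at hz ⊢
    exact ⟨hZcZ' hz.1, hS1S z hz.2⟩
  obtain ⟨R1, j1, par1, hR1R, hR1c, hR1deg, hT1, hR1sum⟩ := hTR V V R Zc S1 (fun j => k - (K j).card)
    (R.card - 1) (R.card - 1) (fun z hz => (hS1S z).trans (hT.sub z hz)) (fun z hz => (hone z (hZcZ hz)).1)
    hRy (by omega) (by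
      obtain ⟨n, hn⟩ : ∃ n, R.card = n + 1 := ⟨R.card - 1, by omega⟩
      rw [hn]
      simp only [Nat.add_sub_cancel]
      nlinarith)
  set Z1 := Zc.filter (fun z => ∃ j ∈ R1, j ∈ S1 z) with hZ1
  have hZ1c : Z1 ⊆ Zc := Finset.filter_subset _ _
  have hZ1Z : Z1 ⊆ Z := hZ1c.trans hZcZ
  have hR1I : R1 ⊆ I := hR1R.trans hRI
  have hfil : ∀ j ∈ R1, Z1.filter (fun z => j ∈ S1 z) = Zc.filter (fun z => j ∈ S1 z) := by
    intro j hj
    ext z
    simp only [hZ1, mem_filter]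
    constructor
    · rintro ⟨⟨h1, _⟩, h2⟩
      exact ⟨h1, h2⟩
    · rintro ⟨h1, h2⟩
      exact ⟨⟨h1, j, hj, h2⟩, h2⟩
  have hR1deg' : ∀ j ∈ R1, (K j).card + (Z1.filter (fun z => j ∈ S1 z)).card = k := by
    intro j hj
    rw [hfil j hj, hR1deg j hj]
    have := hKle j (hR1I hj)
    omega
  have hcnt : ∑ j ∈ R1, (Z1.filter (fun z => j ∈ S1 z)).card + 1 = R1.card + Z1.card := by
    rw [← hR1sum]
    congr 1
    exact Finset.sum_congr rfl fun j hj => by rw [hfil j hj, hR1deg j hj]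
  have hR1p : R1.card ≤ p + 1 := by
    have := Finset.card_le_card hR1R
    omega
  have hR1pos : 1 ≤ R1.card := Finset.card_pos.2 ⟨j1, hT1.root⟩
  -- the last term
  have hterm : ∀ r : ℕ, r ≤ p + 1 → r * (B * B + 2 * (B * θ)) < C1 * c := by
    intro r hr
    have h1 : B * B + 2 * (B * θ) ≤ (B * B + 2 * (B * D)) * c := by
      have e1 : 2 * (B * θ) = 2 * (B * D) * c := by rw [hθ]; ring
      have e2 : B * B * 1 ≤ B * B * c := Nat.mul_le_mul_left _ hc1
      rw [e1, add_mul]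
      omega
    have h2 : r * (B * B + 2 * (B * θ)) ≤ (p + 1) * ((B * B + 2 * (B * D)) * c) :=
      Nat.mul_le_mul hr h1
    have h3 : C1 * c = (p + 1) * ((B * B + 2 * (B * D)) * c) + c := by rw [hC1]; ring
    omega
  by_cases hcase : R1.card ≤ p
  · -- impossible
    exfalso
    have hex := fun z (hz : z ∈ Z1) => (hone z (hZ1Z hz)).2
    choose! N hN1 hN2 using hex
    have hτm : m * τ ≤ c := Nat.mul_div_le c m
    have hBs : 4 * p * (B * (s * τ)) ≤ c := by
      have h1 : 4 * p * (B * (s * τ)) = (4 * p * B * s) * τ := by ring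
      have h2 : 4 * p * B * s ≤ m := by
        rw [hm]
        calc 4 * p * B * s = 4 * B * s * p := by ring
          _ ≤ 4 * (B + 1) * (s + 1) * p := by gcongr <;> omega
      rw [h1]
      exact (Nat.mul_le_mul_right _ h2).trans hτm
    have hBs' : 4 * (B * (s * τ)) ≤ c := by
      have : 4 * 1 * (B * (s * τ)) ≤ 4 * p * (B * (s * τ)) := Nat.mul_le_mul_right _ (Nat.mul_le_mul_left _ hp)
      omega
    have hfin := fin_ineq hSU hTV hEC hM2 G (B := B) (loss := B + s * τ) (θ := θ)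
      (A := A - B * (s * τ)) (N := N) hk hHa hT1
      (fun j hj => hLD.KX j (hR1I hj)) (hZ1Z.trans hLD.ZX)
      (fun j hj l hl hjl => hLD.KK j (hR1I hj) l (hR1I hl) hjl)
      (fun j hj => Finset.disjoint_of_subset_right hZ1Z (hLD.KZ j (hR1I hj)))
      (fun j hj => hLD.clq j (hR1I hj)) hR1deg' hcnt
      (fun z hz j hj => hN1 z hz j hj)
      hN2
      (fun z _ j hj => (mem_filter.1 hj).2)
      ((Finset.card_le_card hZ1Z).trans hLD.cZ) (by
        have : B * (B + s * τ) = B * B + B * (s * τ) := by ring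
        have h2 : B * (s * τ) ≤ A := by omega
        omega)
    set A' := A - B * (s * τ) with hA'
    set C2 := C' + 2 * (B * B) with hC2
    have hA1 : c ≤ A' + B * (s * τ) + C2 := by omega
    have hlast := hterm R1.card hR1p
    have h1 : (k - 1) * (R1.card - 1) ≤ k * (p - 1) := Nat.mul_le_mul (by omega) (by omega)
    obtain ⟨e, he⟩ : ∃ e, p = e + 1 := ⟨p - 1, by omega⟩
    have hp1 : p - 1 = e := by omega
    rw [hp1] at h1
    have hAA : 2 * (A' * A') ≤ k * e + C1 * c := by omega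
    have hA2 : (4 * e + 3) * c ≤ 4 * p * A' + 4 * p * C2 := by
      have h2 : 4 * p * c ≤ 4 * p * (A' + B * (s * τ) + C2) := Nat.mul_le_mul_left _ hA1
      have h3 : 4 * p * (A' + B * (s * τ) + C2) = 4 * p * A' + 4 * p * (B * (s * τ)) + 4 * p * C2 := by ring
      have h4 : 4 * p * c = (4 * e + 3) * c + c := by rw [he]; ring
      omega
    have hA2Z : (4 * (e : ℤ) + 3) * c - 4 * p * C2 ≤ 4 * p * A' := by
      have : (((4 * e + 3) * c : ℕ) : ℤ) ≤ ((4 * p * A' + 4 * p * C2 : ℕ) : ℤ) := by exact_mod_cast hA2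
      push_cast at this
      linarith
    have hcZ : (p : ℤ) * (4 * C2 + C1) + 4 * C2 < c := by exact_mod_cast hc
    have hpZ : (p : ℤ) = e + 1 := by exact_mod_cast he
    have hAAZ : 2 * ((A' : ℤ) * A') ≤ k * e + C1 * c := by exact_mod_cast hAA
    have hpkZ : (p : ℤ) * k ≤ 2 * (c * c) := by exact_mod_cast hpk
    exact ct_arith p e c C1 C2 A' k hpZ (Nat.cast_nonneg _) (Nat.cast_nonneg _) (Nat.cast_nonneg _)
      (by exact_mod_cast hc1) (Nat.cast_nonneg _) hcZ hA2Z hAAZ hpkZ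
  · -- the tree is the whole component
    have hR1eq : R1.card = p + 1 := by omega
    have hRcard : R.card = p + 1 := by
      have := Finset.card_le_card hR1R
      omega
    have hRR : R1 = R := Finset.eq_of_subset_of_card_le hR1R (by omega)
    have hSS : ∀ z ∈ Zc, S1 z = S z := by
      intro z hz
      refine Finset.Subset.antisymm (hS1S z) ?_
      intro j hj
      have hjR : j ∈ R := hT.sub z hz hj
      have h1 : Zc.filter (fun z => j ∈ S1 z) = Z'.filter (fun z => j ∈ S z) := by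
        refine Finset.eq_of_subset_of_card_le ?_ ?_
        · intro x hx
          rw [mem_filter] at hx ⊢
          exact ⟨hZcZ' hx.1, hS1S x hx.2⟩
        · rw [hRdeg j hjR, hR1deg j (by rw [hRR]; exact hjR)]
      have h2 : z ∈ Z'.filter (fun z => j ∈ S z) := mem_filter.2 ⟨hZcZ' hz, hj⟩
      rw [← h1] at h2
      exact (mem_filter.1 h2).2
    have hdeg' : ∀ j ∈ R, (K j).card + (Zc.filter (fun z => j ∈ S z)).card = k := by
      intro j hj
      have h1 : Zc.filter (fun z => j ∈ S z) = Z'.filter (fun z => j ∈ S z) := by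
        ext z
        simp only [hZc, mem_filter]
        constructor
        · rintro ⟨⟨h1, _⟩, h2⟩
          exact ⟨h1, h2⟩
        · rintro ⟨h1, h2⟩
          exact ⟨⟨h1, j, hj, h2⟩, h2⟩
      rw [h1, hRdeg j hj]
      have := hKle j (hRI hj)
      omega
    have hcnt' : ∑ j ∈ R, (Zc.filter (fun z => j ∈ S z)).card + 1 = R.card + Zc.card := by
      rw [← hRsum]
      congr 1
      refine Finset.sum_congr rfl fun j hj => ?_
      have h1 := hdeg' j hj
      omega
    have hex := fun z (hz : z ∈ Zc) => one_z' G hLD (hZcZ hz)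
    choose! N hN1 hN2 using hex
    have hKZc : ∀ j ∈ R, Disjoint (K j) Zc := fun j hj =>
      Finset.disjoint_of_subset_right hZcZ (hLD.KZ j (hRI hj))
    have hKKR : ∀ j ∈ R, ∀ l ∈ R, j ≠ l → Disjoint (K j) (K l) := fun j hj l hl hjl =>
      hLD.KK j (hRI hj) l (hRI hl) hjl
    have hte := tree_e2 hSU hTV hEC hM2 G (B := B) (loss := B) (θ := θ) (A := A) (N := N) hk hHa hT
      (fun j hj => hLD.KX j (hRI hj)) (hZcZ.trans hLD.ZX) hKKR hKZc
      (fun j hj => hLD.clq j (hRI hj)) hdeg' hN1 hN2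
      (fun z hz j hj => by
        rw [← hSS z hz] at hj
        exact (mem_filter.1 hj).2)
      ((Finset.card_le_card hZcZ).trans hLD.cZ) (by omega)
    refine ⟨R, hRI', hRcard, ?_, ?_, hRsum, FT_card hRpos hKKR hKZc hdeg' hcnt', ?_⟩
    · intro z hz hzj
      exact hT.sub z (mem_filter.2 ⟨hz, hzj⟩)
    · intro j hj
      have h1 := hdeg' j hj
      have h2 : (Zc.filter (fun z => j ∈ S z)).card ≤ B :=
        (Finset.card_le_card ((Finset.filter_subset _ _).trans hZcZ)).trans hLD.cZ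
      omega
    · exact hte.trans (Nat.add_le_add_left (hterm R.card hRp).le _)

end Pool.Agent.LHA
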