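import Pool.Agent.UHX.StructG
import Pool.Agent.UHX.DataA

/-!
# Campaign LHA (MP_303581_co): the smaller half of the residues. Definitions

Captain helper71.
-/

set_option autoImplicit false

open Finset

namespace Pool.Agent.LHA

open Pool.Agent.TwoDens

/-- the number of ordered pairs of adjacent vertices in different sets of the family `N j`, `j ∈ J` -/
def xe {V ι : Type} [DecidableEq V] [DecidableEq ι] (G : SimpleGraph V) [DecidableRel G.Adj]
    (J : Finset ι) (N : ι → Finset V) : ℕ :=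
  ∑ j ∈ J, ∑ l ∈ J.erase j, ∑ u ∈ N j, ((N l).filter (G.Adj u)).card

/-- the family `N j`, `j ∈ J`, has an independent transversal -/
def TRV {V ι : Type} (G : SimpleGraph V) (J : Finset ι) (N : ι → Finset V) : Prop :=
  ∃ T : ι → V, (∀ j ∈ J, T j ∈ N j) ∧ ∀ j ∈ J, ∀ l ∈ J, j ≠ l → ¬ G.Adj (T j) (T l)

/-- the elements of `K` that are not adjacent to `z` -/
def non {V : Type} (G : SimpleGraph V) [DecidableRel G.Adj] (z : V) (K : Finset V) : Finset V :=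
  K.filter fun u => ¬ G.Adj z u

/-- `Z` and the sets `S z ⊆ R` form a tree: `par z` is the parent of `z`, the sets `S z \ {par z}` are
disjoint and their union is `R \ {j0}`, two different sets `S z` have at most one common element -/
structure Tree {ι ζ : Type} [DecidableEq ι] [DecidableEq ζ] (R : Finset ι) (Z : Finset ζ) (S : ζ → Finset ι)
    (j0 : ι) (par : ζ → ι) : Prop where
  root : j0 ∈ R
  sub : ∀ z ∈ Z, S z ⊆ R
  par_mem : ∀ z ∈ Z, par z ∈ S z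
  par_root : ∀ z ∈ Z, j0 ∈ S z → par z = j0
  cov : ∀ l ∈ R, l ≠ j0 → ∃ z ∈ Z, l ∈ S z ∧ l ≠ par z
  uniq : ∀ z ∈ Z, ∀ z' ∈ Z, z ≠ z' → ∀ l ∈ S z, l ≠ par z → l ∈ S z' → l = par z'
  inter : ∀ z ∈ Z, ∀ z' ∈ Z, z ≠ z' → ∀ j ∈ S z, j ∈ S z' → ∀ l ∈ S z, l ∈ S z' → j = l

/-- The data of a graph. `I` the names of the `s` cliques `K j`, `Z` the remaining vertices (at most `B`), `S z` the names of the
cliques that are almost completely adjacent to `z`, `L j ⊆ K j` almost all of `K j`. -/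
structure LD {V : Type} [DecidableEq V] (G : SimpleGraph V) [DecidableRel G.Adj] (k s B : ℕ)
    (X I Z : Finset V) (K L S : V → Finset V) : Prop where
  cI : I.card = s
  cZ : Z.card ≤ B
  ZX : Z ⊆ X
  KX : ∀ j ∈ I, K j ⊆ X
  KK : ∀ j ∈ I, ∀ l ∈ I, j ≠ l → Disjoint (K j) (K l)
  KZ : ∀ j ∈ I, Disjoint (K j) Z
  cX : Z.card + ∑ j ∈ I, (K j).card = X.card
  clq : ∀ j ∈ I, ∀ u ∈ K j, ∀ v ∈ K j, u ≠ v → G.Adj u v
  LK : ∀ j ∈ I, L j ⊆ K j
  cL : ∀ j ∈ I, (K j).card ≤ (L j).card + B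
  SI : ∀ z ∈ Z, S z ⊆ I
  Sne : ∀ z ∈ Z, (S z).Nonempty
  dg : ∀ j ∈ I, (K j).card + (Z.filter (fun z => j ∈ S z)).card ≤ k
  tr : ∀ z ∈ Z, ¬ TRV G (S z) (fun j => non G z (L j))
  xek : xe G I K ≤ B * k

/-- the density condition `m_2 ≤ (k+1)/2 - a/(k-2)` -/
def Ha {V : Type} [DecidableEq V] (G : SimpleGraph V) [DecidableRel G.Adj] (k a : ℕ) (X : Finset V) : Prop :=
  ∀ F ⊆ X, 3 ≤ F.card → ((k : ℤ) - 2) * (e2 G F : ℤ) + 2 * (a : ℤ) * ((F.card : ℤ) - 2) ≤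
    ((k : ℤ) - 2) * (2 + ((k : ℤ) + 1) * ((F.card : ℤ) - 2))

end Pool.Agent.LHA
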