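import Pool.Agent.LHA.StE

/-!
# LHA SG: the density of a subset (helper47)
-/

set_option autoImplicit false

open Finset

namespace Pool.Agent.LHA

open Pool.Agent.TwoDens

theorem thm_SG : St_SG := by
  intro V _ G _ F m r hF hI hM
  by_contra hcon
  push Not at hcon
  set M := minTwoDensity m r with hMdef
  have h3 : ∀ Y : Finset V, 3 ≤ Y.card → (0 : ℝ) < 2 * ((Y.card : ℝ) - 2) := by
    intro Y hY
    have h : (3 : ℝ) ≤ Y.card := by exact_mod_cast hY
    linarith
  obtain ⟨c, hc0, hcM, hc⟩ : ∃ c : ℝ, 0 ≤ c ∧ c < M ∧ ∀ Y ⊆ F, 3 ≤ Y.card →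
      (e2 G Y : ℝ) ≤ 2 + 2 * c * ((Y.card : ℝ) - 2) := by
    rcases (F.powerset.filter (fun Y => 3 ≤ Y.card)).eq_empty_or_nonempty with h | h
    · refine ⟨0, le_rfl, hM, ?_⟩
      intro Y hY hY3
      exfalso
      have h1 : Y ∈ F.powerset.filter (fun Y => 3 ≤ Y.card) := by
        rw [mem_filter, mem_powerset]
        exact ⟨hY, hY3⟩
      rw [h] at h1
      exact absurd h1 (notMem_empty _)
    · obtain ⟨Y₀, hY₀, hmax⟩ := Finset.exists_max_image _
        (fun Y : Finset V => ((e2 G Y : ℝ) - 2) / (2 * ((Y.card : ℝ) - 2))) h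
      rw [mem_filter, mem_powerset] at hY₀
      refine ⟨max 0 (((e2 G Y₀ : ℝ) - 2) / (2 * ((Y₀.card : ℝ) - 2))), le_max_left _ _,
        max_lt hM ?_, ?_⟩
      · rw [div_lt_iff₀ (h3 Y₀ hY₀.2)]
        have := hcon Y₀ hY₀.1 hY₀.2
        linarith
      · intro Y hY hY3
        have h1 := hmax Y (by rw [mem_filter, mem_powerset]; exact ⟨hY, hY3⟩)
        have h2 := h1.trans (le_max_right 0 _)
        rw [div_le_iff₀ (h3 Y hY3)] at h2
        linarith
  have hle : M ≤ c := by
    classical
    let G' : SimpleGraph {x // x ∈ F} := G.comap (fun x => (x : V))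
    rw [hMdef]
    refine minTwoDensity_le hc0 G' ?_ ?_ ?_
    · rw [Fintype.card_coe, hF]
    · intro I hI'
      have h1 := hI (I.map (Function.Embedding.subtype _)) (by
        intro x hx
        rw [mem_map] at hx
        obtain ⟨y, -, rfl⟩ := hx
        exact y.2) (by
        intro x hx y hy hxy
        rw [Finset.mem_coe, mem_map] at hx hy
        obtain ⟨x', hx', rfl⟩ := hx
        obtain ⟨y', hy', rfl⟩ := hy
        exact hI' hx' hy' (fun h => hxy (by rw [h])))
      rwa [Finset.card_map] at h1
    · intro Y hY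
      have h4 : e2 G' Y = e2 G (Y.map (Function.Embedding.subtype _)) := by
        unfold e2
        rw [Finset.sum_map]
        refine Finset.sum_congr rfl ?_
        intro x _
        rw [Finset.filter_map, Finset.card_map]
        congr 1
      have h5 := hc (Y.map (Function.Embedding.subtype _)) (by
        intro x hx
        rw [mem_map] at hx
        obtain ⟨y, -, rfl⟩ := hx
        exact y.2) (by rwa [Finset.card_map])
      rw [Finset.card_map] at h5
      rw [h4]
      exact h5
  linarith

end Pool.Agent.LHA
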