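import Pool.Agent.LHA.StE

/-!
# Campaign LHA, module UQ: disjoint copies
-/

set_option autoImplicit false

open Finset

namespace Pool.Agent.LHA

open Pool.Agent.TwoDens

/-- the greatest number of ordered adjacent pairs in a set of `n` vertices -/
private noncomputable def UQ_f (c : ℝ) (n : ℕ) : ℝ := if n ≤ 1 then 0 else 2 + 2 * c * ((n : ℝ) - 2)

private theorem UQ_small (c : ℝ) {n : ℕ} (hn : n ≤ 1) : UQ_f c n = 0 := if_pos hn

private theorem UQ_big (c : ℝ) {n : ℕ} (hn : 2 ≤ n) : UQ_f c n = 2 + 2 * c * ((n : ℝ) - 2) :=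
  if_neg (by omega)

private theorem UQ_add (c : ℝ) (hc : 1 / 2 ≤ c) (a b : ℕ) :
    UQ_f c a + UQ_f c b ≤ UQ_f c (a + b) := by
  rcases Nat.lt_or_ge 1 a with ha | ha
  · have ha' : (2 : ℝ) ≤ a := by exact_mod_cast ha
    rcases Nat.lt_or_ge 1 b with hb | hb
    · have hb' : (2 : ℝ) ≤ b := by exact_mod_cast hb
      rw [UQ_big c ha, UQ_big c hb, UQ_big c (show 2 ≤ a + b by omega)]
      push_cast
      nlinarith
    · have hb0 : (0 : ℝ) ≤ b := Nat.cast_nonneg _
      rw [UQ_big c ha, UQ_small c hb, UQ_big c (show 2 ≤ a + b by omega)]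
      push_cast
      nlinarith
  · have ha0 : (0 : ℝ) ≤ a := Nat.cast_nonneg _
    rcases Nat.lt_or_ge 1 b with hb | hb
    · rw [UQ_small c ha, UQ_big c hb, UQ_big c (show 2 ≤ a + b by omega)]
      push_cast
      nlinarith
    · rw [UQ_small c ha, UQ_small c hb, add_zero]
      rcases Nat.lt_or_ge 1 (a + b) with hab | hab
      · have hab' : (2 : ℝ) ≤ ((a + b : ℕ) : ℝ) := by exact_mod_cast hab
        rw [UQ_big c hab]
        nlinarith
      · rw [UQ_small c hab]

private theorem UQ_sum (c : ℝ) (hc : 1 / 2 ≤ c) {ι : Type} (s : Finset ι) (g : ι → ℕ) :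
    ∑ i ∈ s, UQ_f c (g i) ≤ UQ_f c (∑ i ∈ s, g i) := by
  classical
  induction s using Finset.induction_on with
  | empty =>
    rw [Finset.sum_empty, Finset.sum_empty, UQ_small c (Nat.zero_le _)]
  | insert a s ha ih =>
    rw [Finset.sum_insert ha, Finset.sum_insert ha]
    exact (add_le_add le_rfl ih).trans (UQ_add c hc _ _)

private theorem UQ_G {m : ℕ} (G : SimpleGraph (Fin m)) [DecidableRel G.Adj]
    (Z : Finset (Fin m)) : (e2 G Z : ℝ) ≤ UQ_f (twoDensity G) Z.card := by
  have h0 := e2_add_m2 G Z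
  rcases Nat.lt_or_ge 1 Z.card with h1 | h1
  · rcases Nat.lt_or_ge 2 Z.card with h2 | h2
    · rw [UQ_big _ h1]
      by_contra hcon
      push Not at hcon
      have hZ : (3 : ℝ) ≤ Z.card := by exact_mod_cast h2
      have hZ2 : (0 : ℝ) < (Z.card : ℝ) - 2 := by linarith
      have h3 : ((e2 G Z : ℝ) - 2) / (2 * ((Z.card : ℝ) - 2)) ≤ twoDensity G := by
        refine le_twoDensity G Z h2 ?_
        have h4 : 2 * (((e2 G Z : ℝ) - 2) / (2 * ((Z.card : ℝ) - 2))) * ((Z.card : ℝ) - 2) =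
            (e2 G Z : ℝ) - 2 := by
          field_simp
        rw [h4]
        linarith
      rw [div_le_iff₀ (by linarith)] at h3
      linarith
    · have h3 : Z.card = 2 := by omega
      rw [UQ_big _ h1, h3]
      rw [h3] at h0
      have h4 : e2 G Z ≤ 2 := by omega
      have h5 : (e2 G Z : ℝ) ≤ 2 := by exact_mod_cast h4
      push_cast
      linarith
  · rw [UQ_small _ h1]
    have h4 : e2 G Z = 0 := by
      have h5 : Z.card * Z.card ≤ Z.card := by
        calc Z.card * Z.card ≤ 1 * Z.card := Nat.mul_le_mul_right _ h1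
          _ = Z.card := one_mul _
      omega
    rw [h4]
    push_cast
    exact le_refl _

private theorem UQ_fib {e m : ℕ} (Y : Finset (Fin e × Fin m)) (g : Fin e × Fin m → ℕ) :
    ∑ v ∈ Y, g v = ∑ i, ∑ x ∈ univ.filter (fun x => (i, x) ∈ Y), g (i, x) := by
  have h1 : ∑ v ∈ Y, g v = ∑ v, if v ∈ Y then g v else 0 := by
    rw [Finset.sum_ite_mem, Finset.univ_inter]
  rw [h1, Fintype.sum_prod_type]
  exact Finset.sum_congr rfl fun i _ => (Finset.sum_filter _ _).symm

/-- disjoint copies -/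
private def UQ_H (e : ℕ) {m : ℕ} (G : SimpleGraph (Fin m)) : SimpleGraph (Fin e × Fin m) where
  Adj p q := p.1 = q.1 ∧ G.Adj p.2 q.2
  symm := ⟨fun _ _ h => ⟨h.1.symm, h.2.symm⟩⟩
  loopless := ⟨fun _ h => G.loopless.irrefl _ h.2⟩

private theorem UQ_adj {e m : ℕ} (G : SimpleGraph (Fin m)) (p q : Fin e × Fin m) :
    (UQ_H e G).Adj p q ↔ p.1 = q.1 ∧ G.Adj p.2 q.2 := Iff.rfl

theorem thm_UQ : St_UQ := by
  classical
  intro m r e hm hr he hM
  have hbdd : BddBelow {d : ℝ | ∃ G : SimpleGraph (Fin m), G.indepNum < r ∧ d = twoDensity G} := by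
    refine Set.Finite.bddBelow ?_
    refine (Set.finite_range (fun G : SimpleGraph (Fin m) => twoDensity G)).subset ?_
    rintro d ⟨G, _, rfl⟩
    exact ⟨G, rfl⟩
  refine le_csInf ?_ ?_
  · refine ⟨_, ⊤, ?_, rfl⟩
    rw [indepNum_lt_iff]
    intro I hI
    have : I.card ≤ 1 := by
      rw [Finset.card_le_one]
      intro x hx y hy
      by_contra hxy
      exact hI hx hy hxy hxy
    omega
  rintro d ⟨G, hG, rfl⟩
  have hc : 1 / 2 ≤ twoDensity G := hM.trans (csInf_le hbdd ⟨G, hG, rfl⟩)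
  have hI0 := (indepNum_lt_iff G).1 hG
  refine minTwoDensity_le (by linarith) (UQ_H e G) ?_ ?_ ?_
  · rw [Fintype.card_prod, Fintype.card_fin, Fintype.card_fin]
  · intro I hI
    have h1 := UQ_fib I (fun _ => 1)
    rw [Finset.sum_const, smul_eq_mul, mul_one] at h1
    rw [h1]
    have h2 : ∀ i : Fin e, ∑ x ∈ univ.filter (fun x => (i, x) ∈ I), 1 ≤ r - 1 := by
      intro i
      rw [Finset.sum_const, smul_eq_mul, mul_one]
      have h3 := hI0 (univ.filter (fun x => (i, x) ∈ I)) (by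
        intro x hx y hy hxy hadj
        have hx' := (Finset.mem_filter.1 (Finset.mem_coe.1 hx)).2
        have hy' := (Finset.mem_filter.1 (Finset.mem_coe.1 hy)).2
        exact hI (Finset.mem_coe.2 hx') (Finset.mem_coe.2 hy')
          (fun h => hxy (congrArg Prod.snd h)) ((UQ_adj G _ _).2 ⟨rfl, hadj⟩))
      omega
    have h4 : ∑ i : Fin e, ∑ x ∈ univ.filter (fun x => (i, x) ∈ I), 1 ≤ ∑ _i : Fin e, (r - 1) :=
      Finset.sum_le_sum fun i _ => h2 i
    rw [Finset.sum_const, Finset.card_univ, Fintype.card_fin, smul_eq_mul] at h4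
    omega
  · intro Y hY
    have h1 : e2 (UQ_H e G) Y = ∑ i, e2 G (univ.filter (fun x => (i, x) ∈ Y)) := by
      unfold e2
      rw [UQ_fib Y (fun v => (Y.filter ((UQ_H e G).Adj v)).card)]
      refine Finset.sum_congr rfl fun i _ => Finset.sum_congr rfl fun x _ => ?_
      have h2 : Y.filter ((UQ_H e G).Adj (i, x)) =
          ((univ.filter (fun x => (i, x) ∈ Y)).filter (G.Adj x)).image (fun y => (i, y)) := by
        ext ⟨j, y⟩
        constructor
        · intro h
          obtain ⟨ha, hbc⟩ := Finset.mem_filter.1 h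
          obtain ⟨hb, hc⟩ := (UQ_adj G _ _).1 hbc
          have hij : i = j := hb
          subst hij
          exact Finset.mem_image.2 ⟨y, Finset.mem_filter.2
            ⟨Finset.mem_filter.2 ⟨Finset.mem_univ _, ha⟩, hc⟩, rfl⟩
        · intro h
          obtain ⟨z, hz, hze⟩ := Finset.mem_image.1 h
          obtain ⟨hz1, hz2⟩ := Finset.mem_filter.1 hz
          have hz3 := (Finset.mem_filter.1 hz1).2
          rw [← hze]
          exact Finset.mem_filter.2 ⟨hz3, (UQ_adj G _ _).2 ⟨rfl, hz2⟩⟩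
      rw [h2, Finset.card_image_of_injective _ (fun _ _ h => congrArg Prod.snd h)]
    have h3 := UQ_fib Y (fun _ => 1)
    rw [Finset.sum_const, smul_eq_mul, mul_one] at h3
    have h4 : ∀ i : Fin e, ∑ x ∈ univ.filter (fun x => (i, x) ∈ Y), 1 =
        (univ.filter (fun x => (i, x) ∈ Y)).card := fun i => by
      rw [Finset.sum_const, smul_eq_mul, mul_one]
    rw [Finset.sum_congr rfl fun i _ => h4 i] at h3
    calc (e2 (UQ_H e G) Y : ℝ) = ∑ i, (e2 G (univ.filter (fun x => (i, x) ∈ Y)) : ℝ) := by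
          rw [h1]
          push_cast
          rfl
      _ ≤ ∑ i, UQ_f (twoDensity G) (univ.filter (fun x => (i, x) ∈ Y)).card :=
          Finset.sum_le_sum fun i _ => UQ_G G _
      _ ≤ UQ_f (twoDensity G) (∑ i, (univ.filter (fun x => (i, x) ∈ Y)).card) := UQ_sum _ hc _ _
      _ = 2 + 2 * twoDensity G * ((Y.card : ℝ) - 2) := by
          rw [← h3, UQ_big _ (by omega)]

end Pool.Agent.LHA
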