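import Pool.Agent.LHA.StE

/-!
# Campaign LHA, module XL: edges between the members of a family of disjoint sets
-/

set_option autoImplicit false

open Finset

namespace Pool.Agent.LHA

open Pool.Agent.TwoDens

/-- the ordered adjacent pairs inside `X` -/
private def XL_E {V : Type} (G : SimpleGraph V) [DecidableRel G.Adj] (X : Finset V) :
    Finset (V × V) := (X ×ˢ X).filter fun p => G.Adj p.1 p.2

private theorem XL_card {V : Type} (G : SimpleGraph V) [DecidableRel G.Adj] (X : Finset V) :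
    (XL_E G X).card = e2 G X := by
  unfold XL_E e2
  rw [Finset.card_filter, Finset.sum_product]
  exact Finset.sum_congr rfl fun x _ => (Finset.card_filter _ _).symm

private theorem XL_mem {V : Type} (G : SimpleGraph V) [DecidableRel G.Adj] (X : Finset V)
    (p : V × V) : p ∈ XL_E G X ↔ p.1 ∈ X ∧ p.2 ∈ X ∧ G.Adj p.1 p.2 := by
  unfold XL_E
  rw [Finset.mem_filter, Finset.mem_product, and_assoc]

theorem thm_XL : St_XL := by
  intro V ι _ _ G _ Q F W U σ hF hQ
  have hex : ∃ w : ι → V → V, ∀ i ∈ Q, ∀ u ∈ U i, w i u ∈ W i ∧ G.Adj (w i u) u := by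
    classical
    refine ⟨fun i u => if h : ∃ w ∈ W i, G.Adj w u then h.choose else u, fun i hi u hu => ?_⟩
    have h := (hQ i hi).2.2.2.2.2 u hu
    simp only [dif_pos h]
    exact h.choose_spec
  obtain ⟨w, hw⟩ := hex
  have hdis : ∀ i ∈ Q, ∀ j ∈ Q, ∀ x, x ∈ F i → x ∈ F j → i = j := by
    intro i hi j hj x hx hx'
    by_contra hne
    exact Finset.disjoint_left.mp (hF i hi j hj hne) hx hx'
  set A : Finset (V × V) := Q.biUnion fun i => XL_E G (F i) with hA
  set B : Finset (V × V) := Q.biUnion fun i => (U i).image fun u => (w i u, u) with hB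
  set C : Finset (V × V) := Q.biUnion fun i => (U i).image fun u => (u, w i u) with hC
  have cA : A.card = ∑ i ∈ Q, e2 G (F i) := by
    rw [hA, Finset.card_biUnion]
    · exact Finset.sum_congr rfl fun i _ => XL_card G (F i)
    · intro i hi j hj hne
      refine Finset.disjoint_left.mpr ?_
      intro p hp hp'
      exact hne (hdis i hi j hj p.1 ((XL_mem G _ p).mp hp).1 ((XL_mem G _ p).mp hp').1)
  have cB : B.card = ∑ i ∈ Q, (U i).card := by
    rw [hB, Finset.card_biUnion]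
    · refine Finset.sum_congr rfl fun i _ => Finset.card_image_of_injOn ?_
      intro u _ v _ h
      exact (Prod.mk.inj h).2
    · intro i hi j hj hne
      refine Finset.disjoint_left.mpr ?_
      intro p hp hp'
      obtain ⟨u, hu, rfl⟩ := Finset.mem_image.mp hp
      obtain ⟨v, hv, he⟩ := Finset.mem_image.mp hp'
      have h1 := (Prod.mk.inj he).1
      have h2 : w i u ∈ F i := (hQ i hi).2.2.1 (hw i hi u hu).1
      have h3 : w j v ∈ F j := (hQ j hj).2.2.1 (hw j hj v hv).1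
      rw [h1] at h3
      exact hne (hdis i hi j hj _ h2 h3)
  have cC : C.card = ∑ i ∈ Q, (U i).card := by
    rw [hC, Finset.card_biUnion]
    · refine Finset.sum_congr rfl fun i _ => Finset.card_image_of_injOn ?_
      intro u _ v _ h
      exact (Prod.mk.inj h).1
    · intro i hi j hj hne
      refine Finset.disjoint_left.mpr ?_
      intro p hp hp'
      obtain ⟨u, hu, rfl⟩ := Finset.mem_image.mp hp
      obtain ⟨v, hv, he⟩ := Finset.mem_image.mp hp'
      have h1 := (Prod.mk.inj he).2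
      have h2 : w i u ∈ F i := (hQ i hi).2.2.1 (hw i hi u hu).1
      have h3 : w j v ∈ F j := (hQ j hj).2.2.1 (hw j hj v hv).1
      rw [h1] at h3
      exact hne (hdis i hi j hj _ h2 h3)
  have dAB : Disjoint A B := by
    rw [Finset.disjoint_left]
    intro p hp hp'
    obtain ⟨i, hi, hpi⟩ := Finset.mem_biUnion.mp hp
    obtain ⟨j, hj, hpj⟩ := Finset.mem_biUnion.mp hp'
    obtain ⟨v, hv, rfl⟩ := Finset.mem_image.mp hpj
    obtain ⟨k1, k2, -⟩ := (XL_mem G _ _).mp hpi
    have e1 : i = j := hdis i hi j hj _ k1 ((hQ j hj).2.2.1 (hw j hj v hv).1)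
    have e2 : i = σ j := hdis i hi (σ j) (hQ j hj).1 _ k2 ((hQ j hj).2.2.2.1 hv)
    exact (hQ j hj).2.1 (e2.symm.trans e1)
  have dAC : Disjoint A C := by
    rw [Finset.disjoint_left]
    intro p hp hp'
    obtain ⟨i, hi, hpi⟩ := Finset.mem_biUnion.mp hp
    obtain ⟨j, hj, hpj⟩ := Finset.mem_biUnion.mp hp'
    obtain ⟨v, hv, rfl⟩ := Finset.mem_image.mp hpj
    obtain ⟨k1, k2, -⟩ := (XL_mem G _ _).mp hpi
    have e1 : i = j := hdis i hi j hj _ k2 ((hQ j hj).2.2.1 (hw j hj v hv).1)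
    have e2 : i = σ j := hdis i hi (σ j) (hQ j hj).1 _ k1 ((hQ j hj).2.2.2.1 hv)
    exact (hQ j hj).2.1 (e2.symm.trans e1)
  have dBC : Disjoint B C := by
    rw [Finset.disjoint_left]
    intro p hp hp'
    obtain ⟨i, hi, hpi⟩ := Finset.mem_biUnion.mp hp
    obtain ⟨j, hj, hpj⟩ := Finset.mem_biUnion.mp hp'
    obtain ⟨u, hu, rfl⟩ := Finset.mem_image.mp hpi
    obtain ⟨v, hv, he⟩ := Finset.mem_image.mp hpj
    -- v = w i u, w j v = u
    have h1 : v = w i u := (Prod.mk.inj he).1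
    have h2 : w i u ∈ W i := (hw i hi u hu).1
    have h3 : v ∈ F (σ j) := (hQ j hj).2.2.2.1 hv
    have e1 : i = σ j := hdis i hi (σ j) (hQ j hj).1 _ ((hQ i hi).2.2.1 h2) (h1 ▸ h3)
    have h4 := Finset.disjoint_left.mp (hQ j hj).2.2.2.2.1 hv
    rw [← e1, h1] at h4
    exact h4 h2
  have sub : A ∪ (B ∪ C) ⊆ XL_E G (Q.biUnion F) := by
    intro p hp
    rw [XL_mem]
    rcases Finset.mem_union.mp hp with hp | hp
    · obtain ⟨i, hi, hpi⟩ := Finset.mem_biUnion.mp hp
      obtain ⟨k1, k2, k3⟩ := (XL_mem G _ _).mp hpi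
      exact ⟨Finset.mem_biUnion.mpr ⟨i, hi, k1⟩, Finset.mem_biUnion.mpr ⟨i, hi, k2⟩, k3⟩
    · rcases Finset.mem_union.mp hp with hp | hp
      · obtain ⟨j, hj, hpj⟩ := Finset.mem_biUnion.mp hp
        obtain ⟨v, hv, rfl⟩ := Finset.mem_image.mp hpj
        exact ⟨Finset.mem_biUnion.mpr ⟨j, hj, (hQ j hj).2.2.1 (hw j hj v hv).1⟩,
          Finset.mem_biUnion.mpr ⟨σ j, (hQ j hj).1, (hQ j hj).2.2.2.1 hv⟩, (hw j hj v hv).2⟩
      · obtain ⟨j, hj, hpj⟩ := Finset.mem_biUnion.mp hp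
        obtain ⟨v, hv, rfl⟩ := Finset.mem_image.mp hpj
        exact ⟨Finset.mem_biUnion.mpr ⟨σ j, (hQ j hj).1, (hQ j hj).2.2.2.1 hv⟩,
          Finset.mem_biUnion.mpr ⟨j, hj, (hQ j hj).2.2.1 (hw j hj v hv).1⟩, (hw j hj v hv).2.symm⟩
  have hcard := Finset.card_le_card sub
  rw [XL_card, Finset.card_union_of_disjoint, Finset.card_union_of_disjoint dBC, cA, cB, cC]
    at hcard
  · omega
  · exact Finset.disjoint_union_right.mpr ⟨dAB, dAC⟩

end Pool.Agent.LHA
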