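import Pool.Agent.LHA.FE
import Pool.Agent.LHA.DC
import Pool.Agent.LHA.XL
import Pool.Agent.LHA.UQ
import Pool.Agent.LHA.SG
import Pool.Agent.LHA.All

/-!
# Campaign LHA (MP_303581_co): the exact reduction if `s - t` divides `s`
-/

set_option autoImplicit false

open Finset

namespace Pool.Agent.LHA

open Pool.Agent.TwoDens

theorem up_nat (s t p k : ℕ) (hp : 1 ≤ p) (hts : t < s)
    (hst : (s - t) * (p + 1) ≤ s) (hk : 100 * p + 13 ≤ k) : ∃ c : ℕ,
      Real.sqrt ((p : ℝ) * k / 2) ≤ ((p * c : ℕ) : ℝ) + 2 * p ∧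
      minTwoDensity (k * s - t) (s + 1) ≤ ((k : ℝ) + 1) / 2 - ((p * c : ℕ) : ℝ) / ((k : ℝ) - 2) := by
  have hk13 : 13 ≤ k := by omega
  have hkR : (13 : ℝ) ≤ k := by exact_mod_cast hk13
  set x := Real.sqrt ((p : ℝ) * k / 2) with hx
  have hx0 : 0 ≤ x := Real.sqrt_nonneg _
  have hxx : x * x = (p : ℝ) * k / 2 := Real.mul_self_sqrt (by positivity)
  set n := (k - 2) / (2 * p) with hn
  set c := Nat.sqrt n with hc
  have h2p : 0 < 2 * p := by omega
  have hn1 : 2 * p * n ≤ k - 2 := Nat.mul_div_le _ _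
  have hn2 : k - 2 < 2 * p * (n + 1) := by
    have := Nat.lt_mul_div_succ (k - 2) h2p
    simpa [Nat.succ_eq_add_one] using this
  have hc1 : c * c ≤ n := Nat.sqrt_le n
  have hc2 : n + 1 ≤ (c + 1) * (c + 1) := Nat.lt_succ_sqrt n
  have hcp : 1 ≤ c := by
    by_contra hcon
    have h0 : c = 0 := by omega
    rw [h0] at hc2
    have hn0 : n = 0 := by omega
    rw [hn0] at hn2
    omega
  have g1 : 2 * (p * (c * c)) + 2 ≤ k := by
    have : 2 * p * (c * c) ≤ 2 * p * n := Nat.mul_le_mul_left _ hc1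
    have e : 2 * (p * (c * c)) = 2 * p * (c * c) := by ring
    omega
  have g2 : 4 * (p * c) + 8 ≤ k := by
    rcases Nat.lt_or_ge c 4 with h4 | h4
    · have : p * c ≤ p * 3 := Nat.mul_le_mul_left _ (by omega)
      omega
    · have h5 : p * (4 * c) ≤ p * (c * c) := Nat.mul_le_mul_left _ (Nat.mul_le_mul_right _ h4)
      have h6 : 1 * 4 ≤ p * c := Nat.mul_le_mul hp h4
      have h7 : p * (4 * c) = 4 * (p * c) := by ring
      omega
  have hup := up_main thm_UE thm_UA thm_UI thm_UV s t p c k hp hcp hts hst g1 g2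
  refine ⟨c, ?_, hup⟩
  have hkey : k ≤ 2 * p * ((c + 1) * (c + 1)) + 2 := by
    have : 2 * p * (n + 1) ≤ 2 * p * ((c + 1) * (c + 1)) := Nat.mul_le_mul_left _ hc2
    omega
  have hkeyR : (k : ℝ) ≤ 2 * p * (((c : ℝ) + 1) * ((c : ℝ) + 1)) + 2 := by exact_mod_cast hkey
  have hpR : (1 : ℝ) ≤ p := by exact_mod_cast hp
  have hcR : (1 : ℝ) ≤ c := by exact_mod_cast hcp
  push_cast
  by_contra hcon
  push Not at hcon
  have h0 : (0 : ℝ) ≤ p * c + 2 * p := by positivity
  have h1 : ((p : ℝ) * c + 2 * p) * (p * c + 2 * p) < x * x := by nlinarith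
  rw [hxx] at h1
  have h2 : (p : ℝ) * k ≤ p * (2 * p * (((c : ℝ) + 1) * ((c : ℝ) + 1)) + 2) :=
    mul_le_mul_of_nonneg_left hkeyR (by linarith)
  have h3 : (p : ℝ) ≤ p * p := by nlinarith
  have h4 : (0 : ℝ) ≤ p * p * c := by positivity
  nlinarith

/-- `M(k (p + 1) e - p e, (p + 1) e + 1) = M(k (p + 1) - p, p + 2)` for all large `k` -/
theorem eq_div (p e : ℕ) (hp : 1 ≤ p) (he : 1 ≤ e) : ∃ K₀ : ℕ, ∀ k : ℕ, K₀ ≤ k →
    minTwoDensity (k * ((p + 1) * e) - p * e) ((p + 1) * e + 1) = minTwoDensity (k * (p + 1) - p) (p + 2) := by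
  set s := (p + 1) * e with hs
  set t := p * e with ht
  have hs2 : 2 ≤ s := by
    have : 2 * 1 ≤ (p + 1) * e := Nat.mul_le_mul (by omega) he
    omega
  have hts : s = t + e := by rw [hs, ht]; ring
  obtain ⟨B, K1, hB⟩ := thm_DC s t (4 * e) hs2
  obtain ⟨Cl, Kl, hKl⟩ := low_real (thm_LOW thm_TR thm_SU thm_TV thm_LG thm_EC thm_DT thm_M2) (p + 1) p p hp
    (by omega) (by nlinarith) (by omega)
  set C' := 2 * p + 1 with hC'
  set m := 4 * (B + 1) * (s + 1) * p with hm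
  set D := m * (2 * B + 1) + s + B with hD
  set C1 := (p + 1) * (B * B + 2 * (B * D)) + 1 with hC1
  set T := (p * (4 * (C' + 2 * (B * B)) + C1) + 4 * (C' + 2 * (B * B))) +
    (p * (4 * e * (C' + 2 * (B * B)) + e * C1 + 2 * e * (B + p + 2)) + 4) with hT
  refine ⟨K1 + Kl + Cl + 2 * (T * T) + 100 * p + t + 13, ?_⟩
  intro k hk
  have hk13 : 13 ≤ k := by omega
  have hkR : (13 : ℝ) ≤ k := by exact_mod_cast hk13
  set M := minTwoDensity (k * (p + 1) - p) (p + 2) with hM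
  -- `M ≥ 1 / 2`
  have hM2 : 1 / 2 ≤ M := by
    have h1 := hKl k (by omega)
    have h2 : Real.sqrt ((p : ℝ) / (2 * k)) ≤ 1 := by
      rw [Real.sqrt_le_iff]
      refine ⟨by norm_num, ?_⟩
      rw [one_pow, div_le_one (by positivity)]
      have : (p : ℝ) ≤ k := by exact_mod_cast (by omega : p ≤ k)
      linarith
    have h3 : (Cl : ℝ) / k ≤ 1 := by
      rw [div_le_one (by positivity)]
      exact_mod_cast (by omega : Cl ≤ k)
    have h4 : ((k : ℝ) + 1) / 2 - Real.sqrt ((p : ℝ) / (2 * k)) - (Cl : ℝ) / k ≤ M := h1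
    linarith
  have hkp : p ≤ k * (p + 1) := by
    have : 1 * (p + 1) ≤ k * (p + 1) := Nat.mul_le_mul_right _ (by omega)
    omega
  refine le_antisymm ?_ ?_
  · -- disjoint copies
    have h1 := thm_UQ (k * (p + 1) - p) (p + 2) e (by
      have : 13 * (p + 1) ≤ k * (p + 1) := Nat.mul_le_mul_right _ hk13
      omega) (by omega) he hM2
    have h2 : e * (k * (p + 1) - p) = k * s - t := by
      rw [Nat.mul_sub, hs, ht]
      congr 1 <;> ring
    have h3 : e * (p + 2 - 1) + 1 = s + 1 := by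
      have : p + 2 - 1 = p + 1 := by omega
      rw [this, hs, mul_comm]
    rw [h2, h3] at h1
    exact h1
  · -- the lower bound
    obtain ⟨c0, hc0, hup⟩ := up_nat (p + 1) p p k hp (by omega) (by
      have : p + 1 - p = 1 := by omega
      rw [this, one_mul]) (by omega)
    set a := p * c0 with ha
    have hup' : M ≤ ((k : ℝ) + 1) / 2 - (a : ℝ) / ((k : ℝ) - 2) := hup
    set x := Real.sqrt ((p : ℝ) * k / 2) with hx
    have hx0 : 0 ≤ x := Real.sqrt_nonneg _
    have hxx : x * x = (p : ℝ) * k / 2 := Real.mul_self_sqrt (by positivity)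
    set c := ⌈x⌉₊ with hc
    have hc1 : x ≤ c := Nat.le_ceil x
    have hc2 : (c : ℝ) < x + 1 := Nat.ceil_lt_add_one hx0
    have hpk1 : p * k ≤ 2 * (c * c) := by
      have h1 : x * x ≤ (c : ℝ) * c := mul_le_mul hc1 hc1 hx0 (by positivity)
      have h2 : (p : ℝ) * k ≤ 2 * ((c : ℝ) * c) := by linarith
      exact_mod_cast h2
    have hpk2 : 2 * ((c - 1) * (c - 1)) ≤ p * k := by
      have h1 : ((c - 1 : ℕ) : ℝ) ≤ x := by
        rcases Nat.eq_zero_or_pos c with h0 | h0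
        · rw [h0]; simpa using hx0
        · rw [Nat.cast_sub h0, Nat.cast_one]; linarith
      have h2 : ((c - 1 : ℕ) : ℝ) * ((c - 1 : ℕ) : ℝ) ≤ x * x := mul_le_mul h1 h1 (Nat.cast_nonneg _) hx0
      have h3 : 2 * (((c - 1 : ℕ) : ℝ) * ((c - 1 : ℕ) : ℝ)) ≤ (p : ℝ) * k := by linarith
      exact_mod_cast h3
    have hac : c ≤ a + C' := by
      have h1 : (c : ℝ) < (a : ℝ) + 2 * p + 1 := by linarith
      have h2 : (c : ℝ) < ((a + C' : ℕ) : ℝ) := by
        rw [hC']
        push_cast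
        linarith
      exact (by exact_mod_cast h2 : c < a + C').le
    have hTc : T ≤ c := by
      by_contra hcon
      push Not at hcon
      have h1 : c * c ≤ T * T := Nat.mul_le_mul hcon.le hcon.le
      have h2 : 1 * k ≤ p * k := Nat.mul_le_mul_right _ hp
      omega
    refine le_minTwoDensity (by omega) ?_
    intro G _ hα
    by_contra hcon
    push Not at hcon
    have hpos : 0 ≤ (a : ℝ) / ((k : ℝ) - 2) := by
      apply div_nonneg (Nat.cast_nonneg _)
      linarith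
    have hlt : ∀ Y : Finset (Fin (k * s - t)), 3 ≤ Y.card →
        (e2 G Y : ℝ) < 2 + 2 * (((k : ℝ) + 1) / 2 - (a : ℝ) / ((k : ℝ) - 2)) * ((Y.card : ℝ) - 2) := by
      intro Y hY
      have h1 := hcon Y hY
      have hY' : (3 : ℝ) ≤ Y.card := by exact_mod_cast hY
      have h2 : M * ((Y.card : ℝ) - 2) ≤
          (((k : ℝ) + 1) / 2 - (a : ℝ) / ((k : ℝ) - 2)) * ((Y.card : ℝ) - 2) :=
        mul_le_mul_of_nonneg_right hup' (by linarith)
      linarith
    have hS : Sk G k Finset.univ := by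
      intro Y _ hY
      have h1 := hlt Y hY
      have hY' : (3 : ℝ) ≤ Y.card := by exact_mod_cast hY
      have h2 : (e2 G Y : ℝ) + 2 * k < (k + 1) * Y.card := by
        nlinarith [mul_nonneg hpos (by linarith : (0 : ℝ) ≤ (Y.card : ℝ) - 2)]
      have h3 : e2 G Y + 2 * k < (k + 1) * Y.card := by exact_mod_cast h2
      omega
    have hal : Al G s Finset.univ := by
      intro I _ hI
      have := hα I hI
      omega
    have hHa : Ha G k a Finset.univ := by
      intro Y _ hY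
      have h1 := hlt Y hY
      have h6 : (a : ℝ) / ((k : ℝ) - 2) * ((k : ℝ) - 2) = (a : ℝ) :=
        div_mul_cancel₀ _ (by linarith)
      have h7 : ((k : ℝ) - 2) * (e2 G Y : ℝ) + 2 * (a : ℝ) * ((Y.card : ℝ) - 2) <
          ((k : ℝ) - 2) * (2 + ((k : ℝ) + 1) * ((Y.card : ℝ) - 2)) := by
        have h8 := mul_lt_mul_of_pos_left h1 (by linarith : (0 : ℝ) < (k : ℝ) - 2)
        have h9 : ((k : ℝ) - 2) * (2 + 2 * (((k : ℝ) + 1) / 2 - (a : ℝ) / ((k : ℝ) - 2)) *
            ((Y.card : ℝ) - 2)) = ((k : ℝ) - 2) * (2 + ((k : ℝ) + 1) * ((Y.card : ℝ) - 2)) -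
            2 * ((a : ℝ) / ((k : ℝ) - 2) * ((k : ℝ) - 2)) * ((Y.card : ℝ) - 2) := by ring
        rw [h9, h6] at h8
        linarith
      have h8 : ((k : ℤ) - 2) * (e2 G Y : ℤ) + 2 * (a : ℤ) * ((Y.card : ℤ) - 2) <
          ((k : ℤ) - 2) * (2 + ((k : ℤ) + 1) * ((Y.card : ℤ) - 2)) := by exact_mod_cast h7
      exact h8.le
    have hks : t ≤ k * s := by
      have : 1 * s ≤ k * s := Nat.mul_le_mul_right _ (by omega)
      omega
    have hcard : (Finset.univ : Finset (Fin (k * s - t))).card + t = k * s := by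
      rw [Finset.card_univ, Fintype.card_fin]
      omega
    obtain ⟨I, Z, K, L, S, h, hLD, hCov⟩ := hB k (by omega) _ G Finset.univ hS hal hcard
    obtain ⟨F, -, hFc, hFi⟩ := some_comp thm_TR thm_SU thm_TV thm_LG thm_EC thm_M2 thm_XL G (p := p) (e := e) (a := a)
      (c := c) (m := m) (D := D) (C1 := C1) (C' := C') (A := a - 2 * (B * B)) hLD hCov hS hs hcard hp he (by omega) hpk1 hpk2 hm hD
      hC1 hac (by omega) (by omega) hHa (by omega)
    obtain ⟨Y, hYF, hY3, hYe⟩ := thm_SG _ G F (k * (p + 1) - p) (p + 2) (by omega) hFi (by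
      rw [← hM]
      linarith)
    exact absurd hYe (not_le.2 (hcon Y hY3))

end Pool.Agent.LHA
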