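import Pool.Agent.LHA.St

/-!
# Campaign LHA (MP_303581_co): the final inequality for one tree
-/

set_option autoImplicit false

open Finset

namespace Pool.Agent.LHA

open Pool.Agent.TwoDens

theorem non_add {V : Type} [DecidableEq V] (G : SimpleGraph V) [DecidableRel G.Adj] (z : V) (K : Finset V) :
    (K.filter (G.Adj z)).card + (non G z K).card = K.card := by
  unfold non
  exact Finset.card_filter_add_card_filter_not _

theorem swap_sum {V : Type} [DecidableEq V] (R Z : Finset V) (S : V → Finset V) (hS : ∀ z ∈ Z, S z ⊆ R)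
    (f : V → V → ℤ) :
    ∑ z ∈ Z, ∑ j ∈ S z, f z j = ∑ j ∈ R, ∑ z ∈ Z.filter (fun z => j ∈ S z), f z j := by
  have h1 : ∀ z ∈ Z, ∑ j ∈ S z, f z j = ∑ j ∈ R, if j ∈ S z then f z j else 0 := by
    intro z hz
    rw [← Finset.sum_filter]
    refine Finset.sum_congr ?_ fun _ _ => rfl
    ext j
    rw [mem_filter]
    exact ⟨fun h => ⟨hS z hz h, h⟩, fun h => h.2⟩
  rw [Finset.sum_congr rfl h1, Finset.sum_comm]
  refine Finset.sum_congr rfl fun j _ => ?_
  rw [Finset.sum_filter]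

/-- the final inequality -/
theorem fin_ineq (hSU : St_SU) (hTV : St_TV) (hEC : St_EC) (hM2 : St_M2)
    {V : Type} [DecidableEq V] (G : SimpleGraph V) [DecidableRel G.Adj] {k a B loss θ A : ℕ}
    {X R Z : Finset V} {K S : V → Finset V} {N : V → V → Finset V} {j0 : V} {par : V → V}
    (hk : 3 ≤ k) (hHa : Ha G k a X) (hT : Tree R Z S j0 par)
    (hKX : ∀ j ∈ R, K j ⊆ X) (hZX : Z ⊆ X)
    (hKK : ∀ j ∈ R, ∀ l ∈ R, j ≠ l → Disjoint (K j) (K l)) (hKZ : ∀ j ∈ R, Disjoint (K j) Z)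
    (hclq : ∀ j ∈ R, ∀ u ∈ K j, ∀ v ∈ K j, u ≠ v → G.Adj u v)
    (hdeg : ∀ j ∈ R, (K j).card + (Z.filter (fun z => j ∈ S z)).card = k)
    (hcnt : ∑ j ∈ R, (Z.filter (fun z => j ∈ S z)).card + 1 = R.card + Z.card)
    (hN : ∀ z ∈ Z, ∀ j ∈ S z, N z j ⊆ non G z (K j) ∧ (non G z (K j)).card ≤ (N z j).card + loss)
    (htr : ∀ z ∈ Z, ¬ TRV G (S z) (N z))
    (hθ : ∀ z ∈ Z, ∀ j ∈ S z, (non G z (K j)).card ≤ θ) (hB : Z.card ≤ B)
    (hA : A + B * B + B * loss = a) :
    2 * (A * A) ≤ (k - 1) * (R.card - 1) + R.card * (B * B + 2 * (B * θ)) := by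
  classical
  have hRpos : 1 ≤ R.card := Finset.card_pos.2 ⟨j0, hT.root⟩
  set n : V → ℕ := fun j => (Z.filter (fun z => j ∈ S z)).card with hn
  set w : V → ℕ := fun j => ∑ z ∈ Z.filter (fun z => j ∈ S z), (non G z (K j)).card with hw
  have hnB : ∀ j, n j ≤ B := fun j => (Finset.card_le_card (Finset.filter_subset _ _)).trans hB
  -- missing pairs
  have hmis : ∀ j ∈ R, 2 * a ≤ 2 * w j + n j * n j := fun j hj =>
    hM2 V G k a X (K j) (Z.filter (fun z => j ∈ S z)) hk hHa (hKX j hj)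
      ((Finset.filter_subset _ _).trans hZX)
      (Finset.disjoint_of_subset_right (Finset.filter_subset _ _) (hKZ j hj)) (hdeg j hj) (hclq j hj)
  have hwθ : ∀ j, w j ≤ B * θ := by
    intro j
    calc w j ≤ ∑ z ∈ Z.filter (fun z => j ∈ S z), θ :=
          Finset.sum_le_sum fun z hz => hθ z (mem_filter.1 hz).1 j (mem_filter.1 hz).2
      _ = n j * θ := by rw [Finset.sum_const, smul_eq_mul]
      _ ≤ B * θ := Nat.mul_le_mul_right _ (hnB j)
  -- the sum over the tree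
  have hsum : (A : ℝ) * A ≤ ∑ z ∈ Z, (xe G (S z) (N z) : ℝ) / 2 := by
    refine hSU V V R Z S j0 par (fun z j => ((N z j).card : ℝ)) (fun z => (xe G (S z) (N z) : ℝ) / 2) A hT
      (Nat.cast_nonneg _) (fun _ _ _ _ => Nat.cast_nonneg _) ?_ ?_
    · intro z hz
      refine ⟨by positivity, ?_⟩
      rcases hTV V V G (S z) (N z) ⟨par z, hT.par_mem z hz⟩ (htr z hz) with ⟨j, hj, hj'⟩ | ⟨j, hj, l, hl, hjl, h⟩
      · left
        intro i hi
        rw [hj, mem_singleton] at hi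
        subst hi
        simp [hj']
      · right
        refine ⟨j, hj, l, hl, hjl, ?_⟩
        have h' : (2 : ℝ) * (((N z j).card : ℝ) * ((N z l).card : ℝ)) ≤ (xe G (S z) (N z) : ℝ) := by
          exact_mod_cast h
        linarith
    · intro j hj
      have h1 : w j ≤ ∑ z ∈ Z.filter (fun z => j ∈ S z), (N z j).card + n j * loss := by
        calc w j ≤ ∑ z ∈ Z.filter (fun z => j ∈ S z), ((N z j).card + loss) :=
              Finset.sum_le_sum fun z hz => (hN z (mem_filter.1 hz).1 j (mem_filter.1 hz).2).2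
          _ = _ := by rw [Finset.sum_add_distrib, Finset.sum_const, smul_eq_mul]
      have h2 := hmis j hj
      have h3 : n j * loss ≤ B * loss := Nat.mul_le_mul_right _ (hnB j)
      have h4 : n j * n j ≤ B * B := Nat.mul_le_mul (hnB j) (hnB j)
      have h5 : A ≤ ∑ z ∈ Z.filter (fun z => j ∈ S z), (N z j).card := by omega
      exact_mod_cast h5
  have hsum2 : 2 * (A * A) ≤ ∑ z ∈ Z, xe G (S z) (N z) := by
    have h1 : (2 : ℝ) * ((A : ℝ) * A) ≤ ∑ z ∈ Z, (xe G (S z) (N z) : ℝ) := by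
      rw [← Finset.sum_div] at hsum
      linarith
    exact_mod_cast h1
  -- counting edges
  have hec := hEC V G R Z K S N hKK hKZ hclq hT.sub hT.inter
    (fun z hz j hj => (hN z hz j hj).1.trans (Finset.filter_subset _ _))
  set F := R.biUnion K ∪ Z with hF
  have hdisj : Disjoint (R.biUnion K) Z := by
    rw [Finset.disjoint_biUnion_left]
    exact hKZ
  have hFc : F.card = ∑ j ∈ R, (K j).card + Z.card := by
    rw [hF, Finset.card_union_of_disjoint hdisj, Finset.card_biUnion]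
    exact fun j hj l hl hjl => hKK j hj l hl hjl
  have hFX : F ⊆ X := by
    refine Finset.union_subset ?_ hZX
    rw [Finset.biUnion_subset]
    exact hKX
  -- sizes
  have hKn : ∀ j ∈ R, ((K j).card : ℤ) = k - n j := by
    intro j hj
    have h1 := hdeg j hj
    have h2 : (K j).card + n j = k := h1
    have h3 : ((K j).card : ℤ) + n j = k := by exact_mod_cast h2
    linarith
  have hcntZ : (∑ j ∈ R, (n j : ℤ)) + 1 = R.card + Z.card := by exact_mod_cast hcnt
  have hFcZ : (F.card : ℤ) = ((k : ℤ) - 1) * R.card + 1 := by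
    have h1 : (F.card : ℤ) = ∑ j ∈ R, ((K j).card : ℤ) + Z.card := by exact_mod_cast hFc
    rw [h1, Finset.sum_congr rfl hKn, Finset.sum_sub_distrib, Finset.sum_const, nsmul_eq_mul]
    linarith
  have hRZ : (1 : ℤ) ≤ R.card := by exact_mod_cast hRpos
  have hkZ : (3 : ℤ) ≤ k := by exact_mod_cast hk
  have hF3 : 3 ≤ F.card := by
    have h1 : ((k : ℤ) - 1) * 1 ≤ ((k : ℤ) - 1) * R.card := mul_le_mul_of_nonneg_left hRZ (by linarith)
    have h2 : (3 : ℤ) ≤ F.card := by rw [hFcZ]; linarith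
    exact_mod_cast h2
  have hHaF := hHa F hFX hF3
  have he2 : (e2 G F : ℤ) + 2 * a * R.card ≤ 2 + ((k : ℤ) + 1) * ((F.card : ℤ) - 2) := by
    have h1 : ((k : ℤ) - 2) * R.card ≤ (F.card : ℤ) - 2 := by rw [hFcZ]; linarith
    have ha0 : (0 : ℤ) ≤ 2 * (a : ℤ) := by positivity
    have h2 : 2 * (a : ℤ) * (((k : ℤ) - 2) * R.card) ≤ 2 * (a : ℤ) * ((F.card : ℤ) - 2) :=
      mul_le_mul_of_nonneg_left h1 ha0
    have h3 : ((k : ℤ) - 2) * ((e2 G F : ℤ) + 2 * a * R.card) ≤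
        ((k : ℤ) - 2) * (2 + ((k : ℤ) + 1) * ((F.card : ℤ) - 2)) := by
      refine le_trans (le_of_eq ?_) (le_trans (add_le_add_right h2 (((k : ℤ) - 2) * (e2 G F : ℤ))) hHaF)
      ring
    exact le_of_mul_le_mul_left h3 (by linarith)
  -- the edges counted
  have hA1 : ∀ j ∈ R, (((K j).card * ((K j).card - 1) : ℕ) : ℤ) = ((k : ℤ) - n j) * ((k : ℤ) - n j - 1) := by
    intro j hj
    have h1 := hKn j hj
    rw [← h1]
    rcases Nat.eq_zero_or_pos (K j).card with h0 | h0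
    · rw [h0]; simp
    · rw [Nat.cast_mul, Nat.cast_sub h0]
      simp
  have hA2 : (∑ z ∈ Z, ∑ j ∈ S z, (((K j).filter (G.Adj z)).card : ℤ)) =
      ∑ j ∈ R, ((n j : ℤ) * ((k : ℤ) - n j) - w j) := by
    rw [swap_sum R Z S hT.sub (fun z j => (((K j).filter (G.Adj z)).card : ℤ))]
    refine Finset.sum_congr rfl fun j hj => ?_
    have h1 : ∀ z ∈ Z.filter (fun z => j ∈ S z), (((K j).filter (G.Adj z)).card : ℤ) =
        ((k : ℤ) - n j) - ((non G z (K j)).card : ℤ) := by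
      intro z _
      have h2 := non_add G z (K j)
      have h3 : (((K j).filter (G.Adj z)).card : ℤ) + ((non G z (K j)).card : ℤ) = (K j).card := by
        exact_mod_cast h2
      rw [hKn j hj] at h3
      linarith
    rw [Finset.sum_congr rfl h1, Finset.sum_sub_distrib, Finset.sum_const, nsmul_eq_mul]
    simp only [hw, hn]
    push_cast
    ring
  have hecZ : (∑ j ∈ R, ((k : ℤ) - n j) * ((k : ℤ) - n j - 1)) +
      2 * (∑ j ∈ R, ((n j : ℤ) * ((k : ℤ) - n j) - w j)) + (∑ z ∈ Z, (xe G (S z) (N z) : ℤ)) ≤ e2 G F := by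
    rw [← hA2, ← Finset.sum_congr rfl hA1]
    exact_mod_cast hec
  have hsq : (∑ j ∈ R, ((k : ℤ) - n j) * ((k : ℤ) - n j - 1)) +
      2 * (∑ j ∈ R, ((n j : ℤ) * ((k : ℤ) - n j) - w j)) =
      ((k : ℤ) * k - k) * R.card - ∑ j ∈ R, ((n j : ℤ) * n j - n j + 2 * w j) := by
    rw [Finset.mul_sum, ← Finset.sum_add_distrib]
    have h1 : ((k : ℤ) * k - k) * R.card = ∑ j ∈ R, ((k : ℤ) * k - k) := by
      rw [Finset.sum_const, nsmul_eq_mul]; ring
    rw [h1, ← Finset.sum_sub_distrib]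
    refine Finset.sum_congr rfl fun j _ => ?_
    ring
  have hbd : ∑ j ∈ R, ((n j : ℤ) * n j - n j + 2 * w j) ≤ R.card * ((B : ℤ) * B + 2 * (B * θ)) := by
    have h1 : ∀ j ∈ R, ((n j : ℤ) * n j - n j + 2 * w j) ≤ (B : ℤ) * B + 2 * (B * θ) := by
      intro j _
      have h2 : (n j : ℤ) ≤ B := by exact_mod_cast hnB j
      have h3 : (w j : ℤ) ≤ B * θ := by exact_mod_cast hwθ j
      have h4 : (0 : ℤ) ≤ n j := Nat.cast_nonneg _
      nlinarith
    refine (Finset.sum_le_sum h1).trans (le_of_eq ?_)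
    rw [Finset.sum_const, nsmul_eq_mul]
  have hxe : (∑ z ∈ Z, (xe G (S z) (N z) : ℤ)) ≤
      ((k : ℤ) - 1) * ((R.card : ℤ) - 1) + R.card * ((B : ℤ) * B + 2 * (B * θ)) := by
    rw [hsq] at hecZ
    rw [hFcZ] at he2
    have ha0 : (0 : ℤ) ≤ 2 * (a : ℤ) * R.card := by positivity
    nlinarith
  have hfin : (2 * (A * A) : ℤ) ≤ ((k : ℤ) - 1) * ((R.card : ℤ) - 1) + R.card * ((B : ℤ) * B + 2 * (B * θ)) := by
    have h1 : (2 * (A * A) : ℤ) ≤ ∑ z ∈ Z, (xe G (S z) (N z) : ℤ) := by exact_mod_cast hsum2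
    exact h1.trans hxe
  have hk1 : ((k - 1 : ℕ) : ℤ) = (k : ℤ) - 1 := by
    rw [Nat.cast_sub (by omega)]; simp
  have hR1 : ((R.card - 1 : ℕ) : ℤ) = (R.card : ℤ) - 1 := by
    rw [Nat.cast_sub hRpos]; simp
  have hfin' : ((2 * (A * A) : ℕ) : ℤ) ≤ (((k - 1) * (R.card - 1) + R.card * (B * B + 2 * (B * θ)) : ℕ) : ℤ) := by
    push_cast
    rw [hk1, hR1]
    exact hfin
  exact_mod_cast hfin'

end Pool.Agent.LHA
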