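import Pool.Agent.LHA.PL

/-!
# Campaign LHA (MP_303581_co): one component has the right independence number
-/

set_option autoImplicit false

open Finset

namespace Pool.Agent.LHA

open Pool.Agent.TwoDens

/-- the final inequality -/
theorem fe_arith (e p k c A B C1 C3 N u y : ℤ) (he : 1 ≤ e) (hp : 1 ≤ p) (hk : 0 ≤ k) (hc : 1 ≤ c) (hC1 : 0 ≤ C1)
    (hC3 : 0 ≤ C3) (hB : 0 ≤ B) (hN : N = 4 * e) (hN2 : N * u ≤ k) (hA : c ≤ A + C3) (hA0 : 0 ≤ A)
    (hpk : p * k ≤ 2 * (c * c)) (hck : 2 * ((c - 1) * (c - 1)) ≤ p * k)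
    (hcbig : p * (4 * e * C3 + e * C1 + 2 * e * (B + p + 2)) + 4 ≤ c)
    (hy : y = e * (k * (p + 1) - p))
    (hmain : e * (2 * (A * A) + (k * k - k) * (p + 1) - C1 * c) + 2 * (e * (k - B - u - (p + 2))) + 2 * k + 1 ≤
      (k + 1) * y) : False := by
  subst hy
  subst hN
  set T := 4 * e * C3 + e * C1 + 2 * e * (B + p + 2) with hT
  have he0 : 0 ≤ e := by linarith
  have hp0 : 0 ≤ p := by linarith
  have g1 : 0 ≤ e * C3 := mul_nonneg he0 hC3
  have g2 : 0 ≤ e * C1 := mul_nonneg he0 hC1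
  have g3 : 0 ≤ e * (B + p + 2) := mul_nonneg he0 (by linarith)
  have hT0 : 0 ≤ T := by
    have : T = 4 * (e * C3) + e * C1 + 2 * (e * (B + p + 2)) := by rw [hT]; ring
    linarith
  have hTp : T ≤ p * T := by nlinarith
  have hC3T : C3 ≤ T := by
    have h1 : C3 ≤ e * C3 := by nlinarith
    have : T = 4 * (e * C3) + e * C1 + 2 * (e * (B + p + 2)) := by rw [hT]; ring
    linarith
  have hcC : 0 ≤ c - C3 := by linarith
  have h1 : 2 * (c * c) - 4 * (C3 * c) ≤ 2 * (A * A) := by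
    have h2 : (c - C3) * (c - C3) ≤ A * A := mul_self_le_mul_self hcC (by linarith)
    have h3 : 0 ≤ C3 * C3 := mul_nonneg hC3 hC3
    have h4 : (c - C3) * (c - C3) = c * c - 2 * (C3 * c) + C3 * C3 := by ring
    linarith
  have h2 : 2 * (e * u) * 2 ≤ k := by
    have : 2 * (e * u) * 2 = 4 * e * u := by ring
    linarith
  have h3 : e * (p * k) - 4 * (e * C3 * c) ≤ e * (2 * (A * A)) := by
    have h4 : p * k - 4 * (C3 * c) ≤ 2 * (A * A) := by linarith
    have h5 := mul_le_mul_of_nonneg_left h4 he0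
    have h6 : e * (p * k - 4 * (C3 * c)) = e * (p * k) - 4 * (e * C3 * c) := by ring
    linarith
  have h4 : 3 * k + 2 ≤ 2 * (4 * (e * C3 * c) + e * C1 * c + 2 * (e * (B + p + 2))) := by
    have e1 : e * (2 * (A * A) + (k * k - k) * (p + 1) - C1 * c) + 2 * (e * (k - B - u - (p + 2))) + 2 * k + 1 =
        e * (2 * (A * A)) + e * ((k * k - k) * (p + 1)) - e * C1 * c + 2 * (e * k) - 2 * (e * (B + p + 2)) -
        2 * (e * u) + 2 * k + 1 := by ring
    have e2 : (k + 1) * (e * (k * (p + 1) - p)) = e * ((k * k - k) * (p + 1)) + e * (p * k) + 2 * (e * k) - e * p := by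
      ring
    have e3 : 0 ≤ e * p := mul_nonneg he0 hp0
    linarith
  have h5 : 2 * (e * (B + p + 2)) ≤ 2 * (e * (B + p + 2)) * c := by
    have := mul_le_mul_of_nonneg_left hc (by linarith : 0 ≤ 2 * (e * (B + p + 2)))
    linarith
  have h6 : 3 * k + 2 ≤ 2 * (T * c) := by
    have e1 : 2 * (T * c) = 2 * (4 * (e * C3 * c) + e * C1 * c + 2 * (e * (B + p + 2)) * c) := by rw [hT]; ring
    linarith
  have h7 : p * (3 * k + 2) ≤ 2 * ((c - 4) * c) := by
    have h8 : p * (3 * k + 2) ≤ p * (2 * (T * c)) := mul_le_mul_of_nonneg_left h6 hp0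
    have h9 : (p * T) * c ≤ (c - 4) * c := mul_le_mul_of_nonneg_right (by linarith) (by linarith)
    have h10 : p * (2 * (T * c)) = 2 * ((p * T) * c) := by ring
    linarith
  have h8 : 3 * (2 * ((c - 1) * (c - 1))) ≤ 3 * (p * k) := by linarith
  have e1 : p * (3 * k + 2) = 3 * (p * k) + 2 * p := by ring
  have e2 : 3 * (2 * ((c - 1) * (c - 1))) = 6 * (c * c) - 12 * c + 6 := by ring
  have e3 : 2 * ((c - 4) * c) = 2 * (c * c) - 8 * c := by ring
  have e4 : 0 ≤ (c - 1) * (c - 1) := mul_self_nonneg _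
  have e5 : (c - 1) * (c - 1) = c * c - 2 * c + 1 := by ring
  have e6 : c * 1 ≤ c * c := mul_le_mul_of_nonneg_left hc (by linarith)
  linarith

theorem FR_sub {V : Type} [DecidableEq V] {G : SimpleGraph V} [DecidableRel G.Adj] {k s B : ℕ}
    {X I Z : Finset V} {K L S : V → Finset V} (hLD : LD G k s B X I Z K L S) {R : Finset V} (hR : R ⊆ I) :
    FR Z K S R ⊆ X := by
  unfold FR FT
  refine Finset.union_subset ?_ ((Finset.filter_subset _ _).trans hLD.ZX)
  rw [Finset.biUnion_subset]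
  exact fun j hj => hLD.KX j (hR hj)

theorem FR_disj {V : Type} [DecidableEq V] {G : SimpleGraph V} [DecidableRel G.Adj] {k s B : ℕ}
    {X I Z : Finset V} {K L S : V → Finset V} (hLD : LD G k s B X I Z K L S) {R R' : Finset V} (hR : R ⊆ I)
    (hR' : R' ⊆ I) (hd : Disjoint R R') (hcl : ∀ z ∈ Z, (∃ j ∈ R, j ∈ S z) → S z ⊆ R)
    (hcl' : ∀ z ∈ Z, (∃ j ∈ R', j ∈ S z) → S z ⊆ R') : Disjoint (FR Z K S R) (FR Z K S R') := by
  unfold FR FT
  rw [Finset.disjoint_left]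
  intro v hv hv'
  rw [mem_union, mem_biUnion, mem_filter] at hv hv'
  rcases hv with ⟨j, hj, hvj⟩ | ⟨hvZ, hvR⟩ <;> rcases hv' with ⟨l, hl, hvl⟩ | ⟨hvZ', hvR'⟩
  · have hjl : j ≠ l := by
      rintro rfl
      exact Finset.disjoint_left.1 hd hj hl
    exact Finset.disjoint_left.1 (hLD.KK j (hR hj) l (hR' hl) hjl) hvj hvl
  · exact Finset.disjoint_left.1 (hLD.KZ j (hR hj)) hvj hvZ'
  · exact Finset.disjoint_left.1 (hLD.KZ l (hR' hl)) hvl hvZ
  · obtain ⟨j, hj⟩ := hLD.Sne v hvZ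
    exact Finset.disjoint_left.1 hd (hcl v hvZ hvR hj) (hcl' v hvZ' hvR' hj)

/-- one component has independence number at most `p + 1` -/
theorem some_comp (hTR : St_TR) (hSU : St_SU) (hTV : St_TV) (hLG : St_LG) (hEC : St_EC) (hM2 : St_M2) (hXL : St_XL)
    {V : Type} [DecidableEq V] (G : SimpleGraph V) [DecidableRel G.Adj]
    {k s p e B a c m D C1 C' A : ℕ} {X I Z : Finset V} {K L S : V → Finset V} {h : V → V}
    (hLD : LD G k s B X I Z K L S) (hCov : Cov G k s (4 * e) X I Z K S h) (hSk : Sk G k X)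
    (hs : s = (p + 1) * e) (hX : X.card + p * e = k * s)
    (hp : 1 ≤ p) (he : 1 ≤ e) (hk : 3 ≤ k)
    (hpk : p * k ≤ 2 * (c * c)) (hck : 2 * ((c - 1) * (c - 1)) ≤ p * k)
    (hm : m = 4 * (B + 1) * (s + 1) * p) (hD : D = m * (2 * B + 1) + s + B)
    (hC1 : C1 = (p + 1) * (B * B + 2 * (B * D)) + 1) (hac : c ≤ a + C')
    (hc : p * (4 * (C' + 2 * (B * B)) + C1) + 4 * (C' + 2 * (B * B)) < c)
    (hc2 : p * (4 * e * (C' + 2 * (B * B)) + e * C1 + 2 * e * (B + p + 2)) + 4 ≤ c) (hHa : Ha G k a X)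
    (hA : A + 2 * (B * B) = a) :
    ∃ F ⊆ X, F.card + p = k * (p + 1) ∧ ∀ J ⊆ F, G.IsIndepSet (J : Set V) → J.card < p + 2 := by
  classical
  obtain ⟨Q, I', Z', hQ, hI', -, -, -, -, hI'c, hGR, hdis, hcov⟩ := peel hTR hSU hTV hLG hEC hM2 G hLD hs hX hp hk
    hpk hm hD hC1 hac hc hHa hA e (le_refl _)
  have hI'e : I' = ∅ := by
    rw [← Finset.card_eq_zero, hI'c, Nat.sub_self, Nat.mul_zero]
  have hcov' : ∀ j ∈ I, ∃ R ∈ Q, j ∈ R := by
    intro j hj
    rcases hcov j hj with h1 | h1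
    · rw [hI'e] at h1
      exact absurd h1 (Finset.notMem_empty _)
    · exact h1
  by_contra hcon
  push Not at hcon
  have hFc : ∀ R ∈ Q, (FR Z K S R).card + p = k * (p + 1) := by
    intro R hR
    have h1 := (hGR R hR).1.cF
    rw [(hGR R hR).1.c] at h1
    omega
  have hW : ∀ R ∈ Q, ∃ W : Finset V, W ⊆ FR Z K S R ∧ G.IsIndepSet (W : Set V) ∧ W.card = p + 2 := by
    intro R hR
    obtain ⟨J, hJ, hJi, hJc⟩ := hcon (FR Z K S R) (FR_sub hLD (hGR R hR).1.sub) (hFc R hR)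
    obtain ⟨W, hW, hWc⟩ := Finset.exists_subset_card_eq hJc
    exact ⟨W, hW.trans hJ, fun x hx y hy hxy => hJi (hW hx) (hW hy) hxy, hWc⟩
  choose! W hWF hWi hWc using hW
  obtain ⟨hhK, hhZ, hCov⟩ := hCov
  have hl : ∀ R ∈ Q, ∃ l ∈ I \ R, 4 * e * ((K l).filter (fun u => ∀ w ∈ W R, ¬ G.Adj w u)).card ≤ k := by
    intro R hR
    refine hCov (W R) ((hWF R hR).trans (FR_sub hLD (hGR R hR).1.sub)) (hWi R hR) (I \ R) Finset.sdiff_subset ?_ ?_
    · intro w hw hw2
      have h1 := hWF R hR hw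
      unfold FR FT at h1
      rw [mem_union, mem_biUnion, mem_filter] at h1
      rcases h1 with ⟨j, hj, hwj⟩ | ⟨hwZ, hwR⟩
      · rw [hhK j ((hGR R hR).1.sub hj) w hwj] at hw2
        exact (mem_sdiff.1 hw2).2 hj
      · exact (mem_sdiff.1 hw2).2 ((hGR R hR).1.cl w hwZ hwR (hhZ w hwZ))
    · have h1 : (I \ R).card + R.card = I.card := Finset.card_sdiff_add_card_eq_card (hGR R hR).1.sub
      rw [(hGR R hR).1.c, hLD.cI] at h1
      rw [hWc R hR]
      omega
  obtain ⟨i0, _⟩ : I.Nonempty := Finset.card_pos.1 (by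
    rw [hLD.cI, hs]
    exact Nat.mul_pos (by omega) he)
  haveI : Nonempty V := ⟨i0⟩
  choose! l hlI hlc using hl
  have hσ : ∀ R ∈ Q, ∃ R' ∈ Q, l R ∈ R' := fun R hR => hcov' (l R) (mem_sdiff.1 (hlI R hR)).1
  choose! σ hσQ hσl using hσ
  set U : Finset V → Finset V := fun R => ((K (l R)).filter (fun u => ∃ w ∈ W R, G.Adj w u)) \ W (σ R) with hU
  have hKF : ∀ R ∈ Q, ∀ j ∈ R, K j ⊆ FR Z K S R := by
    intro R _ j hj u hu
    unfold FR FT
    exact mem_union_left _ (mem_biUnion.2 ⟨j, hj, hu⟩)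
  have hxl := hXL V (Finset V) G Q (FR Z K S) W U σ
    (fun R hR R' hR' hne => FR_disj hLD (hGR R hR).1.sub (hGR R' hR').1.sub (hdis R hR R' hR' hne)
      (hGR R hR).1.cl (hGR R' hR').1.cl)
    (by
      intro R hR
      refine ⟨hσQ R hR, ?_, hWF R hR, ?_, Finset.sdiff_disjoint, ?_⟩
      · intro h1
        have h2 := hσl R hR
        rw [h1] at h2
        exact (mem_sdiff.1 (hlI R hR)).2 h2
      · exact (Finset.sdiff_subset.trans (Finset.filter_subset _ _)).trans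
          (hKF (σ R) (hσQ R hR) (l R) (hσl R hR))
      · intro u hu
        exact (mem_filter.1 (mem_sdiff.1 hu).1).2)
  -- the sizes
  set u := k / (4 * e) with hu
  have hu1 : 4 * e * u ≤ k := Nat.mul_div_le _ _
  have hUc : ∀ R ∈ Q, k ≤ (U R).card + B + u + (p + 2) := by
    intro R hR
    have h1 := (hGR (σ R) (hσQ R hR)).1.big (l R) (hσl R hR)
    have h2 : ((K (l R)).filter (fun u => ∀ w ∈ W R, ¬ G.Adj w u)).card ≤ u := by
      rw [hu, Nat.le_div_iff_mul_le (by omega), mul_comm]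
      exact hlc R hR
    have h3 : (K (l R)).card ≤ (U R).card + ((K (l R)).filter (fun u => ∀ w ∈ W R, ¬ G.Adj w u)).card +
        (W (σ R)).card := by
      have h4 : K (l R) ⊆ (U R ∪ (K (l R)).filter (fun u => ∀ w ∈ W R, ¬ G.Adj w u)) ∪ W (σ R) := by
        intro v hv
        by_cases h5 : v ∈ W (σ R)
        · exact mem_union_right _ h5
        · by_cases h6 : ∃ w ∈ W R, G.Adj w v
          · exact mem_union_left _ (mem_union_left _ (mem_sdiff.2 ⟨mem_filter.2 ⟨hv, h6⟩, h5⟩))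
          · refine mem_union_left _ (mem_union_right _ (mem_filter.2 ⟨hv, ?_⟩))
            intro w hw hwv
            exact h6 ⟨w, hw, hwv⟩
      have h5 := Finset.card_le_card h4
      have h6 := Finset.card_union_le (U R ∪ (K (l R)).filter (fun u => ∀ w ∈ W R, ¬ G.Adj w u)) (W (σ R))
      have h7 := Finset.card_union_le (U R) ((K (l R)).filter (fun u => ∀ w ∈ W R, ¬ G.Adj w u))
      omega
    rw [hWc (σ R) (hσQ R hR)] at h3
    omega
  set Y := Q.biUnion (FR Z K S) with hY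
  have hYX : Y ⊆ X := by
    rw [hY, Finset.biUnion_subset]
    exact fun R hR => FR_sub hLD (hGR R hR).1.sub
  have hYc : (Y.card : ℤ) = e * (k * (p + 1) - p) := by
    have h1 : Y.card = ∑ R ∈ Q, (FR Z K S R).card := by
      rw [hY, Finset.card_biUnion]
      exact fun R hR R' hR' hne => FR_disj hLD (hGR R hR).1.sub (hGR R' hR').1.sub (hdis R hR R' hR' hne)
        (hGR R hR).1.cl (hGR R' hR').1.cl
    rw [h1]
    push_cast
    have h2 : ∀ R ∈ Q, ((FR Z K S R).card : ℤ) = k * (p + 1) - p := by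
      intro R hR
      have h3 := hFc R hR
      have h4 : ((FR Z K S R).card : ℤ) + p = k * (p + 1) := by exact_mod_cast h3
      linarith
    rw [Finset.sum_congr rfl h2, Finset.sum_const, nsmul_eq_mul, hQ]
  have hkZ : (3 : ℤ) ≤ k := by exact_mod_cast hk
  have hpZ : (1 : ℤ) ≤ p := by exact_mod_cast hp
  have heZ : (1 : ℤ) ≤ e := by exact_mod_cast he
  have hY3 : 3 ≤ Y.card := by
    have h1 : (3 : ℤ) ≤ k * (p + 1) - p := by nlinarith
    have h2 : (3 : ℤ) ≤ (Y.card : ℤ) := by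
      rw [hYc]
      nlinarith
    exact_mod_cast h2
  have hSkY := hSk Y hYX hY3
  have hSkZ : (e2 G Y : ℤ) + 2 * k + 1 ≤ (k + 1) * Y.card := by exact_mod_cast hSkY
  have hxlZ : (∑ R ∈ Q, (e2 G (FR Z K S R) : ℤ)) + 2 * ∑ R ∈ Q, ((U R).card : ℤ) ≤ e2 G Y := by
    exact_mod_cast hxl
  have hkk : ((k * k - k : ℕ) : ℤ) = (k : ℤ) * k - k := by
    rw [Nat.cast_sub (Nat.le_mul_self k)]
    push_cast
    ring
  have he2s : (e : ℤ) * (2 * (A * A) + (k * k - k) * (p + 1) - C1 * c) ≤ ∑ R ∈ Q, (e2 G (FR Z K S R) : ℤ) := by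
    have h1 : ∀ R ∈ Q, (2 * ((A : ℤ) * A) + (k * k - k) * (p + 1) - C1 * c) ≤ (e2 G (FR Z K S R) : ℤ) := by
      intro R hR
      have h2 := (hGR R hR).1.eF
      rw [(hGR R hR).1.c] at h2
      have h3 : ((2 * (A * A) + (k * k - k) * (p + 1) : ℕ) : ℤ) ≤ ((e2 G (FR Z K S R) + C1 * c : ℕ) : ℤ) := by
        exact_mod_cast h2
      push_cast at h3
      rw [hkk] at h3
      linarith
    have h4 := Finset.sum_le_sum h1
    rw [Finset.sum_const, nsmul_eq_mul, hQ] at h4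
    exact h4
  have hUs : (e : ℤ) * (k - B - u - (p + 2)) ≤ ∑ R ∈ Q, ((U R).card : ℤ) := by
    have h1 : ∀ R ∈ Q, ((k : ℤ) - B - u - (p + 2)) ≤ ((U R).card : ℤ) := by
      intro R hR
      have h2 : (k : ℤ) ≤ (U R).card + B + u + (p + 2) := by exact_mod_cast hUc R hR
      linarith
    have h4 := Finset.sum_le_sum h1
    rw [Finset.sum_const, nsmul_eq_mul, hQ] at h4
    exact h4
  have hc1 : 1 ≤ c := by omega
  have hckZ : 2 * (((c : ℤ) - 1) * (c - 1)) ≤ p * k := by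
    have h1 : ((2 * ((c - 1) * (c - 1)) : ℕ) : ℤ) ≤ ((p * k : ℕ) : ℤ) := by exact_mod_cast hck
    push_cast at h1
    rw [Nat.cast_sub hc1] at h1
    push_cast at h1
    exact h1
  refine fe_arith e p k c A B C1 ((C' + 2 * (B * B) : ℕ) : ℤ) (4 * e) u Y.card heZ hpZ (by linarith)
    (by exact_mod_cast hc1) (Nat.cast_nonneg _) (Nat.cast_nonneg _) (Nat.cast_nonneg _) rfl
    (by exact_mod_cast hu1) ?_ (Nat.cast_nonneg _) (by exact_mod_cast hpk) hckZ (by exact_mod_cast hc2) hYc ?_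
  · have h1 : c ≤ A + (C' + 2 * (B * B)) := by omega
    exact_mod_cast h1
  · linarith

end Pool.Agent.LHA
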