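import Pool.Agent.LHA.St
import Pool.Agent.TwoDens.Bridge

/-!
# Campaign LHA (MP_303581_co), second part: exact reduction if `s - t` divides `s`. Statements of the modules
-/

set_option autoImplicit false

open Finset

namespace Pool.Agent.LHA

open Pool.Agent.TwoDens

/-- The covering clause: `h` is the group of a vertex; an independent set `W` and a set `J` of groups without elements of `W`, together
more than `s`: then all but few elements of one of the cliques `K j`, `j ∈ J`, have a neighbour in `W`. -/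
def Cov {V : Type} [DecidableEq V] (G : SimpleGraph V) [DecidableRel G.Adj] (k s N : ℕ)
    (X I Z : Finset V) (K S : V → Finset V) (h : V → V) : Prop :=
  (∀ j ∈ I, ∀ u ∈ K j, h u = j) ∧ (∀ z ∈ Z, h z ∈ S z) ∧
  ∀ W ⊆ X, G.IsIndepSet (W : Set V) → ∀ J ⊆ I, (∀ w ∈ W, h w ∉ J) → s + 1 ≤ W.card + J.card →
    ∃ j ∈ J, N * ((K j).filter (fun u => ∀ w ∈ W, ¬ G.Adj w u)).card ≤ k

/-- (DC) As `thm_DT` in `Pool/Agent/LHA/DT.lean` (helper65), with the covering clause of `struct_thm2` kept. PROOF. The same (use `struct_thm2 s t (2 * M + N)`); `K j ⊆ grp X h j`, so the filter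
is contained in the set with at most `Λ` elements and `N Λ ≤ k`. (Copy of the proof, or a common lemma.) -/
def St_DC : Prop := ∀ s t N : ℕ, 2 ≤ s → ∃ B K₀ : ℕ, ∀ k, K₀ ≤ k →
    ∀ (V : Type) [DecidableEq V] (G : SimpleGraph V) [DecidableRel G.Adj] (X : Finset V),
    Sk G k X → Al G s X → X.card + t = k * s →
    ∃ (I Z : Finset V) (K L S : V → Finset V) (h : V → V), LD G k s B X I Z K L S ∧ Cov G k s N X I Z K S h

/-- (XL) Edges between the members of a family of disjoint sets. PROOF. For `u ∈ U i` choose a neighbour `w(i, u) ∈ W i`. The ordered adjacent pairs inside the `F i`, the pairs `(w(i, u), u)` and the pairs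
`(u, w(i, u))` (`i ∈ Q`, `u ∈ U i`) are all different and in the union: `w ∈ F i`, `u ∈ F (σ i)`, `σ i ≠ i`; the first component of `(w(i, u), u)` is in `W i`, that of `(u, w(i, u))` is in `U i ⊆ F (σ i) \ W (σ i)`;
for different `i` the first (second) components `w` are in different `F i`. -/
def St_XL : Prop := ∀ (V ι : Type) [DecidableEq V] [DecidableEq ι] (G : SimpleGraph V) [DecidableRel G.Adj]
    (Q : Finset ι) (F W U : ι → Finset V) (σ : ι → ι),
  (∀ i ∈ Q, ∀ j ∈ Q, i ≠ j → Disjoint (F i) (F j)) →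
  (∀ i ∈ Q, σ i ∈ Q ∧ σ i ≠ i ∧ W i ⊆ F i ∧ U i ⊆ F (σ i) ∧ Disjoint (U i) (W (σ i)) ∧
    ∀ u ∈ U i, ∃ w ∈ W i, G.Adj w u) →
  ∑ i ∈ Q, e2 G (F i) + 2 * ∑ i ∈ Q, (U i).card ≤ e2 G (Q.biUnion F)

/-- (UQ) Disjoint copies. PROOF. Let `c ≥ 1 / 2` be the 2-density of a graph `G` on `Fin m` with independence number `< r` (`le_csInf`, the set is not empty: complete graph), so
`e2 G Y ≤ 2 + 2 c (|Y| - 2)` for `|Y| ≥ 3` (`le_twoDensity` in the other direction: if `2 + 2 c' (|Y| - 2) = e2 G Y` then `c' ≤ c`). `minTwoDensity_le` for the graph on `Fin e × Fin m` (`(i, x) ~ (j, y)` iff `i = j` and `x ~ y`; this is `BKU.cp (Fin e) G`): an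
independent set has at most `r - 1` elements in every copy. For a finite set `Y` with parts `Y_i` let `f 0 = f 1 = 0`, `f n = 2 + 2 c (n - 2)`: `e2 = ∑ e2 G Y_i ≤ ∑ f |Y_i| ≤ f |Y|` (`f` is superadditive since `c ≥ 1 / 2`; induction). -/
def St_UQ : Prop := ∀ m r e : ℕ, 3 ≤ m → 2 ≤ r → 1 ≤ e → 1 / 2 ≤ minTwoDensity m r →
  minTwoDensity (e * m) (e * (r - 1) + 1) ≤ minTwoDensity m r

/-- (SG) The density of a subset. PROOF. Otherwise `e2 G Y < 2 + 2 M (|Y| - 2)` for all `Y ⊆ F` with `|Y| ≥ 3`, `M = minTwoDensity m r`. Let `c` be the maximum of `0` and of the numbers `(e2 G Y - 2) / (2 (|Y| - 2))` over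
these `Y` (finitely many), `c < M`. `minTwoDensity_le` for the induced graph on the subtype `F` (`Finset.map (Function.Embedding.subtype _)` for its subsets) gives `M ≤ c`. -/
def St_SG : Prop := ∀ (V : Type) [DecidableEq V] (G : SimpleGraph V) [DecidableRel G.Adj] (F : Finset V) (m r : ℕ),
  F.card = m → (∀ I ⊆ F, G.IsIndepSet (I : Set V) → I.card < r) → 0 < minTwoDensity m r →
  ∃ Y ⊆ F, 3 ≤ Y.card ∧ 2 + 2 * minTwoDensity m r * ((Y.card : ℝ) - 2) ≤ (e2 G Y : ℝ)

end Pool.Agent.LHA
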