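import Pool.Agent.LHA.CT
import Pool.Agent.LHA.StE

/-!
# Campaign LHA (MP_303581_co): the partition into components
-/

set_option autoImplicit false

open Finset

namespace Pool.Agent.LHA

open Pool.Agent.TwoDens

/-- the vertices of the component with the names `R` -/
def FR {V : Type} [DecidableEq V] (Z : Finset V) (K S : V → Finset V) (R : Finset V) : Finset V :=
  FT K R (Z.filter (fun z => ∃ j ∈ R, j ∈ S z))

/-- a component with `p + 1` cliques -/
structure GR {V : Type} [DecidableEq V] (G : SimpleGraph V) [DecidableRel G.Adj] (k p B A E : ℕ) (I Z : Finset V)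
    (K S : V → Finset V) (R : Finset V) : Prop where
  c : R.card = p + 1
  sub : R ⊆ I
  cl : ∀ z ∈ Z, (∃ j ∈ R, j ∈ S z) → S z ⊆ R
  big : ∀ j ∈ R, k ≤ (K j).card + B
  cF : (FR Z K S R).card + R.card = k * R.card + 1
  eF : 2 * (A * A) + (k * k - k) * R.card ≤ e2 G (FR Z K S R) + E

theorem peel (hTR : St_TR) (hSU : St_SU) (hTV : St_TV) (hLG : St_LG) (hEC : St_EC) (hM2 : St_M2)
    {V : Type} [DecidableEq V] (G : SimpleGraph V) [DecidableRel G.Adj]
    {k s p e B a c m D C1 C' A : ℕ} {X I Z : Finset V} {K L S : V → Finset V} (hLD : LD G k s B X I Z K L S)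
    (hs : s = (p + 1) * e) (hX : X.card + p * e = k * s)
    (hp : 1 ≤ p) (hk : 3 ≤ k)
    (hpk : p * k ≤ 2 * (c * c)) (hm : m = 4 * (B + 1) * (s + 1) * p) (hD : D = m * (2 * B + 1) + s + B)
    (hC1 : C1 = (p + 1) * (B * B + 2 * (B * D)) + 1) (hac : c ≤ a + C')
    (hc : p * (4 * (C' + 2 * (B * B)) + C1) + 4 * (C' + 2 * (B * B)) < c) (hHa : Ha G k a X)
    (hA : A + 2 * (B * B) = a) :
    ∀ f ≤ e, ∃ (Q : Finset (Finset V)) (I' Z' : Finset V), Q.card = f ∧ I' ⊆ I ∧ Z' ⊆ Z ∧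
      (∀ z ∈ Z', S z ⊆ I') ∧ (∀ z ∈ Z, ∀ j ∈ I', j ∈ S z → z ∈ Z') ∧
      ∑ j ∈ I', (k - (K j).card) = p * (e - f) + Z'.card ∧ I'.card = (p + 1) * (e - f) ∧
      (∀ R ∈ Q, GR G k p B A (C1 * c) I Z K S R ∧ Disjoint R I') ∧
      (∀ R ∈ Q, ∀ R' ∈ Q, R ≠ R' → Disjoint R R') ∧ (∀ j ∈ I, j ∈ I' ∨ ∃ R ∈ Q, j ∈ R) := by
  classical
  intro f
  induction f with
  | zero =>
    intro _
    refine ⟨∅, I, Z, by simp, subset_rfl, subset_rfl, hLD.SI, fun z hz _ _ _ => hz, ?_, ?_, by simp, by simp,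
      fun j hj => Or.inl hj⟩
    · have hKle : ∀ j ∈ I, (K j).card ≤ k := fun j hj => by
        have := hLD.dg j hj
        omega
      have h1 : ∑ j ∈ I, ((k - (K j).card) + (K j).card) = ∑ j ∈ I, k :=
        Finset.sum_congr rfl fun j hj => by have := hKle j hj; omega
      rw [Finset.sum_add_distrib, Finset.sum_const, smul_eq_mul, hLD.cI, mul_comm s k] at h1
      have h2 := hLD.cX
      rw [Nat.sub_zero]
      omega
    · rw [hLD.cI, hs, Nat.sub_zero]
  | succ f ih =>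
    intro hf
    obtain ⟨Q, I', Z', hQ, hI', hZ', hSI', hZZ, hy, hI'c, hGR, hdis, hcov⟩ := ih (by omega)
    obtain ⟨g, hg⟩ : ∃ g, e - f = g + 1 := ⟨e - f - 1, by omega⟩
    rw [hg] at hy hI'c
    have hst : (p + 2) * (p * (g + 1)) < (p + 1) * I'.card := by
      rw [hI'c]
      nlinarith
    obtain ⟨R, hRI', hRc, hRcl, hRbig, hRsum, hRF, hRe⟩ := core_tree hTR hSU hTV hLG hEC hM2 G (t' := p * (g + 1))
      hLD hp hk hI' hZ' hSI' hZZ hy hst hpk hm hD hC1 hac hc hHa hA
    have hfil : Z.filter (fun z => ∃ j ∈ R, j ∈ S z) = Z'.filter (fun z => ∃ j ∈ R, j ∈ S z) := by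
      ext z
      rw [mem_filter, mem_filter]
      constructor
      · rintro ⟨h1, j, hj, h2⟩
        exact ⟨hZZ z h1 j (hRI' hj) h2, j, hj, h2⟩
      · rintro ⟨h1, h2⟩
        exact ⟨hZ' h1, h2⟩
    have hRne : R.Nonempty := Finset.card_pos.1 (by omega)
    have hRQ : R ∉ Q := by
      intro h
      have h1 := (hGR R h).2
      obtain ⟨j, hj⟩ := hRne
      exact Finset.disjoint_left.1 h1 hj (hRI' hj)
    set ZR := Z'.filter (fun z => ∃ j ∈ R, j ∈ S z) with hZR
    refine ⟨insert R Q, I' \ R, Z' \ ZR, ?_, Finset.sdiff_subset.trans hI', Finset.sdiff_subset.trans hZ',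
      ?_, ?_, ?_, ?_, ?_, ?_, ?_⟩
    · rw [Finset.card_insert_of_notMem hRQ, hQ]
    · intro z hz j hj
      obtain ⟨h1, h2⟩ := mem_sdiff.1 hz
      refine mem_sdiff.2 ⟨hSI' z h1 hj, ?_⟩
      intro h3
      exact h2 (mem_filter.2 ⟨h1, j, h3, hj⟩)
    · intro z hz j hj hjS
      obtain ⟨h1, h2⟩ := mem_sdiff.1 hj
      have h3 := hZZ z hz j h1 hjS
      refine mem_sdiff.2 ⟨h3, ?_⟩
      intro h4
      exact h2 (hRcl z h3 (mem_filter.1 h4).2 hjS)
    · have h1 : ∑ j ∈ I' \ R, (k - (K j).card) + ∑ j ∈ R, (k - (K j).card) = ∑ j ∈ I', (k - (K j).card) :=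
        Finset.sum_sdiff hRI'
      have h2 : (Z' \ ZR).card + ZR.card = Z'.card :=
        Finset.card_sdiff_add_card_eq_card (Finset.filter_subset _ _)
      have h3 : e - (f + 1) = g := by omega
      have h4 : p * (g + 1) = p * g + p := by ring
      rw [h3]
      omega
    · have h1 : (I' \ R).card + R.card = I'.card := Finset.card_sdiff_add_card_eq_card hRI'
      have h3 : e - (f + 1) = g := by omega
      have h4 : (p + 1) * (g + 1) = (p + 1) * g + (p + 1) := by ring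
      rw [h3]
      omega
    · intro R' hR'
      rcases mem_insert.1 hR' with rfl | hR'
      · refine ⟨⟨hRc, hRI'.trans hI', ?_, hRbig, ?_, ?_⟩, Finset.disjoint_sdiff⟩
        · rintro z hz ⟨j, hj, hjS⟩
          exact hRcl z (hZZ z hz j (hRI' hj) hjS) ⟨j, hj, hjS⟩
        · unfold FR
          rw [hfil]
          exact hRF
        · unfold FR
          rw [hfil]
          exact hRe
      · exact ⟨(hGR R' hR').1, Finset.disjoint_of_subset_right Finset.sdiff_subset (hGR R' hR').2⟩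
    · intro R' hR' R'' hR'' hne
      rcases mem_insert.1 hR' with h1 | h1 <;> rcases mem_insert.1 hR'' with h2 | h2
      · exact absurd (h1.trans h2.symm) hne
      · rw [h1]
        exact (Finset.disjoint_of_subset_right hRI' (hGR R'' h2).2).symm
      · rw [h2]
        exact Finset.disjoint_of_subset_right hRI' (hGR R' h1).2
      · exact hdis R' h1 R'' h2 hne
    · intro j hj
      rcases hcov j hj with h1 | ⟨R', hR', h1⟩
      · by_cases h2 : j ∈ R
        · exact Or.inr ⟨R, mem_insert_self _ _, h2⟩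
        · exact Or.inl (mem_sdiff.2 ⟨h1, h2⟩)
      · exact Or.inr ⟨R', mem_insert_of_mem hR', h1⟩

end Pool.Agent.LHA
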