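import Pool.Agent.BKU.St

/-!
# Campaign LHA (MP_303581_co): statements for the upper bound

The graph `gr k p c`: a vertex `z`, a clique `K_0` and `p` cliques `K_i` with `k - 1` vertices; `z` is adjacent to all vertices `≥ p c` of all
cliques; the vertices `i c, ..., (i + 1) c - 1` of `K_0` are adjacent to the vertices `< p c` of `K_i`. `ν = mu k (p * c) = 2 p c / (k - 2)`.
-/

set_option autoImplicit false

open Finset

namespace Pool.Agent.LHA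

open Pool.Agent.BKU

/-- `K_0` and the `K_i` -/
def gH (k p c : ℕ) : SimpleGraph (Fin (k - 1) ⊕ (Fin p × Fin (k - 1))) :=
  jn (⊤ : SimpleGraph (Fin (k - 1))) (cp (Fin p) (⊤ : SimpleGraph (Fin (k - 1)))) fun b y =>
    y.1.val * c ≤ b.val ∧ b.val < (y.1.val + 1) * c ∧ y.2.val < p * c

/-- the relation between `z` and the cliques -/
def gz (k p c : ℕ) (y : Fin (k - 1) ⊕ (Fin p × Fin (k - 1))) : Prop := match y with
  | Sum.inl b => p * c ≤ b.val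
  | Sum.inr x => p * c ≤ x.2.val

/-- the graph -/
def gr (k p c : ℕ) : SimpleGraph (Unit ⊕ (Fin (k - 1) ⊕ (Fin p × Fin (k - 1)))) :=
  jn (⊤ : SimpleGraph Unit) (gH k p c) fun _ y => gz k p c y

/-- The numbers of a set of vertices: `γ` (is `z` in it), `f0`, `f i` (elements of `K_0`, `K_i`), `g0`, `g i` (those `< p c`), `h i` (the
elements `i c, ..., (i + 1) c - 1` of `K_0`). -/
structure Pr (k p c γ f0 g0 : ℕ) (f g h : Fin p → ℕ) : Prop where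
  γ1 : γ ≤ 1
  f0k : f0 ≤ k - 1
  g0f : g0 ≤ f0
  g0c : g0 ≤ p * c
  fg0 : f0 + p * c ≤ k - 1 + g0
  fk : ∀ i, f i ≤ k - 1
  gf : ∀ i, g i ≤ f i
  gc : ∀ i, g i ≤ p * c
  fg : ∀ i, f i + p * c ≤ k - 1 + g i
  hc : ∀ i, h i ≤ c
  hs : ∑ i, h i = g0

/-- (UE) The edges of `gr`. Uses BKU.JN, BKU.CP, BKU.ST (1) (proved: `thm_JN`, `thm_CP`, `thm_ST` in `Pool/Agent/BKU/JN.lean` etc.). PROOF. `γ = (pL F).card`, `D = pL (pR F)`, `Si = sec (pR (pR F)) i`, `f0 = D.card`,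
`g0 = ct D (b < p c)`, `h i = ct D (i c ≤ b < (i + 1) c)`, `f i = Si.card`, `g i = ct Si (x < p c)`. JN twice, CP, `E2 ⊤ F = |F|² - |F|`. For `z`: `ct (pR F) (gz ...) = (f0 - g0) + ∑ i, (f i - g i)` (count
the elements of the two parts, CP (2)). For `b ∈ D`: the number of neighbours in the `K_i` is `∑ i, [i c ≤ b < (i + 1) c] g i`. `∑ h i = g0`: every `b < p c` is in exactly one
interval (`i = b / c`); `h i ≤ c`, and there are `p c` places `< p c`, `k - 1 - p c` places `≥ p c`. -/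
def St_UE : Prop := St_JN → St_CP → St_ST → ∀ (k p c : ℕ), 1 ≤ c → p * c + 1 ≤ k →
  ∀ F : Finset (Unit ⊕ (Fin (k - 1) ⊕ (Fin p × Fin (k - 1)))),
  ∃ (γ f0 g0 : ℕ) (f g h : Fin p → ℕ), Pr k p c γ f0 g0 f g h ∧ F.card = γ + f0 + ∑ i, f i ∧
    E2 (gr k p c) F = (f0 : ℝ) * f0 - f0 + ∑ i, ((f i : ℝ) * f i - f i) +
      2 * γ * (((f0 : ℝ) - g0) + ∑ i, ((f i : ℝ) - g i)) + 2 * ∑ i, (h i : ℝ) * g i

/-- (UA) The arithmetic. Let `ν = mu k (p c)`, `a = p c`, so `ν (k - 2) = 2 a`, `0 < ν ≤ 1 / 2`, `2 p c² ≤ k - 2 ≤ k - 1 - ν`. PROOF. `gg x = x (k + 2 - x - ν)`. (1) `gg x ≥ k + 1 - ν` for `1 ≤ x ≤ k - 1` (the difference is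
`(x - 1) (k + 1 - ν - x)`). (2) `gg x ≥ 2 k - 2 ν` for `2 ≤ x ≤ k - 1` (concave; at `2` equality, at `k - 1` the difference is `(k - 3) (1 - ν)`). (3) `gg x - 2 (x - y) = x (k - x - ν) + 2 y ≥ k - 1 - ν` for
`1 ≤ x ≤ k - 1`, `0 ≤ y`, `x + a ≤ k - 1 + y`: if `x ≤ k - 1 - a`, by concavity look at `x = 1` (equality) and `x = k - 1 - a` (the difference is `(k - 1) (a - ν) - a (1 + a - ν) + ν ≥ 0`
since `k - 1 ≥ 2 (1 + a)`); otherwise `x = k - 1 - w` with `0 ≤ w ≤ a`, `y ≥ a - w` and the difference is at least `w (k - 4 - w + ν)`. Let `n` be the number of nonempty parts (`f0 ≥ 1`, `f i ≥ 1`), `Q = {i | h i * g i > 0}`; every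
`2 h i g i ≤ 2 p c² ≤ k - 1 - ν`, and if `Q ≠ ∅` then `f0 ≥ 1`, so `|Q| ≤ n - 1` or `Q = ∅`. The excess is `T = (k + 1 - ν) |F| - E2 = gg f0 + ∑ gg (f i) + γ (k + 1 - ν) - 2 γ (...) - 2 ∑ h i g i`.
`γ = 1`: `n = 0`: `T = k + 1 - ν`, `|F| = 1`; `n ≥ 1`: `T ≥ (k + 1 - ν) + n (k - 1 - ν) - |Q| (k - 1 - ν) ≥ 2 k - 2 ν` by (3). `γ = 0`: `n = 0`: `T = 0`. `Q = ∅`: by (1), (2) (`n = 1`: `mm`, `n ≥ 2`: `2 (k + 1 - ν)`).
`Q ≠ ∅`, `f0 ≥ 2`: `gg f0 ≥ 2 k - 2 ν`, and for `i ∈ Q`: `gg (f i) ≥ k + 1 - ν ≥ 2 h i g i`. `f0 = 1`: `∑ h i = g0 ≤ 1`, so `Q = {i}`, `h i = 1`; `f i = 1`: `T ≥ 2 (k + 1 - ν) - 2`; `f i ≥ 2`: `T ≥ (k + 1 - ν) + (2 k - 2 ν) - 2 a`. -/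
def St_UA : Prop := ∀ (k p c : ℕ), 1 ≤ p → 1 ≤ c → 2 * (p * (c * c)) + 2 ≤ k → 4 * (p * c) + 8 ≤ k →
  ∀ (γ f0 g0 : ℕ) (f g h : Fin p → ℕ), Pr k p c γ f0 g0 f g h →
  (f0 : ℝ) * f0 - f0 + ∑ i, ((f i : ℝ) * f i - f i) +
      2 * γ * (((f0 : ℝ) - g0) + ∑ i, ((f i : ℝ) - g i)) + 2 * ∑ i, (h i : ℝ) * g i +
    mm k (mu k (p * c)) (γ + f0 + ∑ i, f i) ≤ (k + 1 - mu k (p * c)) * ((γ + f0 + ∑ i, f i : ℕ) : ℝ)

/-- (UI) Independent sets of `gr`. PROOF. An independent set has at most one element in `K_0` and in every `K_i`, so at most `p + 1` without `z`. If it contains `z` and one element of every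
clique, all of them are `< p c` (not adjacent to `z`); `b ∈ K_0`, `i = b / c < p`, then `b` is adjacent to the element of `K_i`. So with `z` at most `p` of the cliques are hit. -/
def St_UI : Prop := ∀ (k p c : ℕ), 1 ≤ p → 1 ≤ c → p * c + 1 ≤ k → Ind (gr k p c) (p + 1)

/-- (UN) Disjoint unions, with a general real number `ν` (as `St_UN` of BKU, `Pool/Agent/BKU/UN.lean`; `mm` is subadditive: `mm (m + n) ≤ mm m + mm n` for `0 ≤ ν ≤ k`), and complete graphs (`E2 ⊤ F = |F|² - |F|`, (1) and (2) of UA). -/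
def St_UV : Prop :=
  (∀ (k : ℕ) (ν : ℝ), 4 ≤ k → 0 ≤ ν → ν ≤ 1 →
    (∀ (X Y : Type) [Fintype X] [Fintype Y] (G : SimpleGraph X) (H : SimpleGraph Y),
      Gd k ν G → Gd k ν H → Gd k ν (jn G H fun _ _ => False)) ∧
    (∀ (ι W : Type) [Fintype ι] [Fintype W] (G : SimpleGraph W), Gd k ν G → Gd k ν (cp ι G)) ∧
    Gd k ν (⊤ : SimpleGraph (Fin (k - 1)))) ∧
  Ind (⊤ : SimpleGraph (Fin 0)) 1 ∧ ∀ n : ℕ, Ind (⊤ : SimpleGraph (Fin n)) 1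

end Pool.Agent.LHA
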