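import Mathlib
import Pool.Agent.LHA.St

/-!
# Campaign LHA, module TR: existence of a tree
-/

set_option autoImplicit false

open Finset

namespace Pool.Agent.LHA

private def TR_P {ι ζ : Type} [DecidableEq ι] [DecidableEq ζ] (S : ζ → Finset ι) (j0 : ι) (ZR : Finset ζ)
    (Q : Finset ι) : Prop :=
  ∃ (Z' : Finset ζ) (par : ζ → ι), Z' ⊆ ZR ∧ (∀ z ∈ Z', S z ⊆ Q) ∧
    ((Q.card + Z'.card ≤ ∑ z ∈ Z', (S z).card) ∨
      (∑ z ∈ Z', (S z).card + 1 = Q.card + Z'.card ∧ Tree Q Z' S j0 par))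

private lemma TR_step {ι ζ : Type} [DecidableEq ι] [DecidableEq ζ] (S : ζ → Finset ι) (j0 : ι) (ZR : Finset ζ)
    (Q : Finset ι) (h : TR_P S j0 ZR Q) (z : ζ) (hz : z ∈ ZR) (q : ι) (hq : q ∈ Q) (hqz : q ∈ S z)
    (hzQ : ¬ S z ⊆ Q) : TR_P S j0 ZR (Q ∪ S z) := by
  obtain ⟨Z', par, hZ', hsub, hcase⟩ := h
  have hzZ' : z ∉ Z' := fun h => hzQ (hsub z h)
  have hcard : (Q ∪ S z).card + (Q ∩ S z).card = Q.card + (S z).card := card_union_add_card_inter Q (S z)
  have hint : 1 ≤ (Q ∩ S z).card := card_pos.2 ⟨q, mem_inter.2 ⟨hq, hqz⟩⟩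
  have hsub' : ∀ z' ∈ insert z Z', S z' ⊆ Q ∪ S z := by
    intro z' hz'
    rcases mem_insert.1 hz' with rfl | hz'
    · exact subset_union_right
    · exact (hsub z' hz').trans subset_union_left
  have hZ'' : insert z Z' ⊆ ZR := insert_subset hz hZ'
  have hs : ∑ z' ∈ insert z Z', (S z').card = (S z).card + ∑ z' ∈ Z', (S z').card := sum_insert hzZ'
  have hc : (insert z Z').card = Z'.card + 1 := card_insert_of_notMem hzZ'
  rcases hcase with ha | ⟨hb, hT⟩
  · exact ⟨insert z Z', par, hZ'', hsub', Or.inl (by omega)⟩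
  · by_cases h1 : (Q ∩ S z).card = 1
    · -- the tree is extended
      have hQz : ∀ x ∈ Q, x ∈ S z → x = q := by
        intro x hx hxz
        exact card_le_one.1 (le_of_eq h1) x (mem_inter.2 ⟨hx, hxz⟩) q (mem_inter.2 ⟨hq, hqz⟩)
      have hup : ∀ z' ∈ Z', Function.update par z q z' = par z' := by
        intro z' hz'
        have hne : z' ≠ z := fun h => hzZ' (h ▸ hz')
        exact Function.update_of_ne hne _ _
      have hupz : Function.update par z q z = q := Function.update_self _ _ _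
      refine ⟨insert z Z', Function.update par z q, hZ'', hsub', Or.inr ⟨by omega, ?_⟩⟩
      refine ⟨mem_union_left _ hT.root, hsub', ?_, ?_, ?_, ?_, ?_⟩
      · intro z' hz'
        rcases mem_insert.1 hz' with rfl | hz'
        · rw [hupz]; exact hqz
        · rw [hup z' hz']; exact hT.par_mem z' hz'
      · intro z' hz' hj0
        rcases mem_insert.1 hz' with rfl | hz'
        · rw [hupz]; exact (hQz j0 hT.root hj0).symm
        · rw [hup z' hz']; exact hT.par_root z' hz' hj0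
      · intro l hl hlj
        by_cases hlQ : l ∈ Q
        · obtain ⟨z', hz', h2, h3⟩ := hT.cov l hlQ hlj
          exact ⟨z', mem_insert_of_mem hz', h2, by rw [hup z' hz']; exact h3⟩
        · have hlz : l ∈ S z := by
            rcases mem_union.1 hl with h | h
            · exact absurd h hlQ
            · exact h
          refine ⟨z, mem_insert_self _ _, hlz, ?_⟩
          rw [hupz]
          intro h
          exact hlQ (h ▸ hq)
      · intro z₁ hz₁ z₂ hz₂ hne l hl hlp hl2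
        rcases mem_insert.1 hz₁ with h₁ | h₁
        · rcases mem_insert.1 hz₂ with h₂ | h₂
          · exact absurd (h₁.trans h₂.symm) hne
          · subst h₁
            rw [hupz] at hlp
            exact absurd (hQz l (hsub z₂ h₂ hl2) hl) hlp
        · rcases mem_insert.1 hz₂ with h₂ | h₂
          · subst h₂
            rw [hupz]
            exact hQz l (hsub z₁ h₁ hl) hl2
          · rw [hup z₁ h₁] at hlp
            rw [hup z₂ h₂]
            exact hT.uniq z₁ h₁ z₂ h₂ hne l hl hlp hl2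
      · intro z₁ hz₁ z₂ hz₂ hne j hj hj2 l hl hl2
        rcases mem_insert.1 hz₁ with h₁ | h₁
        · rcases mem_insert.1 hz₂ with h₂ | h₂
          · exact absurd (h₁.trans h₂.symm) hne
          · subst h₁
            rw [hQz j (hsub z₂ h₂ hj2) hj, hQz l (hsub z₂ h₂ hl2) hl]
        · rcases mem_insert.1 hz₂ with h₂ | h₂
          · subst h₂
            rw [hQz j (hsub z₁ h₁ hj) hj2, hQz l (hsub z₁ h₁ hl) hl2]
          · exact hT.inter z₁ h₁ z₂ h₂ hne j hj hj2 l hl hl2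
    · exact ⟨insert z Z', par, hZ'', hsub', Or.inl (by omega)⟩

private lemma TR_grow {ι ζ : Type} [DecidableEq ι] [DecidableEq ζ] (S : ζ → Finset ι) (j0 : ι) (ZR : Finset ζ)
    (R : Finset ι) (hR : ∀ z ∈ ZR, S z ⊆ R)
    (hcl : ∀ Q, Q ⊆ R → Q.Nonempty → Q ≠ R → ∃ z ∈ ZR, (∃ j ∈ Q, j ∈ S z) ∧ ¬ S z ⊆ Q) :
    ∀ (n : ℕ) (Q : Finset ι), R.card ≤ Q.card + n → Q ⊆ R → Q.Nonempty → TR_P S j0 ZR Q → TR_P S j0 ZR R := by
  intro n
  induction n with
  | zero =>
    intro Q hn hQ _ hP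
    have : Q = R := eq_of_subset_of_card_le hQ (by omega)
    rw [← this]
    exact hP
  | succ n ih =>
    intro Q hn hQ hne hP
    by_cases hQR : Q = R
    · rw [← hQR]; exact hP
    · obtain ⟨z, hz, ⟨j, hj, hjz⟩, hzQ⟩ := hcl Q hQ hne hQR
      have h1 := TR_step S j0 ZR Q hP z hz j hj hjz hzQ
      refine ih (Q ∪ S z) ?_ (union_subset hQ (hR z hz)) (hne.mono subset_union_left) h1
      have h2 : Q.card < (Q ∪ S z).card := by
        apply card_lt_card
        rw [ssubset_iff_subset_ne]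
        refine ⟨subset_union_left, fun h => hzQ ?_⟩
        rw [h]
        exact subset_union_right
      omega

/-- **TR** -/
theorem thm_TR : St_TR := by
  intro ι ζ _ _ I Z S y t p hSI hSne hdeg hsum hlt
  -- the good sets
  let Good : Finset ι → Prop := fun R => R ⊆ I ∧ (∀ z ∈ Z, (∃ j ∈ R, j ∈ S z) → S z ⊆ R) ∧
    (p + 2) * ∑ j ∈ R, y j < (p + 1) * R.card + (p + 2) * (Z.filter (fun z => ∃ j ∈ R, j ∈ S z)).card
  have hI : Good I := by
    refine ⟨Subset.refl I, fun z hz _ => hSI z hz, ?_⟩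
    have h1 : Z.filter (fun z => ∃ j ∈ I, j ∈ S z) = Z := by
      apply filter_true_of_mem
      intro z hz
      obtain ⟨j, hj⟩ := hSne z hz
      exact ⟨j, hSI z hz hj, hj⟩
    rw [h1, hsum, mul_add]
    omega
  obtain ⟨R, hRg, hRmin⟩ : ∃ R, Good R ∧ ∀ R', Good R' → R.card ≤ R'.card := by
    classical
    have h1 : ∃ n, ∃ R, Good R ∧ R.card = n := ⟨I.card, I, hI, rfl⟩
    obtain ⟨R, hR1, hR2⟩ := Nat.find_spec h1
    refine ⟨R, hR1, fun R' hR' => ?_⟩
    rw [hR2]
    exact Nat.find_min' h1 ⟨R', hR', rfl⟩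
  obtain ⟨hRI, hRc, hRlt⟩ := hRg
  have hRne : R.Nonempty := by
    rw [nonempty_iff_ne_empty]
    rintro rfl
    simp at hRlt
  set ZR := Z.filter (fun z => ∃ j ∈ R, j ∈ S z) with hZR
  have hZRsub : ∀ z ∈ ZR, S z ⊆ R := by
    intro z hz
    rw [hZR, mem_filter] at hz
    exact hRc z hz.1 hz.2
  -- the only nonempty closed subset of `R` is `R`
  have hcl : ∀ Q, Q ⊆ R → Q.Nonempty → Q ≠ R → ∃ z ∈ ZR, (∃ j ∈ Q, j ∈ S z) ∧ ¬ S z ⊆ Q := by
    intro Q hQ hQne hQR
    by_contra hcon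
    push Not at hcon
    have hQc : ∀ z ∈ Z, (∃ j ∈ Q, j ∈ S z) → S z ⊆ Q := by
      rintro z hz ⟨j, hj, hjz⟩
      refine hcon z ?_ ⟨j, hj, hjz⟩
      rw [hZR, mem_filter]
      exact ⟨hz, j, hQ hj, hjz⟩
    have hDc : ∀ z ∈ Z, (∃ j ∈ R \ Q, j ∈ S z) → S z ⊆ R \ Q := by
      rintro z hz ⟨j, hj, hjz⟩
      rw [mem_sdiff] at hj
      intro x hx
      rw [mem_sdiff]
      refine ⟨hRc z hz ⟨j, hj.1, hjz⟩ hx, fun hxQ => hj.2 ?_⟩
      exact hQc z hz ⟨x, hxQ, hx⟩ hjz
    have hZsplit : ZR.card = (Z.filter (fun z => ∃ j ∈ Q, j ∈ S z)).card +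
        (Z.filter (fun z => ∃ j ∈ R \ Q, j ∈ S z)).card := by
      rw [← card_union_of_disjoint]
      · congr 1
        ext z
        rw [hZR, mem_union, mem_filter, mem_filter, mem_filter]
        constructor
        · rintro ⟨hz, j, hj, hjz⟩
          by_cases hjQ : j ∈ Q
          · exact Or.inl ⟨hz, j, hjQ, hjz⟩
          · exact Or.inr ⟨hz, j, mem_sdiff.2 ⟨hj, hjQ⟩, hjz⟩
        · rintro (⟨hz, j, hj, hjz⟩ | ⟨hz, j, hj, hjz⟩)
          · exact ⟨hz, j, hQ hj, hjz⟩
          · exact ⟨hz, j, (mem_sdiff.1 hj).1, hjz⟩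
      · rw [disjoint_left]
        intro z hz hz2
        rw [mem_filter] at hz hz2
        obtain ⟨hz, j, hj, hjz⟩ := hz
        have h1 := hDc z hz hz2.2 hjz
        exact (mem_sdiff.1 h1).2 hj
    have hysplit : ∑ j ∈ R, y j = ∑ j ∈ R \ Q, y j + ∑ j ∈ Q, y j := (sum_sdiff hQ).symm
    have hcsplit : (R \ Q).card + Q.card = R.card := card_sdiff_add_card_eq_card hQ
    have hQcard : Q.card < R.card := card_lt_card (Finset.ssubset_iff_subset_ne.2 ⟨hQ, hQR⟩)
    have hQpos : 0 < Q.card := card_pos.2 hQne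
    have h1 : ¬ Good Q := fun h => by have := hRmin Q h; omega
    have h2 : ¬ Good (R \ Q) := fun h => by have := hRmin _ h; omega
    have h3 : (p + 1) * Q.card + (p + 2) * (Z.filter (fun z => ∃ j ∈ Q, j ∈ S z)).card ≤
        (p + 2) * ∑ j ∈ Q, y j := by
      by_contra h
      exact h1 ⟨hQ.trans hRI, hQc, not_le.1 h⟩
    have h4 : (p + 1) * (R \ Q).card + (p + 2) * (Z.filter (fun z => ∃ j ∈ R \ Q, j ∈ S z)).card ≤
        (p + 2) * ∑ j ∈ R \ Q, y j := by
      by_contra h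
      exact h2 ⟨sdiff_subset.trans hRI, hDc, not_le.1 h⟩
    rw [hysplit, hZsplit, ← hcsplit] at hRlt
    nlinarith
  obtain ⟨j0, hj0⟩ := hRne
  have hP0 : TR_P S j0 ZR {j0} := by
    refine ⟨∅, fun _ => j0, empty_subset _, by simp, Or.inr ⟨by simp, ?_⟩⟩
    refine ⟨mem_singleton_self j0, by simp, by simp, by simp, ?_, by simp, by simp⟩
    intro l hl hlj
    exact absurd (mem_singleton.1 hl) hlj
  obtain ⟨Z', par, hZ', hZ'sub, hcase⟩ := TR_grow S j0 ZR R hZRsub hcl R.card {j0} (by omega)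
    (singleton_subset_iff.2 hj0) (singleton_nonempty j0) hP0
  -- double counting
  have hdc : ∑ z ∈ ZR, (S z).card = ∑ j ∈ R, (Z.filter (fun z => j ∈ S z)).card := by
    have h1 : ∀ z ∈ ZR, (S z).card = ∑ j ∈ R, if j ∈ S z then 1 else 0 := by
      intro z hz
      rw [← card_filter]
      congr 1
      ext j
      rw [mem_filter]
      exact ⟨fun h => ⟨hZRsub z hz h, h⟩, fun h => h.2⟩
    rw [sum_congr rfl h1, sum_comm]
    apply sum_congr rfl
    intro j hj
    rw [← card_filter]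
    congr 1
    ext z
    simp only [hZR, mem_filter]
    exact ⟨fun h => ⟨h.1.1, h.2⟩, fun h => ⟨⟨h.1, j, hj, h.2⟩, h.2⟩⟩
  have hdle : ∑ j ∈ R, (Z.filter (fun z => j ∈ S z)).card ≤ ∑ j ∈ R, y j :=
    sum_le_sum (fun j hj => hdeg j (hRI hj))
  have hsplit : ∑ z ∈ ZR \ Z', (S z).card + ∑ z ∈ Z', (S z).card = ∑ z ∈ ZR, (S z).card := sum_sdiff hZ'
  have hcs : (ZR \ Z').card + Z'.card = ZR.card := card_sdiff_add_card_eq_card hZ'
  have hne1 : ∀ z ∈ ZR \ Z', 1 ≤ (S z).card := by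
    intro z hz
    have h1 := (mem_sdiff.1 hz).1
    rw [hZR, mem_filter] at h1
    exact card_pos.2 (hSne z h1.1)
  have hge : (ZR \ Z').card ≤ ∑ z ∈ ZR \ Z', (S z).card := by
    rw [card_eq_sum_ones]
    exact sum_le_sum hne1
  have hYlt : ∑ j ∈ R, y j < R.card + ZR.card := by
    by_contra h
    push Not at h
    have h1 : (p + 2) * (R.card + ZR.card) ≤ (p + 2) * ∑ j ∈ R, y j := Nat.mul_le_mul_left _ h
    nlinarith
  rcases hcase with ha | ⟨hb, hT⟩
  · omega
  · have hY : ∑ j ∈ R, y j + 1 = R.card + ZR.card := by omega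
    have hd : ∑ j ∈ R, (Z.filter (fun z => j ∈ S z)).card = ∑ j ∈ R, y j := by omega
    have hone : ∑ z ∈ ZR \ Z', (S z).card = ∑ z ∈ ZR \ Z', 1 := by
      rw [← card_eq_sum_ones]
      omega
    have hdj : ∀ j ∈ R, (Z.filter (fun z => j ∈ S z)).card = y j :=
      (sum_eq_sum_iff_of_le (fun j hj => hdeg j (hRI hj))).1 hd
    have hz1 : ∀ z ∈ ZR \ Z', (S z).card = 1 := by
      intro z hz
      exact (((sum_eq_sum_iff_of_le hne1).1 hone.symm) z hz).symm
    classical
    obtain ⟨par', hpar1, hpar2⟩ : ∃ par' : ζ → ι, (∀ z ∈ Z', par' z = par z) ∧ ∀ z ∈ ZR, z ∉ Z' → S z = {par' z} := by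
      refine ⟨fun z => if z ∈ Z' then par z else if h : (S z).Nonempty then h.choose else j0, ?_, ?_⟩
      · intro z hz
        simp only [if_pos hz]
      · intro z hz hz'
        have h1 := hz1 z (mem_sdiff.2 ⟨hz, hz'⟩)
        have h2 : (S z).Nonempty := card_pos.1 (by omega)
        simp only [if_neg hz', dif_pos h2]
        rw [card_eq_one] at h1
        obtain ⟨a, ha⟩ := h1
        have h3 := h2.choose_spec
        have h4 : h2.choose = a := by
          have h5 : h2.choose ∈ ({a} : Finset ι) := ha ▸ h3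
          exact mem_singleton.1 h5
        rw [h4]
        exact ha
    refine ⟨R, j0, par', hRI, ?_, hdj, ?_, hY⟩
    · by_contra h
      push Not at h
      have h1 : (p + 2) * (∑ j ∈ R, y j + 1) = (p + 2) * (R.card + ZR.card) := by rw [hY]
      nlinarith
    · refine ⟨hj0, hZRsub, ?_, ?_, ?_, ?_, ?_⟩
      · intro z hz
        by_cases h : z ∈ Z'
        · rw [hpar1 z h]; exact hT.par_mem z h
        · rw [hpar2 z hz h]; exact mem_singleton_self _
      · intro z hz hj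
        by_cases h : z ∈ Z'
        · rw [hpar1 z h]; exact hT.par_root z h hj
        · rw [hpar2 z hz h] at hj
          exact (mem_singleton.1 hj).symm
      · intro l hl hlj
        obtain ⟨z, hz, h1, h2⟩ := hT.cov l hl hlj
        exact ⟨z, hZ' hz, h1, by rw [hpar1 z hz]; exact h2⟩
      · intro z₁ hz₁ z₂ hz₂ hne l hl hlp hl2
        by_cases h2 : z₂ ∈ Z'
        · by_cases h1 : z₁ ∈ Z'
          · rw [hpar1 z₁ h1] at hlp
            rw [hpar1 z₂ h2]
            exact hT.uniq z₁ h1 z₂ h2 hne l hl hlp hl2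
          · rw [hpar2 z₁ hz₁ h1] at hl
            exact absurd (mem_singleton.1 hl) hlp
        · rw [hpar2 z₂ hz₂ h2] at hl2
          exact mem_singleton.1 hl2
      · intro z₁ hz₁ z₂ hz₂ hne j hj hj2 l hl hl2
        by_cases h2 : z₂ ∈ Z'
        · by_cases h1 : z₁ ∈ Z'
          · exact hT.inter z₁ h1 z₂ h2 hne j hj hj2 l hl hl2
          · rw [hpar2 z₁ hz₁ h1] at hj hl
            rw [mem_singleton.1 hj, mem_singleton.1 hl]
        · rw [hpar2 z₂ hz₂ h2] at hj2 hl2
          rw [mem_singleton.1 hj2, mem_singleton.1 hl2]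

end Pool.Agent.LHA
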